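import Pool.Agent.Y746.DX.N2

/-!
# Combinations of translates of derivatives of the xi function
-/

set_option autoImplicit false

namespace Pool.Agent.Y746.DX

open Complex Filter Topology MeasureTheory Set
open Pool.Agent.H24R2.JP (XX HH Om)
open Pool.Agent.H986R2.K4

/-- `P₀(D) ξ (s + a₀) + ∑ P_j(D) ξ (s + a_j)` -/
noncomputable def combo {m : ℕ} (P₀ : Polynomial ℂ) (a₀ : ℂ) (P : Fin m → Polynomial ℂ) (a : Fin m → ℂ)
    (s : ℂ) : ℂ := PD P₀ xi (s + a₀) + ∑ j, PD (P j) xi (s + a j)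

/-- finitely many zeros in every strip `θ + ε ≤ Re s ≤ B` -/
def FinStrips (F : ℂ → ℂ) (θ : ℝ) : Prop :=
  ∀ ε : ℝ, 0 < ε → ∀ B : ℝ, {s : ℂ | F s = 0 ∧ θ + ε ≤ s.re ∧ s.re ≤ B}.Finite

/-- monic combination in the variable `z = s + a₀ - 1/2` -/
noncomputable def FF {m : ℕ} (P₀ : Polynomial ℂ) (P : Fin m → Polynomial ℂ) (d : Fin m → ℂ) (z : ℂ) : ℂ :=
  PD P₀ XX z + ∑ j, PD (P j) XX (z - d j)

lemma comb_ef {m : ℕ} (S : Multiset ℂ) (hS : ∀ l ∈ S, l.im ≠ Real.pi / 4) (P : Fin m → Polynomial ℂ)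
    (d : Fin m → ℂ) (hd : ∀ j, 0 < (d j).re ∧ (d j).re < 1) :
    Cls (FF (S.map fun a => Polynomial.X - Polynomial.C a).prod P d) ∧
    ∃ y0 : ℝ, 0 ≤ y0 ∧ y0 < 1 / 2 ∧ ∀ y : ℝ, y0 ≤ y →
      (EF (FF (S.map fun a => Polynomial.X - Polynomial.C a).prod P d) y ↔ EF XX y) := by
  have hlo : Lo (fun z => ∑ j ∈ (Finset.univ : Finset (Fin m)), PD (P j) XX (z - d j)) :=
    lo_sum _ (fun j z => PD (P j) XX (z - d j)) fun j _ => lo_PD (hd j).1 (hd j).2 (P j)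
  have hc := (roots_case cls_XX le_rfl S hS).1
  refine ⟨cls_add_lo hc hlo, ?_⟩
  obtain ⟨y0, h0, h1, h2⟩ := ef_add_lo hc hlo
  exact ⟨y0, h0, h1, fun y hy => (h2 y hy).trans (roots_case cls_XX (h0.trans hy) S hS).2⟩

/-- finitely many zeros in strips -/
def FS (f : ℂ → ℂ) (y : ℝ) : Prop :=
  ∀ ε : ℝ, 0 < ε → ∀ B : ℝ, {z : ℂ | f z = 0 ∧ y + ε ≤ z.re ∧ z.re ≤ B}.Finite

lemma ef_ext {f : ℂ → ℂ} (hr : FR f) {y : ℝ} (h : EF f y) {ε : ℝ} (hε : 0 < ε) (B : ℝ) :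
    ∃ T : ℝ, ∀ z : ℂ, y + ε ≤ z.re → z.re ≤ B → T ≤ z.im → f z ≠ 0 := by
  obtain ⟨T1, hT1⟩ := h ε hε
  obtain ⟨T2, _, hT2⟩ := hr 1 (|B| + 2) 1 (by norm_num) (by linarith [abs_nonneg B]) one_pos
  refine ⟨max T1 T2, fun z h1 h2 h3 => ?_⟩
  rcases le_or_gt z.re (3 / 2) with hc | hc
  · exact hT1 z h1 hc (le_trans (le_max_left _ _) h3)
  · have e : I * (z.im : ℂ) + (z.re : ℂ) = z := by
      rw [mul_comm, add_comm]; exact Complex.re_add_im z
    have := (hT2 z.im z.re (le_trans (le_max_right _ _) h3) (by rw [Complex.ofReal_re]; linarith) (by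
      rw [Complex.norm_real, Real.norm_eq_abs, abs_of_pos (by linarith)]
      linarith [le_abs_self B])).1
    rwa [e] at this

lemma fs_iff {f : ℂ → ℂ} (hf : Cls f) (hf' : Cls (fun z => (starRingEnd ℂ) (f ((starRingEnd ℂ) z)))) (y : ℝ) :
    FS f y ↔ EF f y ∧ EF (fun z => (starRingEnd ℂ) (f ((starRingEnd ℂ) z))) y := by
  constructor
  · intro h
    constructor
    · intro ε hε
      obtain ⟨T, hT⟩ := ((h ε hε (3 / 2)).image Complex.im).bddAbove
      refine ⟨T + 1, fun z h1 h2 h3 h4 => ?_⟩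
      have := hT ⟨z, ⟨h4, h1, h2⟩, rfl⟩
      linarith
    · intro ε hε
      obtain ⟨T, hT⟩ := ((h ε hε (3 / 2)).image Complex.im).bddBelow
      refine ⟨-T + 1, fun z h1 h2 h3 h4 => ?_⟩
      have := hT ⟨(starRingEnd ℂ) z, ⟨(map_eq_zero _).1 h4, by simpa using h1, by simpa using h2⟩, rfl⟩
      rw [Complex.conj_im] at this
      linarith
  · rintro ⟨h1, h2⟩ ε hε B
    obtain ⟨T1, hT1⟩ := ef_ext hf.r h1 hε B
    obtain ⟨T2, hT2⟩ := ef_ext hf'.r h2 hε B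
    obtain ⟨T0, hT0, h0⟩ := hf.r 1 1 1 (by norm_num) le_rfl one_pos
    have hw := (h0 T0 1 le_rfl (by simp) (by simp)).1
    refine (finite_zeros hf.d hw (y + ε) B (max T1 T2)).subset ?_
    rintro z ⟨h3, h4, h5⟩
    refine ⟨h3, h4, h5, ?_⟩
    by_contra hc
    push Not at hc
    rcases le_total 0 z.im with h6 | h6
    · rw [abs_of_nonneg h6] at hc
      exact hT1 z h4 h5 (by linarith [le_max_left T1 T2]) h3
    · rw [abs_of_nonpos h6] at hc
      refine hT2 ((starRingEnd ℂ) z) (by simpa using h4) (by simpa using h5) (by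
        rw [Complex.conj_im]; linarith [le_max_right T1 T2]) ?_
      simp only [Complex.conj_conj, h3, map_zero]

lemma zeta_strips (θ : ℝ) : FinStrips riemannZeta θ ↔ FinRight riemannZeta θ := by
  constructor
  · intro h ε hε
    exact h ε hε 2
  · intro h ε hε B
    refine (h ε hε).subset ?_
    rintro s ⟨a, b, _⟩
    refine ⟨a, b, ?_⟩
    by_contra hc
    push Not at hc
    exact riemannZeta_ne_zero_of_one_le_re (by linarith) a

lemma FF_conj {m : ℕ} (P₀ : Polynomial ℂ) (P : Fin m → Polynomial ℂ) (d : Fin m → ℂ) (z : ℂ) :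
    (starRingEnd ℂ) (FF P₀ P d ((starRingEnd ℂ) z)) =
      FF (P₀.map (starRingEnd ℂ)) (fun j => (P j).map (starRingEnd ℂ)) (fun j => (starRingEnd ℂ) (d j)) z := by
  unfold FF
  rw [map_add, map_sum, PD_conj]
  congr 1
  refine Finset.sum_congr rfl fun j _ => ?_
  rw [PD_conj, map_sub, Complex.conj_conj]

lemma prod_conj (S : Multiset ℂ) :
    (S.map fun a => Polynomial.X - Polynomial.C a).prod.map (starRingEnd ℂ) =
      ((S.map (starRingEnd ℂ)).map fun a => Polynomial.X - Polynomial.C a).prod := by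
  rw [Polynomial.map_multiset_prod, Multiset.map_map, Multiset.map_map]
  congr 1
  refine Multiset.map_congr rfl fun a _ => ?_
  simp [Polynomial.map_sub]

theorem FF_iff {m : ℕ} (S : Multiset ℂ) (hS : ∀ l ∈ S, |l.im| ≠ Real.pi / 4) (P : Fin m → Polynomial ℂ)
    (d : Fin m → ℂ) (hd : ∀ j, 0 < (d j).re ∧ (d j).re < 1) :
    ∃ y0 : ℝ, 0 ≤ y0 ∧ y0 < 1 / 2 ∧ ∀ y : ℝ, y0 ≤ y →
      (FS (FF (S.map fun a => Polynomial.X - Polynomial.C a).prod P d) y ↔ EF XX y) := by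
  have hp : (0 : ℝ) < Real.pi / 4 := by positivity
  obtain ⟨c1, y1, a1, a2, a3⟩ := comb_ef S (fun l hl h => hS l hl (by rw [h, abs_of_pos hp])) P d hd
  obtain ⟨c2, y2, b1, b2, b3⟩ := comb_ef (S.map (starRingEnd ℂ)) (fun l hl h => by
    obtain ⟨l', hl', rfl⟩ := Multiset.mem_map.1 hl
    refine hS l' hl' ?_
    rw [Complex.conj_im] at h
    rw [← abs_neg, h, abs_of_pos hp]) (fun j => (P j).map (starRingEnd ℂ)) (fun j => (starRingEnd ℂ) (d j))
    (fun j => by rw [Complex.conj_re]; exact hd j)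
  have e : (fun z => (starRingEnd ℂ) (FF (S.map fun a => Polynomial.X - Polynomial.C a).prod P d ((starRingEnd ℂ) z))) =
      FF ((S.map (starRingEnd ℂ)).map fun a => Polynomial.X - Polynomial.C a).prod
        (fun j => (P j).map (starRingEnd ℂ)) (fun j => (starRingEnd ℂ) (d j)) := by
    funext z
    rw [FF_conj, prod_conj]
  refine ⟨max y1 y2, le_trans a1 (le_max_left _ _), max_lt a2 b2, fun y hy => ?_⟩
  rw [fs_iff c1 (by rw [e]; exact c2), e, a3 y (le_trans (le_max_left _ _) hy), b3 y (le_trans (le_max_right _ _) hy)]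
  exact and_self_iff

lemma FS_congr {f g : ℂ → ℂ} {y : ℝ} (h : ∀ z, f z = 0 ↔ g z = 0) : FS f y ↔ FS g y := by
  unfold FS
  simp only [h]

lemma strips_iff {F f : ℂ → ℂ} (b : ℂ) (h : ∀ s, F s = 0 ↔ f (s + b) = 0) (θ : ℝ) :
    FinStrips F θ ↔ FS f (θ + b.re) := by
  constructor
  · intro hF ε hε B
    refine ((hF ε hε (B - b.re)).image (fun s => s + b)).subset ?_
    rintro z ⟨h1, h2, h3⟩
    have e : z - b + b = z := by ring
    refine ⟨z - b, ⟨(h _).2 (by rw [e]; exact h1), ?_, ?_⟩, e⟩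
    · rw [Complex.sub_re]; linarith
    · rw [Complex.sub_re]; linarith
  · intro hF ε hε B
    refine ((hF ε hε (B + b.re)).image (fun z => z - b)).subset ?_
    rintro s ⟨h1, h2, h3⟩
    refine ⟨s + b, ⟨(h s).1 h1, ?_, ?_⟩, by simp⟩
    · rw [Complex.add_re]; linarith
    · rw [Complex.add_re]; linarith

theorem combo_iff {m : ℕ} (P₀ : Polynomial ℂ) (a₀ : ℂ) (P : Fin m → Polynomial ℂ) (a : Fin m → ℂ)
    (hP : P₀ ≠ 0) (hr : ∀ l : ℂ, P₀.IsRoot l → |l.im| ≠ Real.pi / 4)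
    (ha : ∀ j, (a j).re < a₀.re ∧ a₀.re < (a j).re + 1) :
    ∃ θ₀ : ℝ, θ₀ < 1 ∧ ∀ θ : ℝ, θ₀ ≤ θ → (FinStrips (combo P₀ a₀ P a) (θ - a₀.re) ↔ FinStrips riemannZeta θ) := by
  set c : ℂ := P₀.leadingCoeff with hcdef
  have hs : P₀ = Polynomial.C c * (P₀.roots.map fun a => Polynomial.X - Polynomial.C a).prod :=
    (IsAlgClosed.splits P₀).eq_prod_roots
  have hc : c ≠ 0 := Polynomial.leadingCoeff_ne_zero.2 hP
  obtain ⟨y0, h0, h1, h2⟩ := FF_iff P₀.roots (fun l hl => hr l ((Polynomial.mem_roots hP).1 hl))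
    (fun j => Polynomial.C c⁻¹ * P j) (fun j => a₀ - a j) (fun j => by
      rw [Complex.sub_re]
      constructor <;> linarith [(ha j).1, (ha j).2])
  refine ⟨y0 + 1 / 2, by linarith, fun θ hθ => ?_⟩
  have key : ∀ s : ℂ, combo P₀ a₀ P a s = 0 ↔
      FF (P₀.roots.map fun a => Polynomial.X - Polynomial.C a).prod (fun j => Polynomial.C c⁻¹ * P j)
        (fun j => a₀ - a j) (s + (a₀ - 1 / 2)) = 0 := by
    intro s
    have e : combo P₀ a₀ P a s = (c / 8) *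
        FF (P₀.roots.map fun a => Polynomial.X - Polynomial.C a).prod (fun j => Polynomial.C c⁻¹ * P j)
        (fun j => a₀ - a j) (s + (a₀ - 1 / 2)) := by
      unfold combo FF
      rw [PD_xi, mul_add, Finset.mul_sum]
      congr 1
      · conv_lhs => rw [hs, PD_C_mul]
        have : s + a₀ - 1 / 2 = s + (a₀ - 1 / 2) := by ring
        rw [this]; ring
      · refine Finset.sum_congr rfl fun j _ => ?_
        rw [PD_xi, PD_C_mul]
        have : s + (a₀ - 1 / 2) - (a₀ - a j) = s + a j - 1 / 2 := by ring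
        rw [this]
        field_simp
    rw [e]
    constructor
    · intro h
      rcases mul_eq_zero.1 h with h | h
      · exfalso
        exact hc (by simpa using h)
      · exact h
    · intro h; rw [h, mul_zero]
  rw [strips_iff (a₀ - 1 / 2) key, zeta_strips, zeta_iff (by linarith)]
  have e : θ - a₀.re + (a₀ - 1 / 2).re = θ - 1 / 2 := by
    have : (a₀ - 1 / 2).re = a₀.re - 1 / 2 := by simp
    rw [this]; ring
  rw [e]
  exact h2 _ (by linarith)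

lemma strips_mono {F : ℂ → ℂ} {θ θ' : ℝ} (h : θ ≤ θ') (hF : FinStrips F θ) : FinStrips F θ' := by
  intro ε hε B
  refine (hF ε hε B).subset ?_
  rintro s ⟨a, b, c⟩
  exact ⟨a, by linarith, c⟩

theorem combo_main {m : ℕ} (P₀ : Polynomial ℂ) (a₀ : ℂ) (P : Fin m → Polynomial ℂ) (a : Fin m → ℂ)
    (hP : P₀ ≠ 0) (hr : ∀ l : ℂ, P₀.IsRoot l → |l.im| ≠ Real.pi / 4)
    (ha : ∀ j, (a j).re < a₀.re ∧ a₀.re < (a j).re + 1) :
    (∃ θ₀ : ℝ, θ₀ < 1 ∧ ∀ θ : ℝ, θ₀ ≤ θ →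
      (FinStrips (combo P₀ a₀ P a) (θ - a₀.re) ↔ FinStrips riemannZeta θ)) ∧
    ((∃ θ : ℝ, θ < 1 ∧ ∀ s : ℂ, θ < s.re → riemannZeta s ≠ 0) ↔
      ∃ θ : ℝ, θ < 1 ∧ FinStrips (combo P₀ a₀ P a) (θ - a₀.re)) := by
  have h := combo_iff P₀ a₀ P a hP hr ha
  refine ⟨h, ?_⟩
  obtain ⟨θ₀, h0, h1⟩ := h
  rw [q1_iff]
  simp only [← zeta_strips]
  constructor
  · rintro ⟨θ, h2, h3⟩
    exact ⟨max θ θ₀, max_lt h2 h0, (h1 _ (le_max_right _ _)).2 (strips_mono (le_max_left _ _) h3)⟩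
  · rintro ⟨θ, h2, h3⟩
    refine ⟨max θ θ₀, max_lt h2 h0, (h1 _ (le_max_right _ _)).1 (strips_mono ?_ h3)⟩
    linarith [le_max_left θ θ₀]

end Pool.Agent.Y746.DX
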