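import Pool.Agent.H986R2.K4.SAB
import Pool.Agent.H986R2.K4.A1
import Pool.Agent.H986R2.K4.HHb
import Pool.Agent.H24R2.DZ.XB
import Pool.Agent.H986R2.K4.RG
import Pool.Agent.H986R2.K4.GR

/-!
# Differential operators with real roots applied to the xi function: the classes
-/

set_option autoImplicit false

namespace Pool.Agent.Y746.DX

open Complex Filter Topology MeasureTheory Set
open Pool.Agent.H24R2.JP (XX HH Om)
open Pool.Agent.H986R2.K4

/-- upper bound -/
def UB (f : ℂ → ℂ) : Prop := ∀ R : ℝ, 1 ≤ R → ∃ K T0 : ℝ, 1 ≤ K ∧ 2 ≤ T0 ∧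
  ∀ (t : ℝ) (u : ℂ), T0 ≤ t → ‖u‖ ≤ R →
    ‖f (I * t + u)‖ ≤ Real.exp (K * Real.log t) * ‖HH (I * t)‖

/-- behaviour far to the right -/
def FR (f : ℂ → ℂ) : Prop := ∀ a R ε : ℝ, 1 / 2 < a → 1 ≤ R → 0 < ε → ∃ T0 : ℝ, 2 ≤ T0 ∧
  ∀ (t : ℝ) (u : ℂ), T0 ≤ t → a ≤ u.re → ‖u‖ ≤ R →
    f (I * t + u) ≠ 0 ∧ ‖logDeriv f (I * t + u) - (Om t : ℂ)‖ ≤ ε * Om t ∧
    Real.exp (-(ε * Real.log t)) * ‖HH (I * t + u)‖ ≤ ‖f (I * t + u)‖ ∧
    ‖f (I * t + u)‖ ≤ Real.exp (ε * Real.log t) * ‖HH (I * t + u)‖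

/-- the operator `D - l` -/
noncomputable def op (l : ℂ) (f : ℂ → ℂ) (z : ℂ) : ℂ := deriv f z - l * f z

/-- no zeros to the right of `y`, eventually -/
def EF (f : ℂ → ℂ) (y : ℝ) : Prop := ∀ ε : ℝ, 0 < ε → ∃ T : ℝ, ∀ z : ℂ, y + ε ≤ z.re →
  z.re ≤ 3 / 2 → T ≤ z.im → f z ≠ 0

/-- regular growth to the right of `y` -/
def RR (f : ℂ → ℂ) (y : ℝ) : Prop := ∀ η0 η : ℝ, 0 < η0 → 0 < η → ∃ T0 : ℝ, 2 ≤ T0 ∧
  ∀ (t : ℝ) (u : ℂ), T0 ≤ t → y + η0 ≤ u.re → u.re ≤ 3 → |u.im| ≤ 3 →
    f (I * t + u) ≠ 0 ∧ ‖logDeriv f (I * t + u) - (Om t : ℂ)‖ ≤ η * Om t ∧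
    Real.exp (-(η * Real.log t)) * ‖HH (I * t + u)‖ ≤ ‖f (I * t + u)‖ ∧
    ‖f (I * t + u)‖ ≤ Real.exp (η * Real.log t) * ‖HH (I * t + u)‖

lemma Om_tendsto : Tendsto Om atTop atTop := by
  unfold Om
  exact Real.tendsto_log_atTop.atTop_div_const (by norm_num)

lemma op_diff {f : ℂ → ℂ} (hf : Differentiable ℂ f) (l : ℂ) : Differentiable ℂ (op l f) := by
  unfold op
  have h1 : Differentiable ℂ (deriv f) := by
    have : AnalyticOnNhd ℂ f univ := fun z _ => hf.analyticAt z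
    exact fun z => (this.deriv z (mem_univ z)).differentiableAt
  exact h1.sub (hf.const_mul _)

lemma ub_op {f : ℂ → ℂ} (hf : Differentiable ℂ f) (h : UB f) (l : ℂ) : UB (op l f) := by
  intro R hR
  obtain ⟨K, T0, hK, hT0, hb⟩ := h (R + 1) (by linarith)
  refine ⟨K + ‖l‖, max T0 3, by linarith [norm_nonneg l], le_trans hT0 (le_max_left _ _), ?_⟩
  intro t u ht hu
  have htT : T0 ≤ t := le_trans (le_max_left _ _) ht
  have ht3 : 3 ≤ t := le_trans (le_max_right _ _) ht
  have hlog : 1 ≤ Real.log t := by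
    rw [Real.le_log_iff_exp_le (by linarith)]
    linarith [Real.exp_one_lt_d9]
  set M : ℝ := Real.exp (K * Real.log t) * ‖HH (I * t)‖ with hM
  have hM0 : 0 ≤ M := by positivity
  have h1 : ‖deriv f (I * t + u)‖ ≤ M / 1 := by
    refine Complex.norm_deriv_le_of_forall_mem_sphere_norm_le one_pos hf.diffContOnCl ?_
    intro z hz
    have hz1 : ‖z - (I * t + u)‖ = 1 := by rw [← dist_eq_norm]; exact hz
    have h2 := hb t (u + (z - (I * t + u))) htT (by
      refine (norm_add_le _ _).trans ?_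
      rw [hz1]; linarith)
    have h3 : I * t + (u + (z - (I * t + u))) = z := by ring
    rwa [h3] at h2
  have h2 : ‖f (I * t + u)‖ ≤ M := hb t u htT (by linarith)
  unfold op
  calc ‖deriv f (I * t + u) - l * f (I * t + u)‖ ≤ M / 1 + ‖l‖ * M := by
        refine (norm_sub_le _ _).trans (add_le_add h1 ?_)
        rw [norm_mul]
        gcongr
    _ = (‖l‖ + 1) * M := by ring
    _ ≤ Real.exp (‖l‖ * Real.log t) * M := by
        refine mul_le_mul_of_nonneg_right ?_ hM0
        refine (Real.add_one_le_exp ‖l‖).trans (Real.exp_le_exp.2 ?_)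
        nlinarith [norm_nonneg l]
    _ = Real.exp ((K + ‖l‖) * Real.log t) * ‖HH (I * t)‖ := by
        rw [hM, ← mul_assoc, ← Real.exp_add]
        ring_nf

/-- the logarithmic derivative of `(D - l) f` -/
lemma op_log {f : ℂ → ℂ} (hf : Differentiable ℂ f) (l : ℂ) {z : ℂ} (h0 : f z ≠ 0)
    (h1 : logDeriv f z - l ≠ 0) :
    op l f z ≠ 0 ∧ op l f z = f z * (logDeriv f z - l) ∧
      logDeriv (op l f) z = logDeriv f z + deriv (logDeriv f) z / (logDeriv f z - l) := by
  have hev : ∀ᶠ w in 𝓝 z, f w ≠ 0 := hf.continuous.continuousAt.eventually_ne h0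
  have hopw : ∀ w, f w ≠ 0 → op l f w = f w * (logDeriv f w - l) := by
    intro w hw
    unfold op
    rw [logDeriv_apply]
    field_simp
  have hz := hopw z h0
  have hdl : DifferentiableAt ℂ (logDeriv f) z := by
    have h2 : AnalyticAt ℂ f z := hf.analyticAt z
    have h3 : AnalyticAt ℂ (deriv f) z := h2.deriv
    exact (h3.div h2 h0).differentiableAt
  refine ⟨by rw [hz]; exact mul_ne_zero h0 h1, hz, ?_⟩
  have he : op l f =ᶠ[𝓝 z] fun w => f w * (logDeriv f w - l) := hev.mono hopw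
  have e1 : logDeriv (op l f) z = logDeriv (fun w => f w * (logDeriv f w - l)) z := by
    rw [logDeriv_apply, logDeriv_apply, he.deriv_eq, he.eq_of_nhds]
  rw [e1, logDeriv_mul z h0 h1 hf.differentiableAt (hdl.sub_const _)]
  congr 1
  rw [logDeriv_apply, deriv_sub_const]

lemma fr_op {f : ℂ → ℂ} (hf : Differentiable ℂ f) (h : FR f) (l : ℂ) : FR (op l f) := by
  intro a R ε ha hR hε
  set r : ℝ := min ((a - 1 / 2) / 2) 1 with hr
  have hr0 : 0 < r := lt_min (by linarith) one_pos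
  have hr1 : r ≤ 1 := min_le_right _ _
  have hr2 : r ≤ (a - 1 / 2) / 2 := min_le_left _ _
  set e' : ℝ := min (ε * r / 8) (1 / 4) with he'
  have he0 : 0 < e' := lt_min (by positivity) (by norm_num)
  have he1 : e' ≤ ε * r / 8 := min_le_left _ _
  have he2 : e' ≤ 1 / 4 := min_le_right _ _
  have he3 : e' ≤ ε / 8 := by
    refine he1.trans ?_
    have : ε * r ≤ ε * 1 := mul_le_mul_of_nonneg_left hr1 hε.le
    linarith
  obtain ⟨T0, hT0, hb⟩ := h (a - r) (R + 1) e' (by linarith) (by linarith) he0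
  have ev1 : ∀ᶠ t : ℝ in atTop, 4 * ‖l‖ + 4 ≤ Om t := Om_tendsto.eventually_ge_atTop _
  have ev2 : ∀ᶠ t : ℝ in atTop, Real.log t ≤ t ^ (ε / 4) := by
    have h := (isLittleO_log_rpow_atTop (show 0 < ε / 4 by linarith)).bound (show (0 : ℝ) < 1 by norm_num)
    filter_upwards [h, eventually_ge_atTop 1] with t ht ht1
    rw [Real.norm_of_nonneg (Real.log_nonneg ht1), Real.norm_of_nonneg (by positivity), one_mul] at ht
    exact ht
  obtain ⟨T1, hT1⟩ := eventually_atTop.1 (ev1.and ev2)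
  refine ⟨max T0 T1, le_trans hT0 (le_max_left _ _), ?_⟩
  intro t u ht hua hu
  have htT : T0 ≤ t := le_trans (le_max_left _ _) ht
  obtain ⟨hOm, hlogr⟩ := hT1 t (le_trans (le_max_right _ _) ht)
  have ht2 : 2 ≤ t := hT0.trans htT
  have ht0 : 0 < t := by linarith
  have hOm4 : 4 ≤ Om t := by linarith [norm_nonneg l]
  have hOmdef : Om t = Real.log t / 2 := rfl
  obtain ⟨f0, f1, f2, f3⟩ := hb t u htT (by linarith) (by linarith)
  set w : ℂ := logDeriv f (I * t + u) with hw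
  -- lower bound for `w - l`
  have hwl : Om t / 2 ≤ ‖w - l‖ := by
    have h1 : ‖(Om t : ℂ)‖ - ‖w - (Om t : ℂ)‖ - ‖(l : ℂ)‖ ≤ ‖w - l‖ := by
      have : (Om t : ℂ) = (w - l) - (w - Om t) + l := by ring
      have h2 : ‖(Om t : ℂ)‖ ≤ ‖w - l‖ + ‖w - (Om t : ℂ)‖ + ‖(l : ℂ)‖ := by
        conv_lhs => rw [this]
        exact (norm_add_le _ _).trans (add_le_add (norm_sub_le _ _) le_rfl)
      linarith
    rw [Complex.norm_real, Real.norm_of_nonneg (by linarith)] at h1
    nlinarith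
  have hwu : ‖w - l‖ ≤ 2 * Om t := by
    have h1 : ‖w - l‖ ≤ ‖w - (Om t : ℂ)‖ + ‖(Om t : ℂ)‖ + ‖(l : ℂ)‖ := by
      have : w - l = (w - Om t) + Om t - l := by ring
      rw [this]
      exact (norm_sub_le _ _).trans (add_le_add (norm_add_le _ _) le_rfl)
    rw [Complex.norm_real, Real.norm_of_nonneg (by linarith)] at h1
    nlinarith
  have hwl0 : w - l ≠ 0 := by
    intro h0
    rw [h0, norm_zero] at hwl
    linarith
  obtain ⟨g0, g1, g2⟩ := op_log hf l f0 hwl0
  -- Cauchy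
  have hcau : ‖deriv (logDeriv f) (I * t + u)‖ ≤ e' * Om t / r := by
    have e1 : deriv (logDeriv f) (I * t + u) = deriv (fun z => logDeriv f z - (Om t : ℂ)) (I * t + u) := by
      rw [deriv_sub_const]
    rw [e1]
    have hin : ∀ z, ‖z - (I * t + u)‖ ≤ r → f z ≠ 0 ∧ ‖logDeriv f z - (Om t : ℂ)‖ ≤ e' * Om t := by
      intro z hz
      have e2 : z = I * t + (u + (z - (I * t + u))) := by ring
      have h3 := hb t (u + (z - (I * t + u))) htT (by
        have := Complex.abs_re_le_norm (z - (I * t + u))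
        rw [Complex.add_re]
        have h4 := (abs_le.1 (this.trans hz)).1
        linarith) (by
        refine (norm_add_le _ _).trans ?_
        linarith)
      rw [← e2] at h3
      exact ⟨h3.1, h3.2.1⟩
    have hdif : ∀ z, ‖z - (I * t + u)‖ ≤ r → DifferentiableAt ℂ (fun z => logDeriv f z - (Om t : ℂ)) z := by
      intro z hz
      have h2 : AnalyticAt ℂ f z := hf.analyticAt z
      have h3 : AnalyticAt ℂ (deriv f) z := h2.deriv
      exact ((h3.div h2 (hin z hz).1).differentiableAt).sub_const _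
    refine Complex.norm_deriv_le_of_forall_mem_sphere_norm_le hr0 ?_ ?_
    · constructor
      · intro z hz
        rw [Metric.mem_ball, dist_eq_norm] at hz
        exact (hdif z hz.le).differentiableWithinAt
      · rw [closure_ball _ hr0.ne']
        intro z hz
        rw [Metric.mem_closedBall, dist_eq_norm] at hz
        exact (hdif z hz).continuousAt.continuousWithinAt
    · intro z hz
      rw [mem_sphere_iff_norm] at hz
      exact (hin z hz.le).2
  refine ⟨g0, ?_, ?_, ?_⟩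
  · rw [g2]
    have e1 : logDeriv f (I * t + u) + deriv (logDeriv f) (I * t + u) / (logDeriv f (I * t + u) - l) - (Om t : ℂ) =
      (w - Om t) + deriv (logDeriv f) (I * t + u) / (w - l) := by rw [hw]; ring
    rw [e1]
    have h3 : ‖deriv (logDeriv f) (I * t + u) / (w - l)‖ ≤ 2 * e' / r := by
      rw [norm_div]
      calc ‖deriv (logDeriv f) (I * t + u)‖ / ‖w - l‖ ≤ (e' * Om t / r) / (Om t / 2) := by
            have : 0 < Om t / 2 := by linarith
            gcongr
        _ = 2 * e' / r := by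
            have : Om t ≠ 0 := by linarith
            field_simp
    have h4 : 2 * e' / r ≤ ε / 4 := by
      rw [div_le_iff₀ hr0]
      nlinarith
    calc _ ≤ ‖w - (Om t : ℂ)‖ + ‖deriv (logDeriv f) (I * t + u) / (w - l)‖ := norm_add_le _ _
      _ ≤ e' * Om t + ε / 4 := add_le_add f1 (h3.trans h4)
      _ ≤ ε * Om t := by nlinarith
  · rw [g1, norm_mul]
    have h5 : (1 : ℝ) ≤ ‖w - l‖ := by linarith
    calc Real.exp (-(ε * Real.log t)) * ‖HH (I * t + u)‖
        ≤ Real.exp (-(e' * Real.log t)) * ‖HH (I * t + u)‖ := by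
          have : 0 ≤ Real.log t := by linarith
          gcongr
          linarith
      _ ≤ ‖f (I * t + u)‖ := f2
      _ = ‖f (I * t + u)‖ * 1 := (mul_one _).symm
      _ ≤ ‖f (I * t + u)‖ * ‖w - l‖ := by gcongr
  · rw [g1, norm_mul]
    have h6 : ‖w - l‖ ≤ Real.exp (ε / 4 * Real.log t) := by
      refine hwu.trans ?_
      rw [hOmdef]
      have : Real.exp (ε / 4 * Real.log t) = t ^ (ε / 4) := by
        rw [Real.rpow_def_of_pos ht0, mul_comm]
      rw [this]
      linarith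
    calc ‖f (I * t + u)‖ * ‖w - l‖ ≤ (Real.exp (e' * Real.log t) * ‖HH (I * t + u)‖) *
          Real.exp (ε / 4 * Real.log t) := by gcongr
      _ = Real.exp (e' * Real.log t + ε / 4 * Real.log t) * ‖HH (I * t + u)‖ := by
          rw [Real.exp_add]; ring
      _ ≤ Real.exp (ε * Real.log t) * ‖HH (I * t + u)‖ := by
          have : 0 ≤ Real.log t := by linarith
          gcongr
          nlinarith

end Pool.Agent.Y746.DX
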