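import Pool.Agent.Y746.DX.A

/-!
# Regular growth to the right of the last zero
-/

set_option autoImplicit false

namespace Pool.Agent.Y746.DX

open Complex Filter Topology MeasureTheory Set
open Pool.Agent.H24R2.JP (XX HH Om)
open Pool.Agent.H986R2.K4

/-- the region is covered -/
lemma ef_all {f : ℂ → ℂ} {y : ℝ} (hfr : FR f) (hef : EF f y) {ε : ℝ} (hε : 0 < ε) :
    ∃ T0 : ℝ, ∀ (t : ℝ) (u : ℂ), T0 ≤ t → y + ε ≤ u.re → ‖u‖ ≤ 40 → f (I * t + u) ≠ 0 := by
  obtain ⟨T, hT⟩ := hef ε hε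
  obtain ⟨T1, hT1, h1⟩ := hfr 1 40 1 (by norm_num) (by norm_num) one_pos
  refine ⟨max (T + 40) T1, fun t u ht hu hn => ?_⟩
  have ht1 : T + 40 ≤ t := le_trans (le_max_left _ _) ht
  have ht2 : T1 ≤ t := le_trans (le_max_right _ _) ht
  have hre : (I * (t : ℂ) + u).re = u.re := by simp
  have him : (I * (t : ℂ) + u).im = t + u.im := by simp
  rcases le_or_gt u.re (3 / 2) with h | h
  · refine hT _ (by rw [hre]; exact hu) (by rw [hre]; exact h) ?_
    rw [him]
    have := (abs_le.1 ((Complex.abs_im_le_norm u).trans hn)).1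
    linarith
  · exact (h1 t u ht2 (by linarith) hn).1

lemma norm_le_of {u : ℂ} {a b : ℝ} (h1 : |u.re| ≤ a) (h2 : |u.im| ≤ b) : ‖u‖ ≤ a + b :=
  (Complex.norm_le_abs_re_add_abs_im u).trans (add_le_add h1 h2)

/-- Borel-Caratheodory and three circles -/
theorem rr_of_ef {f : ℂ → ℂ} (hd : Differentiable ℂ f) (hub : UB f) (hfr : FR f) {y : ℝ} (hy0 : 0 ≤ y)
    (hy1 : y < 1 / 2) (hef : EF f y) : RR f y := by
  intro η0 η hη0 hη
  obtain ⟨K, hK, hHH⟩ := hh
  obtain ⟨TH, hTH, hHH⟩ := hHH 40 (by norm_num)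
  obtain ⟨KU, TU, hKU, hTU, hUB⟩ := hub 40 (by norm_num)
  set e0 : ℝ := min (η0 / 2) (1 / 4) with he0
  have he00 : 0 < e0 := lt_min (by positivity) (by norm_num)
  have he01 : e0 ≤ η0 / 2 := min_le_left _ _
  have he02 : e0 ≤ 1 / 4 := min_le_right _ _
  obtain ⟨ε, hε, hS⟩ := sab e0 (η / 4) (KU + 40 * K) he00 he02 (by positivity) (by positivity)
  obtain ⟨TF, hTF, hF⟩ := hfr 1 40 ε (by norm_num) (by norm_num) hε
  obtain ⟨TE, hE⟩ := ef_all hfr hef (ε := e0) he00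
  have ev : ∀ᶠ t : ℝ in atTop, 1 ≤ Real.log t ∧ 4 * K / η ≤ Real.log t :=
    (Real.tendsto_log_atTop.eventually_ge_atTop _).and (Real.tendsto_log_atTop.eventually_ge_atTop _)
  obtain ⟨TL, hL⟩ := eventually_atTop.1 ev
  refine ⟨max (max TH TU) (max (max TF TE) TL), ?_, ?_⟩
  · exact le_trans hTH (le_trans (le_max_left _ _) (le_max_left _ _))
  intro t u0 ht hu1 hu2 hu3
  have htH : TH ≤ t := le_trans (le_trans (le_max_left _ _) (le_max_left _ _)) ht
  have htU : TU ≤ t := le_trans (le_trans (le_max_right _ _) (le_max_left _ _)) ht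
  have htF : TF ≤ t := le_trans (le_trans (le_trans (le_max_left _ _) (le_max_left _ _)) (le_max_right _ _)) ht
  have htE : TE ≤ t := le_trans (le_trans (le_trans (le_max_right _ _) (le_max_left _ _)) (le_max_right _ _)) ht
  obtain ⟨hL1, hLK⟩ := hL t (le_trans (le_trans (le_max_right _ _) (le_max_right _ _)) ht)
  have ht0 : 0 < t := by linarith
  have hOm : Om t = Real.log t / 2 := rfl
  have hKO : K ≤ η / 2 * Om t := by
    rw [div_le_iff₀ hη] at hLK
    rw [hOm]; nlinarith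
  set s0 : ℝ := y + e0 with hs0
  have hs00 : 0 ≤ s0 := by linarith
  have hs01 : s0 ≤ 1 := by linarith
  set g : ℂ → ℂ := fun v => f ((I * t + s0) + v) / (1 * HH ((I * t + s0) + v)) with hg
  have hcomb : ∀ v : ℂ, (I * t + (s0 : ℂ)) + v = I * t + (s0 + v) := fun v => by ring
  have hin : ∀ v : ℂ, 0 ≤ v.re → v.re ≤ 10 → |v.im| ≤ 10 → ‖(s0 : ℂ) + v‖ ≤ 40 ∧ ((s0 : ℂ) + v).re = s0 + v.re := by
    intro v h1 h2 h3
    have hre : ((s0 : ℂ) + v).re = s0 + v.re := by simp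
    refine ⟨?_, hre⟩
    have him : ((s0 : ℂ) + v).im = v.im := by simp
    refine (norm_le_of (a := 11) (b := 10) ?_ (by rw [him]; exact h3)).trans (by norm_num)
    rw [hre, abs_le]
    constructor <;> linarith
  have hH0 : ∀ v : ℂ, ‖v‖ ≤ 40 → DifferentiableAt ℂ HH (I * t + v) ∧
      HH (I * t + v) ≠ 0 ∧ ‖logDeriv HH (I * t + v) - (Om t : ℂ)‖ ≤ K ∧
      Real.exp (Om t * v.re - K * 40) * ‖HH (I * t)‖ ≤ ‖HH (I * t + v)‖ := by
    intro v hv
    obtain ⟨a, b, c, d, _⟩ := hHH t v htH hv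
    exact ⟨a, b, c, d⟩
  have key := hS (Real.log t) g hL1 ?_ ?_ (u0 - s0) ?_ ?_ ?_
  · have e1 : (I * t + (s0 : ℂ)) + (u0 - s0) = I * t + u0 := by ring
    have hn40 : ‖u0‖ ≤ 40 := by
      refine (norm_le_of (a := 3) (b := 3) ?_ hu3).trans (by norm_num)
      rw [abs_le]; constructor <;> linarith
    obtain ⟨a1, a2, a3, a4⟩ := hH0 u0 hn40
    have hfu : f (I * t + u0) ≠ 0 := hE t u0 htE (by linarith) hn40
    obtain ⟨k1, k2, k3⟩ := key
    have hgu : ‖g (u0 - s0)‖ = ‖f (I * t + u0)‖ / ‖HH (I * t + u0)‖ := by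
      rw [hg]; simp only
      rw [e1, one_mul, norm_div]
    rw [hgu] at k2 k3
    have hHpos : 0 < ‖HH (I * t + u0)‖ := norm_pos_iff.2 a2
    have hmono : η / 4 * Real.log t ≤ η * Real.log t := by nlinarith
    refine ⟨hfu, ?_, ?_, ?_⟩
    · have e2 := GRAux.logDeriv_quot (F := f) (H := HH) (p := I * t + s0) (c := 1) (u := u0 - s0) one_ne_zero
        hd.differentiableAt (by rw [e1]; exact hfu) (by rw [e1]; exact a1) (by rw [e1]; exact a2)
      have e3 : logDeriv f (I * t + u0) - (Om t : ℂ) =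
          logDeriv g (u0 - s0) + (logDeriv HH (I * t + u0) - (Om t : ℂ)) := by
        rw [hg, e2, e1]; ring
      rw [e3]
      calc _ ≤ ‖logDeriv g (u0 - s0)‖ + ‖logDeriv HH (I * t + u0) - (Om t : ℂ)‖ := norm_add_le _ _
        _ ≤ η / 4 * Real.log t + K := add_le_add k1 a3
        _ ≤ η * Om t := by rw [hOm] at hKO ⊢; linarith
    · rw [le_div_iff₀ hHpos] at k2
      refine le_trans ?_ k2
      gcongr
    · rw [div_le_iff₀ hHpos] at k3
      refine k3.trans ?_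
      gcongr
  · intro v h1 h2 h3
    obtain ⟨hn, hre⟩ := hin v h1.le h2 h3
    obtain ⟨a1, a2, a3, a4⟩ := hH0 _ hn
    have hfv : f (I * t + (s0 + v)) ≠ 0 := hE t _ htE (by rw [hre]; linarith) hn
    refine ⟨?_, ?_, ?_⟩
    · have hdd : DifferentiableAt ℂ (fun v : ℂ => (I * t + (s0 : ℂ)) + v) v := differentiableAt_id.const_add _
      have b1 : DifferentiableAt ℂ (fun v : ℂ => f ((I * t + (s0 : ℂ)) + v)) v :=
        DifferentiableAt.comp v hd.differentiableAt hdd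
      have b2 : DifferentiableAt ℂ (fun v : ℂ => HH ((I * t + (s0 : ℂ)) + v)) v :=
        DifferentiableAt.comp v (show DifferentiableAt ℂ HH ((I * t + (s0 : ℂ)) + v) by rw [hcomb]; exact a1) hdd
      refine b1.div (b2.const_mul _) ?_
      rw [one_mul, hcomb]; exact a2
    · show f ((I * t + (s0 : ℂ)) + v) / (1 * HH ((I * t + (s0 : ℂ)) + v)) ≠ 0
      rw [hcomb, one_mul]
      exact div_ne_zero hfv a2
    · show ‖f ((I * t + (s0 : ℂ)) + v) / (1 * HH ((I * t + (s0 : ℂ)) + v))‖ ≤ _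
      rw [hcomb, one_mul, norm_div, div_le_iff₀ (norm_pos_iff.2 a2)]
      have b1 := hUB t _ htU hn
      refine b1.trans ?_
      have b2 : Real.exp (-(K * 40)) * ‖HH (I * t)‖ ≤ ‖HH (I * t + (s0 + v))‖ := by
        refine le_trans ?_ a4
        gcongr
        have : 0 ≤ Om t * ((s0 : ℂ) + v).re := by
          rw [hre, hOm]
          have : 0 ≤ s0 + v.re := by linarith
          positivity
        linarith
      calc Real.exp (KU * Real.log t) * ‖HH (I * t)‖
          = Real.exp (KU * Real.log t + K * 40) * (Real.exp (-(K * 40)) * ‖HH (I * t)‖) := by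
            rw [← mul_assoc, ← Real.exp_add]; congr 2; ring
        _ ≤ Real.exp ((KU + 40 * K) * Real.log t) * ‖HH (I * t + (s0 + v))‖ := by
            gcongr
            nlinarith
  · intro v h1 h2 h3
    obtain ⟨hn, hre⟩ := hin v (by linarith) h2 h3
    obtain ⟨a1, a2, a3, a4⟩ := hH0 _ hn
    obtain ⟨_, _, c1, c2⟩ := hF t _ htF (by rw [hre]; linarith) hn
    have hHpos : 0 < ‖HH (I * t + (s0 + v))‖ := norm_pos_iff.2 a2
    constructor
    · show _ ≤ ‖f ((I * t + (s0 : ℂ)) + v) / (1 * HH ((I * t + (s0 : ℂ)) + v))‖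
      rw [hcomb, one_mul, norm_div, le_div_iff₀ hHpos]
      exact c1
    · show ‖f ((I * t + (s0 : ℂ)) + v) / (1 * HH ((I * t + (s0 : ℂ)) + v))‖ ≤ _
      rw [hcomb, one_mul, norm_div, div_le_iff₀ hHpos]
      exact c2
  · have : (u0 - (s0 : ℂ)).re = u0.re - s0 := by simp
    rw [this]; linarith
  · have : (u0 - (s0 : ℂ)).re = u0.re - s0 := by simp
    rw [this]; linarith
  · have : (u0 - (s0 : ℂ)).im = u0.im := by simp
    rw [this]; exact hu3

/-- zeros of `f` and of `(D - l) f`: the direct part -/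
theorem ef_op {f : ℂ → ℂ} (hd : Differentiable ℂ f) (hub : UB f) (hfr : FR f) {y : ℝ} (hy0 : 0 ≤ y)
    (hy1 : y < 1 / 2) (hef : EF f y) (l : ℂ) : EF (op l f) y := by
  have hrr := rr_of_ef hd hub hfr hy0 hy1 hef
  intro ε hε
  obtain ⟨T0, hT0, h⟩ := hrr ε (1 / 4) hε (by norm_num)
  have ev1 : ∀ᶠ t : ℝ in atTop, 4 * ‖l‖ + 4 ≤ Om t := Om_tendsto.eventually_ge_atTop _
  obtain ⟨T1, hT1⟩ := eventually_atTop.1 ev1
  refine ⟨max T0 T1, fun z hz1 hz2 hz3 => ?_⟩
  obtain ⟨f0, f1, _, _⟩ := h z.im z.re (le_trans (le_max_left _ _) hz3) (by simpa using hz1)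
    (by simp; linarith) (by simp)
  have hOm := hT1 z.im (le_trans (le_max_right _ _) hz3)
  have e : I * (z.im : ℂ) + (z.re : ℂ) = z := by
    rw [mul_comm, add_comm]; exact Complex.re_add_im z
  rw [e] at f0 f1
  refine (op_log hd l f0 ?_).1
  intro h0
  have h1 : ‖(Om z.im : ℂ) - l‖ ≤ 1 / 4 * Om z.im := by
    have : (Om z.im : ℂ) - l = -(logDeriv f z - Om z.im) + (logDeriv f z - l) := by ring
    rw [this, h0, add_zero, norm_neg]
    exact f1
  have h2 : ‖(Om z.im : ℂ)‖ ≤ ‖(Om z.im : ℂ) - l‖ + ‖l‖ := by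
    have : (Om z.im : ℂ) = ((Om z.im : ℂ) - l) + l := by ring
    conv_lhs => rw [this]
    exact norm_add_le _ _
  rw [Complex.norm_real] at h2
  have h3 := Real.le_norm_self (Om z.im)
  have := norm_nonneg l
  linarith

end Pool.Agent.Y746.DX
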