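import Pool.Agent.Y746.DX.B

/-!
# Decay of the gamma factor along vertical lines
-/

set_option autoImplicit false

namespace Pool.Agent.Y746.DX

open Complex Filter Topology MeasureTheory Set
open Pool.Agent.H24R2.JP (XX HH Om)
open Pool.Agent.H986R2.K4

lemma norm_Gamma_half_sq (τ : ℝ) :
    ‖Complex.Gamma (1 / 2 + τ * I)‖ ^ 2 = Real.pi / Real.cosh (Real.pi * τ) := by
  have h1 := Complex.Gamma_mul_Gamma_one_sub (1 / 2 + τ * I)
  have h2 : (1 : ℂ) - (1 / 2 + τ * I) = (starRingEnd ℂ) (1 / 2 + τ * I) := by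
    apply Complex.ext <;> simp; norm_num
  rw [h2, Complex.Gamma_conj, mul_conj, normSq_eq_norm_sq] at h1
  have h3 : Complex.sin (Real.pi * (1 / 2 + τ * I)) = ((Real.cosh (Real.pi * τ) : ℝ) : ℂ) := by
    have : (Real.pi : ℂ) * (1 / 2 + τ * I) = (Real.pi : ℂ) * τ * I + Real.pi / 2 := by ring
    rw [this, Complex.sin_add_pi_div_two, Complex.cos_mul_I]
    push_cast; rfl
  rw [h3] at h1
  exact_mod_cast h1

/-- the exact value of the size of `HH` on the line `Re z = 1/2` -/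
lemma half_val (t : ℝ) : ‖HH (I * t + ((1 / 2 : ℝ) : ℂ))‖ ^ 2 =
    16 * t ^ 2 * (1 + t ^ 2) / Real.cosh (Real.pi * t / 2) := by
  unfold HH
  have e1 : (4 * (I * t + ((1 / 2 : ℝ) : ℂ)) ^ 2 - 1 : ℂ) = 4 * (I * t) * (1 + I * t) := by
    push_cast; ring
  have e2 : (1 / 2 + (I * t + ((1 / 2 : ℝ) : ℂ)) : ℂ) = 1 + I * t := by push_cast; ring
  rw [e1, e2, Gammaℝ_def, norm_mul, norm_mul (4 * (I * (t : ℂ))) (1 + I * t),
    norm_mul ((Real.pi : ℂ) ^ (-(1 + I * t) / 2)), mul_pow, mul_pow, mul_pow]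
  have e3 : ‖(1 + I * t : ℂ)‖ ^ 2 = 1 + t ^ 2 := by
    rw [← Complex.normSq_eq_norm_sq, Complex.normSq_apply]
    simp; ring
  have e4 : ‖(4 * (I * t) : ℂ)‖ ^ 2 = 16 * t ^ 2 := by
    rw [norm_mul, norm_mul, Complex.norm_I, Complex.norm_real, Real.norm_eq_abs]
    simp only [Complex.norm_ofNat, one_mul]
    rw [mul_pow, sq_abs]; norm_num
  have e5 : ‖((Real.pi : ℂ) ^ (-(1 + I * t) / 2) : ℂ)‖ ^ 2 = Real.pi⁻¹ := by
    rw [Complex.norm_cpow_eq_rpow_re_of_pos Real.pi_pos]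
    have : ((-(1 + I * t) / 2 : ℂ)).re = -(1 / 2) := by
      have h : (-(1 + I * t) / 2 : ℂ) = ((-(1 / 2) : ℝ) : ℂ) + ((-(t / 2) : ℝ) : ℂ) * I := by
        push_cast; ring
      rw [h]; simp
    rw [this, ← Real.rpow_natCast, ← Real.rpow_mul Real.pi_pos.le]
    norm_num
    rw [Real.rpow_neg_one]
  have e6 : ‖Complex.Gamma ((1 + I * t) / 2)‖ ^ 2 = Real.pi / Real.cosh (Real.pi * t / 2) := by
    have h : ((1 + I * t) / 2 : ℂ) = 1 / 2 + ((t / 2 : ℝ) : ℂ) * I := by push_cast; ring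
    rw [h, norm_Gamma_half_sq]
    congr 2; ring
  rw [e3, e4, e5, e6]
  have := Real.pi_ne_zero
  field_simp

lemma half_ratio {t v : ℝ} (ht : 1 ≤ t) (hv : 0 ≤ v) :
    ‖HH (I * (t + v : ℝ) + ((1 / 2 : ℝ) : ℂ))‖ ≤
      2 * (1 + v) ^ 2 * Real.exp (-(Real.pi / 4 * v)) * ‖HH (I * t + ((1 / 2 : ℝ) : ℂ))‖ := by
  refine le_of_sq_le_sq ?_ (by positivity)
  rw [mul_pow, half_val, half_val]
  have hpi := Real.pi_pos
  have hc1 : 0 < Real.cosh (Real.pi * t / 2) := Real.cosh_pos _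
  have hc2 : 0 < Real.cosh (Real.pi * (t + v) / 2) := Real.cosh_pos _
  have h1 : Real.cosh (Real.pi * t / 2) ≤ Real.exp (Real.pi * t / 2) := by
    rw [Real.cosh_eq]
    have : Real.exp (-(Real.pi * t / 2)) ≤ Real.exp (Real.pi * t / 2) := Real.exp_le_exp.2 (by
      have : 0 ≤ Real.pi * t / 2 := by positivity
      linarith)
    linarith
  have h2 : Real.exp (Real.pi * (t + v) / 2) ≤ 2 * Real.cosh (Real.pi * (t + v) / 2) := by
    rw [Real.cosh_eq]
    have := Real.exp_pos (-(Real.pi * (t + v) / 2))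
    linarith
  have h3 : Real.exp (Real.pi * (t + v) / 2) = Real.exp (Real.pi * t / 2) * Real.exp (Real.pi / 4 * v) ^ 2 := by
    rw [← Real.exp_nat_mul, ← Real.exp_add]; congr 1; push_cast; ring
  have h4 : Real.exp (-(Real.pi / 4 * v)) = (Real.exp (Real.pi / 4 * v))⁻¹ := Real.exp_neg _
  set E : ℝ := Real.exp (Real.pi / 4 * v) with hE
  have hE0 : 0 < E := Real.exp_pos _
  have h5 : (t + v) ^ 2 * (1 + (t + v) ^ 2) ≤ (1 + v) ^ 4 * (t ^ 2 * (1 + t ^ 2)) := by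
    have a1 : t + v ≤ t * (1 + v) := by nlinarith
    have a2 : (t + v) ^ 2 ≤ t ^ 2 * (1 + v) ^ 2 := by
      have := pow_le_pow_left₀ (by linarith) a1 2
      rwa [mul_pow] at this
    have a3 : 1 + (t + v) ^ 2 ≤ (1 + t ^ 2) * (1 + v) ^ 2 := by nlinarith
    calc (t + v) ^ 2 * (1 + (t + v) ^ 2) ≤ (t ^ 2 * (1 + v) ^ 2) * ((1 + t ^ 2) * (1 + v) ^ 2) := by
          gcongr
      _ = _ := by ring
  rw [h4]
  have h6 : Real.cosh (Real.pi * t / 2) * E ^ 2 ≤ 2 * Real.cosh (Real.pi * (t + v) / 2) := by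
    calc Real.cosh (Real.pi * t / 2) * E ^ 2 ≤ Real.exp (Real.pi * t / 2) * E ^ 2 := by gcongr
      _ ≤ _ := by rw [← h3]; exact h2
  rw [div_le_iff₀ hc2]
  have e : (2 * (1 + v) ^ 2 * E⁻¹) ^ 2 * (16 * t ^ 2 * (1 + t ^ 2) / Real.cosh (Real.pi * t / 2)) *
      Real.cosh (Real.pi * (t + v) / 2) =
      (2 * Real.cosh (Real.pi * (t + v) / 2)) * (32 * (1 + v) ^ 4 * (t ^ 2 * (1 + t ^ 2))) /
        (Real.cosh (Real.pi * t / 2) * E ^ 2) := by
    field_simp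
    ring
  rw [e, le_div_iff₀ (by positivity)]
  calc 16 * (t + v) ^ 2 * (1 + (t + v) ^ 2) * (Real.cosh (Real.pi * t / 2) * E ^ 2)
      = 16 * ((t + v) ^ 2 * (1 + (t + v) ^ 2)) * (Real.cosh (Real.pi * t / 2) * E ^ 2) := by ring
    _ ≤ 16 * ((1 + v) ^ 4 * (t ^ 2 * (1 + t ^ 2))) * (2 * Real.cosh (Real.pi * (t + v) / 2)) := by
        gcongr
    _ ≤ (2 * Real.cosh (Real.pi * (t + v) / 2)) * (32 * (1 + v) ^ 4 * (t ^ 2 * (1 + t ^ 2))) := by
        have : 0 ≤ (1 + v) ^ 4 * (t ^ 2 * (1 + t ^ 2)) * (2 * Real.cosh (Real.pi * (t + v) / 2)) := by positivity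
        nlinarith

/-- decay of `HH` along vertical lines -/
theorem vdec : ∃ C T0 : ℝ, 1 ≤ C ∧ 2 ≤ T0 ∧ ∀ t v x : ℝ, T0 ≤ t → 0 ≤ v → 0 ≤ x → x ≤ 3 →
    ‖HH (I * (t + v : ℝ) + (x : ℂ))‖ ≤ C * (1 + v) ^ 4 * Real.exp (-(Real.pi / 4 * v)) * ‖HH (I * t + (x : ℂ))‖ := by
  obtain ⟨K, hK, hHH⟩ := hh
  obtain ⟨TH, hTH, hHH⟩ := hHH 4 (by norm_num)
  refine ⟨2 * Real.exp (16 * K), TH, ?_, hTH, ?_⟩
  · have : 1 ≤ Real.exp (16 * K) := Real.one_le_exp (by linarith)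
    linarith
  intro t v x ht hv hx0 hx3
  have ht1 : 1 ≤ t := by linarith
  have hn1 : ‖(x : ℂ)‖ ≤ 4 := by rw [Complex.norm_real, Real.norm_of_nonneg hx0]; linarith
  have hn2 : ‖((1 / 2 : ℝ) : ℂ)‖ ≤ 4 := by
    rw [Complex.norm_real, Real.norm_of_nonneg (by norm_num)]; norm_num
  have htv : TH ≤ t + v := by linarith
  obtain ⟨_, _, _, _, a5⟩ := hHH (t + v) x htv hn1
  obtain ⟨_, _, _, b4, _⟩ := hHH (t + v) ((1 / 2 : ℝ) : ℂ) htv hn2
  obtain ⟨_, _, _, c4, _⟩ := hHH t x ht hn1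
  obtain ⟨_, _, _, _, d5⟩ := hHH t ((1 / 2 : ℝ) : ℂ) ht hn2
  rw [Complex.ofReal_re] at a5 b4 c4 d5
  have hr := half_ratio ht1 hv
  set A := ‖HH (I * ((t + v : ℝ) : ℂ))‖
  set B := ‖HH (I * (t : ℂ))‖
  set A1 := ‖HH (I * ((t + v : ℝ) : ℂ) + ((1 / 2 : ℝ) : ℂ))‖
  set B1 := ‖HH (I * (t : ℂ) + ((1 / 2 : ℝ) : ℂ))‖
  set X1 := ‖HH (I * (t : ℂ) + (x : ℂ))‖
  have hA0 : 0 ≤ A := norm_nonneg _
  have hB0 : 0 ≤ B := norm_nonneg _
  have hX0 : 0 ≤ X1 := norm_nonneg _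
  have hB1 : 0 ≤ B1 := norm_nonneg _
  have hA1 : 0 ≤ A1 := norm_nonneg _
  have s1 : A ≤ Real.exp (-(Om (t + v) * (1 / 2)) + K * 4) * A1 := by
    calc A = Real.exp (-(Om (t + v) * (1 / 2)) + K * 4) * (Real.exp (Om (t + v) * (1 / 2) - K * 4) * A) := by
          rw [← mul_assoc, ← Real.exp_add]
          have : -(Om (t + v) * (1 / 2)) + K * 4 + (Om (t + v) * (1 / 2) - K * 4) = 0 := by ring
          rw [this, Real.exp_zero, one_mul]
      _ ≤ _ := by gcongr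
  have s2 : B ≤ Real.exp (-(Om t * x) + K * 4) * X1 := by
    calc B = Real.exp (-(Om t * x) + K * 4) * (Real.exp (Om t * x - K * 4) * B) := by
          rw [← mul_assoc, ← Real.exp_add]
          have : -(Om t * x) + K * 4 + (Om t * x - K * 4) = 0 := by ring
          rw [this, Real.exp_zero, one_mul]
      _ ≤ _ := by gcongr
  have hOm : (Om (t + v) - Om t) * (x - 1 / 2) ≤ 2 * Real.log (1 + v) := by
    have h1 : Om (t + v) - Om t = Real.log ((t + v) / t) / 2 := by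
      unfold Om
      rw [Real.log_div (by linarith) (by linarith)]; ring
    have h2 : 1 ≤ (t + v) / t := by rw [le_div_iff₀ (by linarith)]; linarith
    have h3 : (t + v) / t ≤ 1 + v := by
      rw [div_le_iff₀ (by linarith)]; nlinarith
    have h4 : 0 ≤ Real.log ((t + v) / t) := Real.log_nonneg h2
    have h5 : Real.log ((t + v) / t) ≤ Real.log (1 + v) := Real.log_le_log (by linarith) h3
    have h6 : 0 ≤ Real.log (1 + v) := Real.log_nonneg (by linarith)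
    rw [h1]
    nlinarith
  have hexp : Real.exp (2 * Real.log (1 + v)) = (1 + v) ^ 2 := by
    rw [show (2 : ℝ) * Real.log (1 + v) = ((2 : ℕ) : ℝ) * Real.log (1 + v) by norm_num, Real.exp_nat_mul,
      Real.exp_log (by linarith)]
  calc ‖HH (I * ((t + v : ℝ) : ℂ) + (x : ℂ))‖ ≤ Real.exp (Om (t + v) * x + K * 4) * A := a5
    _ ≤ Real.exp (Om (t + v) * x + K * 4) * (Real.exp (-(Om (t + v) * (1 / 2)) + K * 4) * A1) := by gcongr
    _ ≤ Real.exp (Om (t + v) * x + K * 4) * (Real.exp (-(Om (t + v) * (1 / 2)) + K * 4) *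
        (2 * (1 + v) ^ 2 * Real.exp (-(Real.pi / 4 * v)) * B1)) := by gcongr
    _ ≤ Real.exp (Om (t + v) * x + K * 4) * (Real.exp (-(Om (t + v) * (1 / 2)) + K * 4) *
        (2 * (1 + v) ^ 2 * Real.exp (-(Real.pi / 4 * v)) * (Real.exp (Om t * (1 / 2) + K * 4) *
          (Real.exp (-(Om t * x) + K * 4) * X1)))) := by
        gcongr
        exact d5.trans (by gcongr)
    _ = 2 * Real.exp (16 * K) * (1 + v) ^ 2 * Real.exp ((Om (t + v) - Om t) * (x - 1 / 2)) *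
        Real.exp (-(Real.pi / 4 * v)) * X1 := by
        have : Real.exp (16 * K) * Real.exp ((Om (t + v) - Om t) * (x - 1 / 2)) =
          Real.exp (Om (t + v) * x + K * 4) * Real.exp (-(Om (t + v) * (1 / 2)) + K * 4) *
            Real.exp (Om t * (1 / 2) + K * 4) * Real.exp (-(Om t * x) + K * 4) := by
          rw [← Real.exp_add, ← Real.exp_add, ← Real.exp_add, ← Real.exp_add]
          congr 1; ring
        calc _ = 2 * (1 + v) ^ 2 * Real.exp (-(Real.pi / 4 * v)) * X1 *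
              (Real.exp (Om (t + v) * x + K * 4) * Real.exp (-(Om (t + v) * (1 / 2)) + K * 4) *
            Real.exp (Om t * (1 / 2) + K * 4) * Real.exp (-(Om t * x) + K * 4)) := by ring
          _ = _ := by rw [← this]; ring
    _ ≤ 2 * Real.exp (16 * K) * (1 + v) ^ 2 * (1 + v) ^ 2 *
        Real.exp (-(Real.pi / 4 * v)) * X1 := by
        gcongr
        rw [← hexp]
        exact Real.exp_le_exp.2 hOm
    _ = 2 * Real.exp (16 * K) * (1 + v) ^ 4 * Real.exp (-(Real.pi / 4 * v)) * X1 := by ring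


lemma half_ratio_dn {t v : ℝ} (hv : 0 ≤ v) (hvt : v ≤ t) :
    ‖HH (I * (t - v : ℝ) + ((1 / 2 : ℝ) : ℂ))‖ ≤
      2 * Real.exp (Real.pi / 4 * v) * ‖HH (I * t + ((1 / 2 : ℝ) : ℂ))‖ := by
  refine le_of_sq_le_sq ?_ (by positivity)
  rw [mul_pow, half_val, half_val]
  have hpi := Real.pi_pos
  have ht0 : 0 ≤ t := by linarith
  have hc1 : 0 < Real.cosh (Real.pi * t / 2) := Real.cosh_pos _
  have hc2 : 0 < Real.cosh (Real.pi * (t - v) / 2) := Real.cosh_pos _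
  have h1 : Real.cosh (Real.pi * t / 2) ≤ Real.exp (Real.pi * t / 2) := by
    rw [Real.cosh_eq]
    have : Real.exp (-(Real.pi * t / 2)) ≤ Real.exp (Real.pi * t / 2) := Real.exp_le_exp.2 (by
      have : 0 ≤ Real.pi * t / 2 := by positivity
      linarith)
    linarith
  have h2 : Real.exp (Real.pi * (t - v) / 2) ≤ 2 * Real.cosh (Real.pi * (t - v) / 2) := by
    rw [Real.cosh_eq]
    have := Real.exp_pos (-(Real.pi * (t - v) / 2))
    linarith
  have h3 : Real.exp (Real.pi * t / 2) = Real.exp (Real.pi * (t - v) / 2) * Real.exp (Real.pi / 4 * v) ^ 2 := by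
    rw [← Real.exp_nat_mul, ← Real.exp_add]; congr 1; push_cast; ring
  set E : ℝ := Real.exp (Real.pi / 4 * v) with hE
  have hE0 : 0 < E := Real.exp_pos _
  have h5 : (t - v) ^ 2 * (1 + (t - v) ^ 2) ≤ t ^ 2 * (1 + t ^ 2) := by
    have a1 : (t - v) ^ 2 ≤ t ^ 2 := pow_le_pow_left₀ (by linarith) (by linarith) 2
    gcongr
  have h6 : Real.cosh (Real.pi * t / 2) ≤ 2 * Real.cosh (Real.pi * (t - v) / 2) * E ^ 2 := by
    calc Real.cosh (Real.pi * t / 2) ≤ Real.exp (Real.pi * (t - v) / 2) * E ^ 2 := by rw [← h3]; exact h1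
      _ ≤ _ := by gcongr
  rw [div_le_iff₀ hc2]
  have e : (2 * E) ^ 2 * (16 * t ^ 2 * (1 + t ^ 2) / Real.cosh (Real.pi * t / 2)) *
      Real.cosh (Real.pi * (t - v) / 2) =
      (2 * Real.cosh (Real.pi * (t - v) / 2) * E ^ 2) * (32 * (t ^ 2 * (1 + t ^ 2))) /
        Real.cosh (Real.pi * t / 2) := by
    field_simp
    ring
  rw [e, le_div_iff₀ (by positivity)]
  calc 16 * (t - v) ^ 2 * (1 + (t - v) ^ 2) * Real.cosh (Real.pi * t / 2)
      = 16 * ((t - v) ^ 2 * (1 + (t - v) ^ 2)) * Real.cosh (Real.pi * t / 2) := by ring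
    _ ≤ 16 * (t ^ 2 * (1 + t ^ 2)) * (2 * Real.cosh (Real.pi * (t - v) / 2) * E ^ 2) := by
        gcongr
    _ ≤ (2 * Real.cosh (Real.pi * (t - v) / 2) * E ^ 2) * (32 * (t ^ 2 * (1 + t ^ 2))) := by
        have : 0 ≤ (t ^ 2 * (1 + t ^ 2)) * (2 * Real.cosh (Real.pi * (t - v) / 2) * E ^ 2) := by positivity
        nlinarith

/-- growth of `HH` downwards along vertical lines -/
theorem vdec_dn : ∃ C T0 : ℝ, 1 ≤ C ∧ 2 ≤ T0 ∧ ∀ t v x : ℝ, T0 ≤ t → 0 ≤ v → v ≤ t / 2 → 0 ≤ x → x ≤ 3 →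
    ‖HH (I * (t - v : ℝ) + (x : ℂ))‖ ≤ C * Real.exp (Real.pi / 4 * v) * ‖HH (I * t + (x : ℂ))‖ := by
  obtain ⟨K, hK, hHH⟩ := hh
  obtain ⟨TH, hTH, hHH⟩ := hHH 4 (by norm_num)
  refine ⟨2 * Real.exp (16 * K + 3), 2 * TH, ?_, by linarith, ?_⟩
  · have : 1 ≤ Real.exp (16 * K + 3) := Real.one_le_exp (by linarith)
    linarith
  intro t v x ht hv hvt hx0 hx3
  have ht1 : 1 ≤ t := by linarith
  have hn1 : ‖(x : ℂ)‖ ≤ 4 := by rw [Complex.norm_real, Real.norm_of_nonneg hx0]; linarith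
  have hn2 : ‖((1 / 2 : ℝ) : ℂ)‖ ≤ 4 := by
    rw [Complex.norm_real, Real.norm_of_nonneg (by norm_num)]; norm_num
  have htv : TH ≤ t - v := by linarith
  have htT : TH ≤ t := by linarith
  obtain ⟨_, _, _, _, a5⟩ := hHH (t - v) x htv hn1
  obtain ⟨_, _, _, b4, _⟩ := hHH (t - v) ((1 / 2 : ℝ) : ℂ) htv hn2
  obtain ⟨_, _, _, c4, _⟩ := hHH t x htT hn1
  obtain ⟨_, _, _, _, d5⟩ := hHH t ((1 / 2 : ℝ) : ℂ) htT hn2
  rw [Complex.ofReal_re] at a5 b4 c4 d5
  have hr := half_ratio_dn hv (show v ≤ t by linarith)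
  set A := ‖HH (I * ((t - v : ℝ) : ℂ))‖
  set B := ‖HH (I * (t : ℂ))‖
  set A1 := ‖HH (I * ((t - v : ℝ) : ℂ) + ((1 / 2 : ℝ) : ℂ))‖
  set B1 := ‖HH (I * (t : ℂ) + ((1 / 2 : ℝ) : ℂ))‖
  set X1 := ‖HH (I * (t : ℂ) + (x : ℂ))‖
  have hA0 : 0 ≤ A := norm_nonneg _
  have hB0 : 0 ≤ B := norm_nonneg _
  have hX0 : 0 ≤ X1 := norm_nonneg _
  have hB1 : 0 ≤ B1 := norm_nonneg _
  have hA1 : 0 ≤ A1 := norm_nonneg _
  have s1 : A ≤ Real.exp (-(Om (t - v) * (1 / 2)) + K * 4) * A1 := by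
    calc A = Real.exp (-(Om (t - v) * (1 / 2)) + K * 4) * (Real.exp (Om (t - v) * (1 / 2) - K * 4) * A) := by
          rw [← mul_assoc, ← Real.exp_add]
          have : -(Om (t - v) * (1 / 2)) + K * 4 + (Om (t - v) * (1 / 2) - K * 4) = 0 := by ring
          rw [this, Real.exp_zero, one_mul]
      _ ≤ _ := by gcongr
  have s2 : B ≤ Real.exp (-(Om t * x) + K * 4) * X1 := by
    calc B = Real.exp (-(Om t * x) + K * 4) * (Real.exp (Om t * x - K * 4) * B) := by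
          rw [← mul_assoc, ← Real.exp_add]
          have : -(Om t * x) + K * 4 + (Om t * x - K * 4) = 0 := by ring
          rw [this, Real.exp_zero, one_mul]
      _ ≤ _ := by gcongr
  have hOm : (Om (t - v) - Om t) * (x - 1 / 2) ≤ 3 := by
    have h1 : Om t - Om (t - v) = Real.log (t / (t - v)) / 2 := by
      unfold Om
      rw [Real.log_div (by linarith) (by linarith)]; ring
    have h2 : 1 ≤ t / (t - v) := by rw [le_div_iff₀ (by linarith)]; linarith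
    have h3 : t / (t - v) ≤ 2 := by
      rw [div_le_iff₀ (by linarith)]; nlinarith
    have h4 : 0 ≤ Real.log (t / (t - v)) := Real.log_nonneg h2
    have h5 : Real.log (t / (t - v)) ≤ 1 := by
      have := Real.log_le_sub_one_of_pos (show 0 < t / (t - v) by linarith)
      linarith
    nlinarith
  calc ‖HH (I * ((t - v : ℝ) : ℂ) + (x : ℂ))‖ ≤ Real.exp (Om (t - v) * x + K * 4) * A := a5
    _ ≤ Real.exp (Om (t - v) * x + K * 4) * (Real.exp (-(Om (t - v) * (1 / 2)) + K * 4) * A1) := by gcongr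
    _ ≤ Real.exp (Om (t - v) * x + K * 4) * (Real.exp (-(Om (t - v) * (1 / 2)) + K * 4) *
        (2 * Real.exp (Real.pi / 4 * v) * B1)) := by gcongr
    _ ≤ Real.exp (Om (t - v) * x + K * 4) * (Real.exp (-(Om (t - v) * (1 / 2)) + K * 4) *
        (2 * Real.exp (Real.pi / 4 * v) * (Real.exp (Om t * (1 / 2) + K * 4) *
          (Real.exp (-(Om t * x) + K * 4) * X1)))) := by
        gcongr
        exact d5.trans (by gcongr)
    _ = 2 * Real.exp (16 * K) * Real.exp ((Om (t - v) - Om t) * (x - 1 / 2)) *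
        Real.exp (Real.pi / 4 * v) * X1 := by
        have : Real.exp (16 * K) * Real.exp ((Om (t - v) - Om t) * (x - 1 / 2)) =
          Real.exp (Om (t - v) * x + K * 4) * Real.exp (-(Om (t - v) * (1 / 2)) + K * 4) *
            Real.exp (Om t * (1 / 2) + K * 4) * Real.exp (-(Om t * x) + K * 4) := by
          rw [← Real.exp_add, ← Real.exp_add, ← Real.exp_add, ← Real.exp_add]
          congr 1; ring
        calc _ = 2 * Real.exp (Real.pi / 4 * v) * X1 *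
              (Real.exp (Om (t - v) * x + K * 4) * Real.exp (-(Om (t - v) * (1 / 2)) + K * 4) *
            Real.exp (Om t * (1 / 2) + K * 4) * Real.exp (-(Om t * x) + K * 4)) := by ring
          _ = _ := by rw [← this]; ring
    _ ≤ 2 * Real.exp (16 * K) * Real.exp 3 * Real.exp (Real.pi / 4 * v) * X1 := by
        gcongr
    _ = 2 * Real.exp (16 * K + 3) * Real.exp (Real.pi / 4 * v) * X1 := by
        rw [Real.exp_add]; ring

end Pool.Agent.Y746.DX
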