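import Pool.Agent.Y746.DX.C

/-!
# From the zeros of `(D - l) f` to the zeros of `f`
-/

set_option autoImplicit false

namespace Pool.Agent.Y746.DX

open Complex Filter Topology MeasureTheory Set
open Pool.Agent.H24R2.JP (XX HH Om)
open Pool.Agent.H986R2.K4

lemma fence {φ φ' : ℝ → ℂ} {A c V : ℝ} (hc : 0 < c) (hV : 0 ≤ V) (hA : 0 ≤ A)
    (hd : ∀ v, 0 ≤ v → v ≤ V → HasDerivAt φ (φ' v) v)
    (hb : ∀ v, 0 ≤ v → v ≤ V → ‖φ' v‖ ≤ A * Real.exp (-(c * v))) : ‖φ V - φ 0‖ ≤ A / c := by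
  have key := image_norm_le_of_norm_deriv_right_le_deriv_boundary (f := fun v => φ v - φ 0) (f' := φ')
    (a := 0) (b := V) (B := fun v => A / c * (1 - Real.exp (-(c * v)))) (B' := fun v => A * Real.exp (-(c * v)))
    (fun v hv => ((hd v hv.1 hv.2).sub_const _).continuousAt.continuousWithinAt)
    (fun v hv => ((hd v hv.1 hv.2.le).sub_const _).hasDerivWithinAt)
    (by simp) (fun v => by
      have h1 : HasDerivAt (fun v : ℝ => -(c * v)) (-(c * 1)) v := ((hasDerivAt_id v).const_mul c).neg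
      have h2 := ((h1.exp).const_sub 1).const_mul (A / c)
      refine h2.congr_deriv ?_
      field_simp)
    (fun v hv => hb v hv.1 hv.2.le) (right_mem_Icc.2 hV)
  refine key.trans ?_
  have h1 : 0 < Real.exp (-(c * V)) := Real.exp_pos _
  have h2 : 0 ≤ A / c := by positivity
  nlinarith

lemma poly_exp (n : ℕ) {a : ℝ} (ha : 0 < a) : ∃ C : ℝ, 1 ≤ C ∧ ∀ v : ℝ, 0 ≤ v →
    (1 + v) ^ n * Real.exp (-(a * v)) ≤ C := by
  refine ⟨max 1 ((n.factorial : ℝ) / a ^ n * Real.exp a), le_max_left _ _, fun v hv => ?_⟩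
  refine le_trans ?_ (le_max_right _ _)
  have h1 := Real.pow_div_factorial_le_exp (a * (1 + v)) (by positivity) n
  have hf : (0 : ℝ) < n.factorial := by exact_mod_cast Nat.factorial_pos n
  rw [div_le_iff₀ hf, mul_pow] at h1
  have h2 : Real.exp (a * (1 + v)) = Real.exp a * Real.exp (a * v) := by
    rw [← Real.exp_add]; ring_nf
  rw [h2] at h1
  rw [Real.exp_neg, ← div_eq_mul_inv, div_le_iff₀ (Real.exp_pos _)]
  calc (1 + v) ^ n = (a ^ n * (1 + v) ^ n) / a ^ n := by field_simp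
    _ ≤ (Real.exp a * Real.exp (a * v) * n.factorial) / a ^ n := by gcongr
    _ = _ := by ring

lemma vert_lim {f : ℂ → ℂ} (hub : UB f) {x b : ℝ} (hx : |x| ≤ 3) (hb4 : b < Real.pi / 4) :
    Tendsto (fun τ : ℝ => Real.exp (b * τ) * ‖f (I * τ + x)‖) atTop (𝓝 0) := by
  obtain ⟨K, T1, hK, hT1, hb⟩ := hub 3 (by norm_num)
  obtain ⟨C, T2, hC, hT2, hv⟩ := vdec
  set T : ℝ := max T1 T2 with hT
  have hT12 : T1 ≤ T := le_max_left _ _
  have hT22 : T2 ≤ T := le_max_right _ _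
  set n : ℕ := ⌈K⌉₊ with hn
  obtain ⟨C5, hC5, h5⟩ := poly_exp (n + 5) (a := Real.pi / 4 - b) (by linarith)
  set M : ℝ := C * Real.exp (Real.pi / 4 * T) * ‖HH (I * T)‖ * C5 with hM
  have hM0 : 0 ≤ M := by positivity
  have hlim : Tendsto (fun τ : ℝ => M * τ⁻¹) atTop (𝓝 0) := by
    have := (tendsto_inv_atTop_zero (𝕜 := ℝ)).const_mul M
    rwa [mul_zero] at this
  refine squeeze_zero' (Eventually.of_forall fun τ => by positivity) ?_ hlim
  filter_upwards [eventually_ge_atTop T] with τ hτ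
  have hτ2 : 2 ≤ τ := by linarith
  have hτ0 : 0 < τ := by linarith
  have h1 := hb τ x (by linarith) (by rw [Complex.norm_real]; exact hx)
  have h2 := hv T (τ - T) 0 hT22 (by linarith) le_rfl (by norm_num)
  have e1 : T + (τ - T) = τ := by ring
  rw [e1, Complex.ofReal_zero, add_zero, add_zero] at h2
  have h3 : Real.exp (K * Real.log τ) ≤ τ ^ n := by
    have : τ ^ n = Real.exp (n * Real.log τ) := by
      rw [Real.exp_nat_mul, Real.exp_log hτ0]
    rw [this]
    have hl : 0 ≤ Real.log τ := Real.log_nonneg (by linarith)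
    have hKn : K ≤ n := Nat.le_ceil K
    gcongr
  have h4 : (1 + (τ - T)) ^ 4 ≤ τ ^ 4 := by
    gcongr
    linarith
  have h6 := h5 τ hτ0.le
  have h7 : τ ^ (n + 5) ≤ (1 + τ) ^ (n + 5) := by
    gcongr
    linarith
  have e2 : Real.exp (-(Real.pi / 4 * (τ - T))) = Real.exp (Real.pi / 4 * T) * Real.exp (-(Real.pi / 4 * τ)) := by
    rw [← Real.exp_add]; ring_nf
  have e3 : Real.exp (-((Real.pi / 4 - b) * τ)) = Real.exp (b * τ) * Real.exp (-(Real.pi / 4 * τ)) := by
    rw [← Real.exp_add]; ring_nf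
  rw [e3] at h6
  calc Real.exp (b * τ) * ‖f (I * τ + x)‖ ≤ Real.exp (b * τ) * (Real.exp (K * Real.log τ) * ‖HH (I * τ)‖) := by gcongr
    _ ≤ Real.exp (b * τ) * (τ ^ n * (C * τ ^ 4 * (Real.exp (Real.pi / 4 * T) * Real.exp (-(Real.pi / 4 * τ))) * ‖HH (I * T)‖)) := by
        rw [← e2]
        refine mul_le_mul_of_nonneg_left ?_ (Real.exp_pos _).le
        refine mul_le_mul h3 (h2.trans ?_) (norm_nonneg _) (by positivity)
        gcongr
    _ = C * Real.exp (Real.pi / 4 * T) * ‖HH (I * T)‖ * (τ ^ (n + 5) * (Real.exp (b * τ) * Real.exp (-(Real.pi / 4 * τ)))) * τ⁻¹ := by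
        rw [pow_add, pow_succ τ 4]
        field_simp
    _ ≤ C * Real.exp (Real.pi / 4 * T) * ‖HH (I * T)‖ * C5 * τ⁻¹ := by
        gcongr
        refine le_trans ?_ h6
        gcongr

/-- integration along a vertical half line -/
theorem vert_up {f : ℂ → ℂ} (hd : Differentiable ℂ f) (hub : UB f) {y : ℝ} {l : ℂ} (hy0 : 0 ≤ y)
    (hl : l.im < Real.pi / 4)
    (hrr : RR (op l f) y) {η0 η : ℝ} (hη0 : 0 < η0) (hη : 0 < η) (hη1 : η ≤ 1) :
    ∃ C T0 : ℝ, 1 ≤ C ∧ 2 ≤ T0 ∧ ∀ t x : ℝ, T0 ≤ t → y + η0 ≤ x → x ≤ 3 →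
      ‖f (I * t + x)‖ ≤ C * Real.exp (η * Real.log t) * ‖HH (I * t + x)‖ := by
  obtain ⟨T1, hT1, h1⟩ := hrr η0 η hη0 hη
  obtain ⟨C, T2, hC, hT2, hv⟩ := vdec
  set c0 : ℝ := (Real.pi / 4 - l.im) / 2 with hc0
  have hc00 : 0 < c0 := by rw [hc0]; linarith
  obtain ⟨C5, hC5, h5⟩ := poly_exp 5 hc00
  refine ⟨(C * C5) / c0 + 1, max T1 T2, ?_, le_trans hT1 (le_max_left _ _), ?_⟩
  · have : 0 ≤ C * C5 / c0 := by positivity
    linarith
  intro t x ht hx1 hx2
  have ht1 : T1 ≤ t := le_trans (le_max_left _ _) ht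
  have ht2 : T2 ≤ t := le_trans (le_max_right _ _) ht
  have hx0 : 0 ≤ x := by linarith
  set A : ℝ := C * C5 * Real.exp (η * Real.log t) * ‖HH (I * t + x)‖ with hA
  have hA0 : 0 ≤ A := by positivity
  set φ : ℝ → ℂ := fun v => cexp (-(I * l * v)) * f (I * (t + v : ℝ) + x) with hφ
  set φ' : ℝ → ℂ := fun v => cexp (-(I * l * v)) * (I * op l f (I * (t + v : ℝ) + x)) with hφ'
  have hnorm : ∀ v : ℝ, ‖cexp (-(I * l * v))‖ = Real.exp (l.im * v) := by
    intro v
    rw [Complex.norm_exp]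
    have : (-(I * l * v) : ℂ).re = l.im * v := by simp
    rw [this]
  have hder : ∀ v : ℝ, HasDerivAt φ (φ' v) v := by
    intro v
    have a1 : HasDerivAt (fun v : ℝ => (v : ℂ)) 1 v := Complex.ofRealCLM.hasDerivAt
    have a2 : HasDerivAt (fun v : ℝ => -(I * l * (v : ℂ))) (-(I * l * 1)) v := (a1.const_mul (I * l)).neg
    have a3 : HasDerivAt (fun v : ℝ => (I * ((t + v : ℝ) : ℂ) + x)) (I * 1) v := by
      have b : HasDerivAt (fun v : ℝ => (I * ((t : ℂ) + (v : ℂ)) + x)) (I * 1) v :=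
        ((a1.const_add (t : ℂ)).const_mul I).add_const _
      refine b.congr_of_eventuallyEq (Eventually.of_forall fun w => ?_)
      simp only [Complex.ofReal_add]
    have a4 : HasDerivAt f (deriv f (I * ((t + v : ℝ) : ℂ) + x)) (I * ((t + v : ℝ) : ℂ) + x) :=
      hd.differentiableAt.hasDerivAt
    have a5 := a2.cexp.mul (a4.comp v a3)
    refine a5.congr_deriv ?_
    rw [hφ']
    simp only [op, Function.comp]
    ring
  have hbd : ∀ v, 0 ≤ v → ‖φ' v‖ ≤ A * Real.exp (-(c0 * v)) := by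
    intro v hv0
    have b0 : 0 < t := by linarith
    obtain ⟨_, _, _, b1⟩ := h1 (t + v) x (by linarith) (by simpa using hx1) (by simpa using hx2) (by simp)
    have b2 := hv t v x ht2 hv0 hx0 hx2
    have b3 : Real.exp (η * Real.log (t + v)) ≤ Real.exp (η * Real.log t) * (1 + v) := by
      have c1 : Real.log (t + v) ≤ Real.log t + Real.log (1 + v) := by
        rw [← Real.log_mul b0.ne' (by linarith)]
        refine Real.log_le_log (by linarith) ?_
        nlinarith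
      have c2 : 0 ≤ Real.log (1 + v) := Real.log_nonneg (by linarith)
      have c3 : Real.exp (Real.log (1 + v)) = 1 + v := Real.exp_log (by linarith)
      calc Real.exp (η * Real.log (t + v)) ≤ Real.exp (η * Real.log t + Real.log (1 + v)) := by
            refine Real.exp_le_exp.2 ?_
            nlinarith
        _ = _ := by rw [Real.exp_add, c3]
    have b4 : Real.exp (l.im * v) * Real.exp (-(Real.pi / 4 * v)) = Real.exp (-(c0 * v)) * Real.exp (-(c0 * v)) := by
      rw [← Real.exp_add, ← Real.exp_add, hc0]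
      ring_nf
    rw [hφ']
    simp only
    rw [norm_mul, hnorm, norm_mul, Complex.norm_I, one_mul]
    calc Real.exp (l.im * v) * ‖op l f (I * ((t + v : ℝ) : ℂ) + x)‖
        ≤ Real.exp (l.im * v) * (Real.exp (η * Real.log (t + v)) * ‖HH (I * ((t + v : ℝ) : ℂ) + x)‖) := by gcongr
      _ ≤ Real.exp (l.im * v) * ((Real.exp (η * Real.log t) * (1 + v)) *
          (C * (1 + v) ^ 4 * Real.exp (-(Real.pi / 4 * v)) * ‖HH (I * t + x)‖)) := by
          gcongr
      _ = ((1 + v) ^ 5 * (Real.exp (l.im * v) * Real.exp (-(Real.pi / 4 * v)))) * (C * Real.exp (η * Real.log t) *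
          ‖HH (I * t + x)‖) := by ring
      _ = ((1 + v) ^ 5 * Real.exp (-(c0 * v))) * (C * Real.exp (η * Real.log t) *
          Real.exp (-(c0 * v)) * ‖HH (I * t + x)‖) := by rw [b4]; ring
      _ ≤ C5 * (C * Real.exp (η * Real.log t) *
          Real.exp (-(c0 * v)) * ‖HH (I * t + x)‖) := by
          gcongr
          exact h5 v hv0
      _ = A * Real.exp (-(c0 * v)) := by rw [hA]; ring
  have hfen : ∀ V : ℝ, 0 ≤ V → ‖φ V - φ 0‖ ≤ A / c0 := fun V hV =>
    fence hc00 hV hA0 (fun v _ _ => hder v) (fun v hv _ => hbd v hv)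
  have hlim0 : Tendsto φ atTop (𝓝 0) := by
    rw [tendsto_zero_iff_norm_tendsto_zero]
    have c1 := (vert_lim hub (x := x) (b := l.im) (by rw [abs_le]; constructor <;> linarith) hl)
    have c2 : Tendsto (fun v : ℝ => t + v) atTop atTop := tendsto_atTop_add_const_left _ _ tendsto_id
    have c3 := (c1.comp c2).const_mul (Real.exp (-(l.im * t)))
    rw [mul_zero] at c3
    refine c3.congr fun v => ?_
    rw [hφ]; simp only [Function.comp]
    rw [norm_mul, hnorm, ← mul_assoc, ← Real.exp_add]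
    congr 2; ring
  have hlim1 : Tendsto (fun V => ‖φ V - φ 0‖) atTop (𝓝 ‖(0 : ℂ) - φ 0‖) := (hlim0.sub_const _).norm
  have hfin : ‖(0 : ℂ) - φ 0‖ ≤ A / c0 :=
    le_of_tendsto hlim1 ((eventually_ge_atTop 0).mono fun V hV => hfen V hV)
  rw [zero_sub, norm_neg] at hfin
  have e0 : ‖φ 0‖ = ‖f (I * t + x)‖ := by
    rw [hφ]; simp
  rw [e0] at hfin
  refine hfin.trans ?_
  have hpos : 0 ≤ Real.exp (η * Real.log t) * ‖HH (I * t + x)‖ := by positivity
  have e5 : A / c0 = C * C5 / c0 * (Real.exp (η * Real.log t) * ‖HH (I * t + x)‖) := by rw [hA]; ring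
  rw [e5]
  nlinarith

/-- integration downwards along a vertical segment -/
theorem vert_dn {f : ℂ → ℂ} (hd : Differentiable ℂ f) (hub : UB f) {y : ℝ} {l : ℂ} (hy0 : 0 ≤ y)
    (hl : Real.pi / 4 < l.im)
    (hrr : RR (op l f) y) {η0 η : ℝ} (hη0 : 0 < η0) (hη : 0 < η) :
    ∃ C T0 : ℝ, 1 ≤ C ∧ 2 ≤ T0 ∧ ∀ t x : ℝ, T0 ≤ t → y + η0 ≤ x → x ≤ 3 →
      ‖f (I * t + x)‖ ≤ C * Real.exp (η * Real.log t) * ‖HH (I * t + x)‖ := by
  obtain ⟨T1, hT1, h1⟩ := hrr η0 η hη0 hη
  obtain ⟨C, T2, hC, hT2, hv⟩ := vdec_dn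
  obtain ⟨K, T3, hK, hT3, hb⟩ := hub 3 (by norm_num)
  obtain ⟨KH, hKH, hHH⟩ := hh
  obtain ⟨TH, hTH, hHH⟩ := hHH 3 (by norm_num)
  set c0 : ℝ := l.im - Real.pi / 4 with hc0
  have hc00 : 0 < c0 := by rw [hc0]; linarith
  have ev : ∀ᶠ t : ℝ in atTop, K * Real.log t ≤ c0 / 2 * t := by
    have h := (isLittleO_log_rpow_atTop (show (0 : ℝ) < 1 by norm_num)).bound
      (show (0 : ℝ) < c0 / 2 / K by positivity)
    filter_upwards [h, eventually_ge_atTop 1] with t ht ht1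
    rw [Real.norm_of_nonneg (Real.log_nonneg ht1), Real.norm_of_nonneg (by positivity), Real.rpow_one] at ht
    calc K * Real.log t ≤ K * (c0 / 2 / K * t) := by gcongr
      _ = c0 / 2 * t := by field_simp
  obtain ⟨T4, hT4⟩ := eventually_atTop.1 ev
  refine ⟨C / c0 + C * Real.exp (KH * 3) + 1, max (max (2 * T1) T2) (max (2 * T3) (max TH T4)), ?_, ?_, ?_⟩
  · have h1 : 0 ≤ C / c0 := by positivity
    have h2 : 0 ≤ C * Real.exp (KH * 3) := by positivity
    linarith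
  · exact le_trans hT2 (le_trans (le_max_right _ _) (le_max_left _ _))
  intro t x ht hx1 hx2
  have ht1 : 2 * T1 ≤ t := le_trans (le_trans (le_max_left _ _) (le_max_left _ _)) ht
  have ht2 : T2 ≤ t := le_trans (le_trans (le_max_right _ _) (le_max_left _ _)) ht
  have ht3 : 2 * T3 ≤ t := le_trans (le_trans (le_max_left _ _) (le_max_right _ _)) ht
  have htH : TH ≤ t := le_trans (le_trans (le_trans (le_max_left _ _) (le_max_right _ _)) (le_max_right _ _)) ht
  have ht4 : T4 ≤ t := le_trans (le_trans (le_trans (le_max_right _ _) (le_max_right _ _)) (le_max_right _ _)) ht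
  have ht0 : 0 < t := by linarith
  have hx0 : 0 ≤ x := by linarith
  have hKl := hT4 t ht4
  set A : ℝ := C * Real.exp (η * Real.log t) * ‖HH (I * t + x)‖ with hA
  have hA0 : 0 ≤ A := by positivity
  set φ : ℝ → ℂ := fun v => cexp (I * l * v) * f (I * (t - v : ℝ) + x) with hφ
  set φ' : ℝ → ℂ := fun v => cexp (I * l * v) * (-(I * op l f (I * (t - v : ℝ) + x))) with hφ'
  have hnorm : ∀ v : ℝ, ‖cexp (I * l * v)‖ = Real.exp (-(l.im * v)) := by
    intro v
    rw [Complex.norm_exp]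
    have : (I * l * v : ℂ).re = -(l.im * v) := by simp
    rw [this]
  have hder : ∀ v : ℝ, HasDerivAt φ (φ' v) v := by
    intro v
    have a1 : HasDerivAt (fun v : ℝ => (v : ℂ)) 1 v := Complex.ofRealCLM.hasDerivAt
    have a2 : HasDerivAt (fun v : ℝ => I * l * (v : ℂ)) (I * l * 1) v := a1.const_mul (I * l)
    have a3 : HasDerivAt (fun v : ℝ => (I * ((t - v : ℝ) : ℂ) + x)) (I * (-1)) v := by
      have b : HasDerivAt (fun v : ℝ => (I * ((t : ℂ) - (v : ℂ)) + x)) (I * (-1)) v :=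
        ((a1.const_sub (t : ℂ)).const_mul I).add_const _
      refine b.congr_of_eventuallyEq (Eventually.of_forall fun w => ?_)
      simp only [Complex.ofReal_sub]
    have a4 : HasDerivAt f (deriv f (I * ((t - v : ℝ) : ℂ) + x)) (I * ((t - v : ℝ) : ℂ) + x) :=
      hd.differentiableAt.hasDerivAt
    have a5 := a2.cexp.mul (a4.comp v a3)
    refine a5.congr_deriv ?_
    rw [hφ']
    simp only [op, Function.comp]
    ring
  have hbd : ∀ v, 0 ≤ v → v ≤ t / 2 → ‖φ' v‖ ≤ A * Real.exp (-(c0 * v)) := by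
    intro v hv0 hv1
    obtain ⟨_, _, _, b1⟩ := h1 (t - v) x (by linarith) (by simpa using hx1) (by simpa using hx2) (by simp)
    have b2 := hv t v x ht2 hv0 hv1 hx0 hx2
    have b3 : Real.exp (η * Real.log (t - v)) ≤ Real.exp (η * Real.log t) := by
      refine Real.exp_le_exp.2 (mul_le_mul_of_nonneg_left (Real.log_le_log (by linarith) (by linarith)) hη.le)
    have b4 : Real.exp (-(l.im * v)) * Real.exp (Real.pi / 4 * v) = Real.exp (-(c0 * v)) := by
      rw [← Real.exp_add, hc0]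
      ring_nf
    rw [hφ']
    simp only
    rw [norm_mul, hnorm, norm_neg, norm_mul, Complex.norm_I, one_mul]
    calc Real.exp (-(l.im * v)) * ‖op l f (I * ((t - v : ℝ) : ℂ) + x)‖
        ≤ Real.exp (-(l.im * v)) * (Real.exp (η * Real.log (t - v)) * ‖HH (I * ((t - v : ℝ) : ℂ) + x)‖) := by gcongr
      _ ≤ Real.exp (-(l.im * v)) * (Real.exp (η * Real.log t) *
          (C * Real.exp (Real.pi / 4 * v) * ‖HH (I * t + x)‖)) := by
          gcongr
      _ = (Real.exp (-(l.im * v)) * Real.exp (Real.pi / 4 * v)) * (C * Real.exp (η * Real.log t) *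
          ‖HH (I * t + x)‖) := by ring
      _ = A * Real.exp (-(c0 * v)) := by rw [b4, hA]; ring
  have hfen : ‖φ (t / 2) - φ 0‖ ≤ A / c0 :=
    fence hc00 (by linarith) hA0 (fun v _ _ => hder v) hbd
  have hend : ‖φ (t / 2)‖ ≤ C * Real.exp (KH * 3) * ‖HH (I * t + x)‖ := by
    have b1 := hb (t - t / 2) x (by linarith) (by
      rw [Complex.norm_real, Real.norm_eq_abs, abs_le]; constructor <;> linarith)
    have b2 := hv t (t / 2) 0 ht2 (by linarith) le_rfl le_rfl (by norm_num)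
    rw [Complex.ofReal_zero, add_zero, add_zero] at b2
    obtain ⟨_, _, _, b3, _⟩ := hHH t (x : ℂ) htH (by
      rw [Complex.norm_real, Real.norm_eq_abs, abs_le]; constructor <;> linarith)
    rw [Complex.ofReal_re] at b3
    have b4 : ‖HH (I * t)‖ ≤ Real.exp (KH * 3) * ‖HH (I * t + x)‖ := by
      calc ‖HH (I * t)‖ = Real.exp (KH * 3 - Om t * x) * (Real.exp (Om t * x - KH * 3) * ‖HH (I * t)‖) := by
            rw [← mul_assoc, ← Real.exp_add]
            have : KH * 3 - Om t * x + (Om t * x - KH * 3) = 0 := by ring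
            rw [this, Real.exp_zero, one_mul]
        _ ≤ Real.exp (KH * 3) * ‖HH (I * t + x)‖ := by
            have : 0 ≤ Om t * x := by
              have : 0 ≤ Om t := by
                unfold Om
                have := Real.log_nonneg (show 1 ≤ t by linarith)
                positivity
              positivity
            gcongr
            linarith
    have b5 : Real.exp (K * Real.log (t - t / 2)) ≤ Real.exp (c0 * (t / 2)) := by
      refine Real.exp_le_exp.2 ?_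
      have : Real.log (t - t / 2) ≤ Real.log t := Real.log_le_log (by linarith) (by linarith)
      have hK0 : 0 ≤ K := by linarith
      nlinarith
    have b6 : Real.exp (-(l.im * (t / 2))) * Real.exp (c0 * (t / 2)) * Real.exp (Real.pi / 4 * (t / 2)) = 1 := by
      rw [← Real.exp_add, ← Real.exp_add, hc0]
      have : -(l.im * (t / 2)) + (l.im - Real.pi / 4) * (t / 2) + Real.pi / 4 * (t / 2) = 0 := by ring
      rw [this, Real.exp_zero]
    rw [hφ]; simp only
    rw [norm_mul, hnorm]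
    calc Real.exp (-(l.im * (t / 2))) * ‖f (I * ((t - t / 2 : ℝ) : ℂ) + x)‖
        ≤ Real.exp (-(l.im * (t / 2))) * (Real.exp (K * Real.log (t - t / 2)) * ‖HH (I * ((t - t / 2 : ℝ) : ℂ))‖) := by
          gcongr
      _ ≤ Real.exp (-(l.im * (t / 2))) * (Real.exp (c0 * (t / 2)) * (C * Real.exp (Real.pi / 4 * (t / 2)) *
          (Real.exp (KH * 3) * ‖HH (I * t + x)‖))) := by
          gcongr
          exact b2.trans (by gcongr)
      _ = (Real.exp (-(l.im * (t / 2))) * Real.exp (c0 * (t / 2)) * Real.exp (Real.pi / 4 * (t / 2))) *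
          (C * Real.exp (KH * 3) * ‖HH (I * t + x)‖) := by ring
      _ = _ := by rw [b6, one_mul]
  have e0 : ‖φ 0‖ = ‖f (I * t + x)‖ := by
    rw [hφ]; simp
  have hfin : ‖φ 0‖ ≤ A / c0 + C * Real.exp (KH * 3) * ‖HH (I * t + x)‖ := by
    have e : φ 0 = φ (t / 2) - (φ (t / 2) - φ 0) := by ring
    calc ‖φ 0‖ ≤ ‖φ (t / 2)‖ + ‖φ (t / 2) - φ 0‖ := by
          conv_lhs => rw [e]
          exact norm_sub_le _ _
      _ ≤ _ := by linarith
  rw [e0] at hfin
  refine hfin.trans ?_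
  have h1e : 1 ≤ Real.exp (η * Real.log t) :=
    Real.one_le_exp (mul_nonneg hη.le (Real.log_nonneg (by linarith)))
  have hpos : 0 ≤ Real.exp (η * Real.log t) * ‖HH (I * t + x)‖ := by positivity
  have e5 : A / c0 = C / c0 * (Real.exp (η * Real.log t) * ‖HH (I * t + x)‖) := by rw [hA]; ring
  have e6 : C * Real.exp (KH * 3) * ‖HH (I * t + x)‖ ≤
      C * Real.exp (KH * 3) * (Real.exp (η * Real.log t) * ‖HH (I * t + x)‖) := by
    refine mul_le_mul_of_nonneg_left ?_ (by positivity)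
    nlinarith [norm_nonneg (HH (I * t + x))]
  rw [e5]
  calc C / c0 * (Real.exp (η * Real.log t) * ‖HH (I * t + x)‖) + C * Real.exp (KH * 3) * ‖HH (I * t + x)‖
      ≤ C / c0 * (Real.exp (η * Real.log t) * ‖HH (I * t + x)‖) +
        C * Real.exp (KH * 3) * (Real.exp (η * Real.log t) * ‖HH (I * t + x)‖) := by gcongr
    _ ≤ (C / c0 + C * Real.exp (KH * 3) + 1) * (Real.exp (η * Real.log t) * ‖HH (I * t + x)‖) := by nlinarith
    _ = _ := by ring

theorem vert_bd {f : ℂ → ℂ} (hd : Differentiable ℂ f) (hub : UB f) {y : ℝ} {l : ℂ} (hy0 : 0 ≤ y)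
    (hl : l.im ≠ Real.pi / 4)
    (hrr : RR (op l f) y) {η0 η : ℝ} (hη0 : 0 < η0) (hη : 0 < η) (hη1 : η ≤ 1) :
    ∃ C T0 : ℝ, 1 ≤ C ∧ 2 ≤ T0 ∧ ∀ t x : ℝ, T0 ≤ t → y + η0 ≤ x → x ≤ 3 →
      ‖f (I * t + x)‖ ≤ C * Real.exp (η * Real.log t) * ‖HH (I * t + x)‖ := by
  rcases lt_or_gt_of_ne hl with h | h
  · exact vert_up hd hub hy0 h hrr hη0 hη hη1
  · exact vert_dn hd hub hy0 h hrr hη0 hη

lemma norm_decay {G w : ℝ → ℂ} {c δ : ℝ} (hδ : 0 ≤ δ)
    (hd : ∀ u, 0 ≤ u → u ≤ δ → HasDerivAt G (-(G u * w u)) u)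
    (hw : ∀ u, 0 ≤ u → u ≤ δ → c ≤ (w u).re) {u : ℝ} (hu0 : 0 ≤ u) (hu1 : u ≤ δ) :
    ‖G u‖ ≤ ‖G 0‖ * Real.exp (-(c * u)) := by
  set N : ℝ → ℝ := fun u => ‖G u‖ ^ 2 * Real.exp (2 * c * u) with hN
  have hder : ∀ u, 0 ≤ u → u ≤ δ → HasDerivAt N
      (-(2 * ‖G u‖ ^ 2 * (w u).re) * Real.exp (2 * c * u) + ‖G u‖ ^ 2 * (Real.exp (2 * c * u) * (2 * c))) u := by
    intro u h0 h1
    have a1 := (hd u h0 h1).norm_sq
    have a2 : HasDerivAt (fun u : ℝ => Real.exp (2 * c * u)) (Real.exp (2 * c * u) * (2 * c)) u := by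
      have := ((hasDerivAt_id u).const_mul (2 * c)).exp
      simpa using this
    have a3 := a1.mul a2
    refine a3.congr_deriv ?_
    congr 2
    rw [Complex.inner]
    have : -(G u * w u) * (starRingEnd ℂ) (G u) = -(((‖G u‖ ^ 2 : ℝ) : ℂ) * w u) := by
      rw [← Complex.normSq_eq_norm_sq, Complex.normSq_eq_conj_mul_self]
      ring
    rw [this, Complex.neg_re, Complex.re_ofReal_mul]
    ring
  have hanti : AntitoneOn N (Icc 0 δ) := by
    refine antitoneOn_of_deriv_nonpos (convex_Icc 0 δ) ?_ ?_ ?_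
    · intro x hx
      exact (hder x hx.1 hx.2).continuousAt.continuousWithinAt
    · intro x hx
      rw [interior_Icc] at hx
      exact (hder x hx.1.le hx.2.le).differentiableAt.differentiableWithinAt
    · intro x hx
      rw [interior_Icc] at hx
      rw [(hder x hx.1.le hx.2.le).deriv]
      have b1 := hw x hx.1.le hx.2.le
      have b2 : 0 ≤ ‖G x‖ ^ 2 * Real.exp (2 * c * x) := by positivity
      nlinarith
  have h1 := hanti (left_mem_Icc.2 hδ) ⟨hu0, hu1⟩ hu0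
  rw [hN] at h1
  simp only at h1
  rw [mul_zero, Real.exp_zero, mul_one] at h1
  refine le_of_sq_le_sq ?_ (by positivity)
  have e : Real.exp (2 * c * u) = (Real.exp (c * u)) ^ 2 := by
    rw [← Real.exp_nat_mul]; congr 1; push_cast; ring
  rw [e] at h1
  have hE : 0 < Real.exp (c * u) := Real.exp_pos _
  rw [Real.exp_neg, mul_pow, inv_pow, ← div_eq_mul_inv, le_div_iff₀ (by positivity)]
  exact h1

/-- zeros of `f` and of `(D - l) f`: the converse part -/
theorem ef_of_op {f : ℂ → ℂ} (hd : Differentiable ℂ f) (hub : UB f) (hfr : FR f) {y : ℝ} {l : ℂ} (hy0 : 0 ≤ y)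
    (hl : l.im ≠ Real.pi / 4) (hy1 : y < 1 / 2) (hef : EF (op l f) y) : EF f y := by
  have hrr : RR (op l f) y := rr_of_ef (op_diff hd l) (ub_op hd hub l) (fr_op hd hfr l) hy0 hy1 hef
  intro ε hε
  set δ : ℝ := min (ε / 2) 1 with hδ
  have hδ0 : 0 < δ := lt_min (by positivity) one_pos
  have hδ1 : δ ≤ ε / 2 := min_le_left _ _
  have hδ2 : δ ≤ 1 := min_le_right _ _
  obtain ⟨C, TA, hC, hTA, hA⟩ := vert_bd hd hub hy0 hl hrr (η0 := ε / 2) (η := δ / 8) (by positivity) (by positivity)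
    (by linarith)
  obtain ⟨TB, hTB, hB⟩ := hrr (ε / 2) (1 / 8) (by positivity) (by norm_num)
  obtain ⟨TC, hTC, hCC⟩ := hrr (ε / 2) (δ / 8) (by positivity) (by positivity)
  obtain ⟨K, hK, hHH⟩ := hh
  obtain ⟨TH, hTH, hHH⟩ := hHH 4 (by norm_num)
  have ev1 : ∀ᶠ t : ℝ in atTop, 8 * ‖l‖ + 8 ≤ Om t := Om_tendsto.eventually_ge_atTop _
  have ev2 : ∀ᶠ t : ℝ in atTop, Real.exp (-(3 / 4 * δ * Om t)) ≤ 1 / 6 := by
    have : Tendsto (fun t : ℝ => Real.exp (-(3 / 4 * δ * Om t))) atTop (𝓝 0) := by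
      refine Real.tendsto_exp_neg_atTop_nhds_zero.comp ?_
      exact Om_tendsto.const_mul_atTop (by positivity)
    exact this.eventually_le_const (by norm_num)
  set M : ℝ := Real.exp ‖l‖ * C * Real.exp (8 * K) with hM
  have hM0 : 0 < M := by positivity
  have ev3 : ∀ᶠ t : ℝ in atTop, M * (Om t * Real.exp (-(δ / 2 * Om t))) ≤ 1 / 6 := by
    have h1 : Tendsto (fun x : ℝ => x * Real.exp (-x)) atTop (𝓝 0) := by
      simpa using Real.tendsto_pow_mul_exp_neg_atTop_nhds_zero 1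
    have h2 : Tendsto (fun t : ℝ => δ / 2 * Om t) atTop atTop := Om_tendsto.const_mul_atTop (by positivity)
    have h3 := (h1.comp h2).const_mul (M * (2 / δ))
    rw [mul_zero] at h3
    filter_upwards [h3.eventually_le_const (show (0 : ℝ) < 1 / 6 by norm_num)] with t ht
    refine le_trans (le_of_eq ?_) ht
    simp only [Function.comp]
    field_simp
  obtain ⟨T1, hT1⟩ := eventually_atTop.1 (ev1.and (ev2.and ev3))
  refine ⟨max (max (max TA TB) (max TC TH)) T1, fun z hz1 hz2 hz3 hz0 => ?_⟩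
  set t : ℝ := z.im with ht
  set x : ℝ := z.re with hx
  have htA : TA ≤ t := le_trans (le_trans (le_trans (le_max_left _ _) (le_max_left _ _)) (le_max_left _ _)) hz3
  have htB : TB ≤ t := le_trans (le_trans (le_trans (le_max_right _ _) (le_max_left _ _)) (le_max_left _ _)) hz3
  have htC : TC ≤ t := le_trans (le_trans (le_trans (le_max_left _ _) (le_max_right _ _)) (le_max_left _ _)) hz3
  have htH : TH ≤ t := le_trans (le_trans (le_trans (le_max_right _ _) (le_max_right _ _)) (le_max_left _ _)) hz3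
  obtain ⟨hOm, hE2, hE3⟩ := hT1 t (le_trans (le_max_right _ _) hz3)
  have hOm8 : 8 ≤ Om t := by linarith [norm_nonneg l]
  have hOmdef : Om t = Real.log t / 2 := rfl
  have hze : z = I * t + x := by
    rw [ht, hx, mul_comm, add_comm]; exact (Complex.re_add_im z).symm
  have hzu : ∀ u : ℝ, z - u = I * t + ((x - u : ℝ) : ℂ) := by
    intro u; rw [hze]; push_cast; ring
  set F1 : ℂ → ℂ := op l f with hF1
  have hF1d : Differentiable ℂ F1 := op_diff hd l
  have hR : ∀ u : ℝ, 0 ≤ u → u ≤ δ → F1 (z - u) ≠ 0 ∧ ‖logDeriv F1 (z - u) - (Om t : ℂ)‖ ≤ 1 / 8 * Om t := by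
    intro u h0 h1
    obtain ⟨a, b, _, _⟩ := hB t ((x - u : ℝ) : ℂ) htB (by rw [Complex.ofReal_re]; linarith)
      (by rw [Complex.ofReal_re]; linarith) (by simp)
    rw [hzu]
    exact ⟨a, b⟩
  set G : ℝ → ℂ := fun u => cexp (l * u) * F1 (z - u) with hG
  set g : ℝ → ℂ := fun u => cexp (l * u) * f (z - u) with hg
  have hexpd : ∀ u : ℝ, HasDerivAt (fun u : ℝ => cexp (l * u)) (cexp (l * u) * (l * 1)) u := fun u =>
    ((Complex.ofRealCLM.hasDerivAt (x := u)).const_mul l).cexp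
  have hsubd : ∀ u : ℝ, HasDerivAt (fun u : ℝ => z - (u : ℂ)) (-1) u := fun u =>
    (Complex.ofRealCLM.hasDerivAt (x := u)).const_sub z
  have hgd : ∀ u : ℝ, HasDerivAt g (-(G u)) u := by
    intro u
    have a4 : HasDerivAt f (deriv f (z - u)) (z - u) := hd.differentiableAt.hasDerivAt
    refine ((hexpd u).mul (a4.comp u (hsubd u))).congr_deriv ?_
    rw [hG]; simp only [hF1, op, Function.comp]
    ring
  have hGd : ∀ u : ℝ, 0 ≤ u → u ≤ δ → HasDerivAt G (-(G u * (logDeriv F1 (z - u) - l))) u := by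
    intro u h0 h1
    have a4 : HasDerivAt F1 (deriv F1 (z - u)) (z - u) := hF1d.differentiableAt.hasDerivAt
    refine ((hexpd u).mul (a4.comp u (hsubd u))).congr_deriv ?_
    rw [hG]; simp only [logDeriv_apply, Function.comp]
    have := (hR u h0 h1).1
    field_simp
    ring
  set c : ℝ := 3 / 4 * Om t with hc
  have hlre : ‖l‖ ≤ 1 / 8 * Om t := by linarith
  have hdec : ∀ u : ℝ, 0 ≤ u → u ≤ δ → ‖G u‖ ≤ ‖G 0‖ * Real.exp (-(c * u)) := by
    intro u h0 h1
    refine norm_decay hδ0.le hGd ?_ h0 h1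
    intro v hv0 hv1
    have b1 := (hR v hv0 hv1).2
    have b2 := (abs_le.1 ((Complex.abs_re_le_norm _).trans b1)).1
    rw [Complex.sub_re, Complex.ofReal_re] at b2
    rw [Complex.sub_re, hc]
    have := (abs_le.1 (Complex.abs_re_le_norm l)).2
    linarith
  have hq : ‖((Om t : ℂ) * g δ - G δ) - ((Om t : ℂ) * g 0 - G 0)‖ ≤ (1 / 4 * Om t * ‖G 0‖) / c := by
    refine fence (φ := fun u => (Om t : ℂ) * g u - G u)
      (φ' := fun u => (Om t : ℂ) * (-(G u)) - (-(G u * (logDeriv F1 (z - u) - l)))) (by rw [hc]; linarith) hδ0.le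
      (by have := norm_nonneg (G 0); positivity) ?_ ?_
    · intro u h0 h1
      exact ((hgd u).const_mul _).sub (hGd u h0 h1)
    · intro u h0 h1
      have e : (Om t : ℂ) * (-(G u)) - (-(G u * (logDeriv F1 (z - u) - l))) =
        G u * ((logDeriv F1 (z - u) - Om t) - l) := by ring
      rw [e, norm_mul]
      have b1 := (hR u h0 h1).2
      have b2 : ‖(logDeriv F1 (z - u) - (Om t : ℂ)) - l‖ ≤ 1 / 4 * Om t := by
        refine (norm_sub_le _ _).trans ?_
        linarith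
      calc ‖G u‖ * ‖(logDeriv F1 (z - u) - (Om t : ℂ)) - l‖ ≤ (‖G 0‖ * Real.exp (-(c * u))) * (1 / 4 * Om t) :=
            mul_le_mul (hdec u h0 h1) b2 (norm_nonneg _) (by positivity)
        _ = 1 / 4 * Om t * ‖G 0‖ * Real.exp (-(c * u)) := by ring
  have hG0 : G 0 = F1 z := by rw [hG]; simp
  have hg0 : g 0 = 0 := by rw [hg]; simp [hz0]
  have hF1z : F1 z ≠ 0 := by
    have := (hR 0 le_rfl hδ0.le).1
    simpa using this
  have hF1p : 0 < ‖F1 z‖ := norm_pos_iff.2 hF1z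
  have e1 : (1 / 4 * Om t * ‖G 0‖) / c = 1 / 3 * ‖F1 z‖ := by
    rw [hG0, hc]
    have : Om t ≠ 0 := by linarith
    field_simp
  rw [e1, hg0, mul_zero, zero_sub, sub_neg_eq_add, hG0] at hq
  have hGδ : ‖G δ‖ ≤ 1 / 6 * ‖F1 z‖ := by
    refine (hdec δ hδ0.le le_rfl).trans ?_
    rw [hG0, mul_comm]
    have e2 : c * δ = 3 / 4 * δ * Om t := by rw [hc]; ring
    rw [e2]
    gcongr
  have hgδ : ‖(Om t : ℂ) * g δ‖ ≤ 1 / 6 * ‖F1 z‖ := by
    have b1 := hA t (x - δ) htA (by linarith) (by linarith)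
    obtain ⟨_, _, b2, _⟩ := hCC t (x : ℂ) htC (by rw [Complex.ofReal_re]; linarith)
      (by rw [Complex.ofReal_re]; linarith) (by simp)
    have hxn : ‖(x : ℂ)‖ ≤ 4 := by
      rw [Complex.norm_real, Real.norm_eq_abs, abs_le]; constructor <;> linarith
    have hxn2 : ‖((x - δ : ℝ) : ℂ)‖ ≤ 4 := by
      rw [Complex.norm_real, Real.norm_eq_abs, abs_le]; constructor <;> linarith
    obtain ⟨_, _, _, _, d5⟩ := hHH t ((x - δ : ℝ) : ℂ) htH hxn2
    obtain ⟨_, _, _, d4, _⟩ := hHH t (x : ℂ) htH hxn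
    rw [Complex.ofReal_re] at d4 d5
    have b3 : ‖HH (I * t + ((x - δ : ℝ) : ℂ))‖ ≤ Real.exp (-(Om t * δ) + 8 * K) * ‖HH (I * t + x)‖ := by
      calc ‖HH (I * t + ((x - δ : ℝ) : ℂ))‖ ≤ Real.exp (Om t * (x - δ) + K * 4) * ‖HH (I * t)‖ := d5
        _ = Real.exp (-(Om t * δ) + 8 * K) * (Real.exp (Om t * x - K * 4) * ‖HH (I * t)‖) := by
            rw [← mul_assoc, ← Real.exp_add]; congr 2; ring
        _ ≤ _ := by gcongr
    have b4 : ‖HH (I * t + x)‖ ≤ Real.exp (δ / 8 * Real.log t) * ‖F1 z‖ := by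
      rw [← hze] at b2 ⊢
      calc ‖HH z‖ = Real.exp (δ / 8 * Real.log t) * (Real.exp (-(δ / 8 * Real.log t)) * ‖HH z‖) := by
            rw [← mul_assoc, ← Real.exp_add, add_neg_cancel, Real.exp_zero, one_mul]
        _ ≤ _ := by gcongr
    have b5 : ‖cexp (l * (δ : ℂ))‖ ≤ Real.exp ‖l‖ := by
      rw [Complex.norm_exp]
      refine Real.exp_le_exp.2 ?_
      calc (l * (δ : ℂ)).re ≤ ‖l * (δ : ℂ)‖ := Complex.re_le_norm _
        _ = ‖l‖ * δ := by rw [norm_mul, Complex.norm_real, Real.norm_of_nonneg hδ0.le]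
        _ ≤ ‖l‖ * 1 := by gcongr
        _ = ‖l‖ := mul_one _
    have b6 : ‖g δ‖ ≤ Real.exp ‖l‖ * (C * Real.exp (δ / 8 * Real.log t) *
        (Real.exp (-(Om t * δ) + 8 * K) * (Real.exp (δ / 8 * Real.log t) * ‖F1 z‖))) := by
      rw [hg]; simp only
      rw [norm_mul, hzu]
      refine mul_le_mul b5 (b1.trans ?_) (norm_nonneg _) (Real.exp_pos _).le
      gcongr
      exact b3.trans (by gcongr)
    rw [norm_mul, Complex.norm_real, Real.norm_of_nonneg (by linarith)]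
    calc Om t * ‖g δ‖ ≤ Om t * (Real.exp ‖l‖ * (C * Real.exp (δ / 8 * Real.log t) *
        (Real.exp (-(Om t * δ) + 8 * K) * (Real.exp (δ / 8 * Real.log t) * ‖F1 z‖)))) := by gcongr
      _ = (M * (Om t * Real.exp (-(δ / 2 * Om t)))) * ‖F1 z‖ := by
          have : Real.exp (-(δ / 2 * Om t)) * Real.exp (8 * K) = Real.exp (δ / 8 * Real.log t) *
              Real.exp (-(Om t * δ) + 8 * K) * Real.exp (δ / 8 * Real.log t) := by
            rw [← Real.exp_add, ← Real.exp_add, ← Real.exp_add, hOmdef]; congr 1; ring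
          rw [hM]
          calc _ = Om t * Real.exp ‖l‖ * C * (Real.exp (δ / 8 * Real.log t) *
              Real.exp (-(Om t * δ) + 8 * K) * Real.exp (δ / 8 * Real.log t)) * ‖F1 z‖ := by ring
            _ = _ := by rw [← this]; ring
      _ ≤ 1 / 6 * ‖F1 z‖ := by gcongr
  have hfin : ‖F1 z‖ ≤ 2 / 3 * ‖F1 z‖ := by
    have e2 : F1 z = ((Om t : ℂ) * g δ - G δ + F1 z) - ((Om t : ℂ) * g δ - G δ) := by ring
    calc ‖F1 z‖ ≤ ‖(Om t : ℂ) * g δ - G δ + F1 z‖ + ‖(Om t : ℂ) * g δ - G δ‖ := by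
          conv_lhs => rw [e2]
          exact norm_sub_le _ _
      _ ≤ 1 / 3 * ‖F1 z‖ + (1 / 6 * ‖F1 z‖ + 1 / 6 * ‖F1 z‖) := by
          refine add_le_add hq ((norm_sub_le _ _).trans (add_le_add hgδ hGδ))
      _ = _ := by ring
  linarith

/-- the equivalence for one step -/
theorem ef_iff {f : ℂ → ℂ} (hd : Differentiable ℂ f) (hub : UB f) (hfr : FR f) {y : ℝ} (hy0 : 0 ≤ y)
    (hy1 : y < 1 / 2) (l : ℂ) (hl : l.im ≠ Real.pi / 4) : EF (op l f) y ↔ EF f y :=
  ⟨ef_of_op hd hub hfr hy0 hl hy1, fun h => ef_op hd hub hfr hy0 hy1 h l⟩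

end Pool.Agent.Y746.DX
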