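import Pool.Agent.Y746.DX.D
import Mathlib.NumberTheory.LSeries.Nonvanishing

/-!
# Polynomials in the derivative applied to the xi function
-/

set_option autoImplicit false

namespace Pool.Agent.Y746.DX

open Complex Filter Topology MeasureTheory Set
open Pool.Agent.H24R2.JP (XX HH Om)
open Pool.Agent.H986R2.K4

lemma ub_XX : UB XX := by
  intro R hR
  obtain ⟨K, T0, hT0, hb⟩ := Pool.Agent.H24R2.DZ.xb R
  refine ⟨max K 1, max T0 2, le_max_right _ _, le_max_right _ _, fun t u ht hu => ?_⟩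
  have ht1 : T0 ≤ t := le_trans (le_max_left _ _) ht
  have ht2 : 2 ≤ t := le_trans (le_max_right _ _) ht
  refine (hb t u ht1 hu).1.trans ?_
  have hl : 0 ≤ Real.log t := Real.log_nonneg (by linarith)
  gcongr
  exact le_max_left _ _

lemma fr_XX : FR XX := by
  intro a R ε ha hR hε
  set e' : ℝ := min (ε / 8) (a - 1 / 2) with he'
  have he0 : 0 < e' := lt_min (by positivity) (by linarith)
  have he1 : e' ≤ ε / 8 := min_le_left _ _
  have he2 : e' ≤ a - 1 / 2 := min_le_right _ _
  obtain ⟨t1, ht1, hz⟩ := a1 e' he0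
  obtain ⟨K, hK, hHH⟩ := hh
  obtain ⟨TH, hTH, hHH⟩ := hHH R hR
  have ev : ∀ᶠ t : ℝ in atTop, 2 * K / ε ≤ Om t := Om_tendsto.eventually_ge_atTop _
  obtain ⟨T2, hT2⟩ := eventually_atTop.1 ev
  refine ⟨max (max TH (t1 + R)) (max T2 (R + 2)), le_trans hTH (le_trans (le_max_left _ _) (le_max_left _ _)), ?_⟩
  intro t u ht hua hu
  have htH : TH ≤ t := le_trans (le_trans (le_max_left _ _) (le_max_left _ _)) ht
  have ht1' : t1 + R ≤ t := le_trans (le_trans (le_max_right _ _) (le_max_left _ _)) ht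
  have htR : R + 2 ≤ t := le_trans (le_trans (le_max_right _ _) (le_max_right _ _)) ht
  have hOmK := hT2 t (le_trans (le_trans (le_max_left _ _) (le_max_right _ _)) ht)
  rw [div_le_iff₀ hε] at hOmK
  have ht2 : 2 ≤ t := by linarith
  have ht0 : 0 < t := by linarith
  have hOmdef : Om t = Real.log t / 2 := rfl
  have hui := abs_le.1 ((Complex.abs_im_le_norm u).trans hu)
  set z : ℂ := I * t + u with hz'
  have hzim : z.im = t + u.im := by rw [hz']; simp
  have hzre : z.re = u.re := by rw [hz']; simp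
  have hz0 : 0 < z.im := by rw [hzim]; linarith [hui.1]
  have hsim : (1 / 2 + z).im = z.im := by simp
  have hsre : (1 / 2 + z).re = 1 / 2 + z.re := by simp
  obtain ⟨z0, z1, z2, z3⟩ := hz (1 / 2 + z) (by rw [hsre, hzre]; linarith) (by rw [hsim, hzim]; linarith [hui.1])
  obtain ⟨a1, a2, a3, _, _⟩ := hHH t u htH hu
  obtain ⟨b0, b1⟩ := RGAux.logDeriv_XX z hz0 a1 a2 z0
  have hlog : Real.log z.im ≤ 2 * Real.log t := by
    rw [show (2 : ℝ) * Real.log t = Real.log (t ^ 2) by rw [Real.log_pow]; norm_num]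
    refine Real.log_le_log hz0 ?_
    rw [hzim]
    nlinarith [hui.2]
  have hzim1 : 1 ≤ z.im := by rw [hzim]; linarith [hui.1]
  have hlog0 : 0 ≤ Real.log z.im := Real.log_nonneg hzim1
  have hlt0 : 0 ≤ Real.log t := Real.log_nonneg (by linarith)
  have hval := Pool.Agent.H24R2.JP.ZetaTask.part1 z hz0
  rw [hsim] at z1 z2 z3
  have hup : z.im ^ e' ≤ Real.exp (ε * Real.log t) := by
    rw [Real.rpow_def_of_pos hz0]
    refine Real.exp_le_exp.2 ?_
    nlinarith
  have hlo : Real.exp (-(ε * Real.log t)) ≤ z.im ^ (-e') := by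
    rw [Real.rpow_def_of_pos hz0]
    refine Real.exp_le_exp.2 ?_
    nlinarith
  refine ⟨b0, ?_, ?_, ?_⟩
  · rw [b1]
    have e1 : logDeriv HH z + logDeriv riemannZeta (1 / 2 + z) - (Om t : ℂ) =
      (logDeriv HH z - Om t) + logDeriv riemannZeta (1 / 2 + z) := by ring
    rw [e1]
    calc _ ≤ ‖logDeriv HH z - (Om t : ℂ)‖ + ‖logDeriv riemannZeta (1 / 2 + z)‖ := norm_add_le _ _
      _ ≤ K + e' * Real.log z.im := add_le_add a3 z1
      _ ≤ K + e' * (2 * Real.log t) := by gcongr
      _ ≤ ε * Om t := by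
          rw [hOmdef] at hOmK ⊢
          nlinarith
  · rw [hval, norm_mul, mul_comm]
    gcongr
    exact hlo.trans z2
  · rw [hval, norm_mul, mul_comm]
    gcongr
    exact z3.trans hup

lemma ef_of_fr {f : ℂ → ℂ} (h : FR f) {y : ℝ} (hy : 1 / 2 ≤ y) : EF f y := by
  intro ε hε
  obtain ⟨T0, hT0, h0⟩ := h (1 / 2 + ε) (|y| + |ε| + 10) 1 (by linarith) (by
    have := abs_nonneg y
    have := abs_nonneg ε
    linarith) one_pos
  refine ⟨T0, fun z h1 h2 h3 => ?_⟩
  have e : I * (z.im : ℂ) + (z.re : ℂ) = z := by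
    rw [mul_comm, add_comm]; exact Complex.re_add_im z
  have := (h0 z.im z.re h3 (by rw [Complex.ofReal_re]; linarith) (by
    rw [Complex.norm_real, Real.norm_eq_abs, abs_le]
    have := abs_nonneg y
    have := abs_nonneg ε
    constructor <;> linarith)).1
  rwa [e] at this

/-- the class of functions under consideration -/
structure Cls (f : ℂ → ℂ) : Prop where
  d : Differentiable ℂ f
  u : UB f
  r : FR f

lemma cls_XX : Cls XX := ⟨RGAux.XX_diff, ub_XX, fr_XX⟩

lemma Cls.op {f : ℂ → ℂ} (h : Cls f) (l : ℂ) : Cls (op l f) :=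
  ⟨op_diff h.d l, ub_op h.d h.u l, fr_op h.d h.r l⟩

lemma Cls.ef {f : ℂ → ℂ} (h : Cls f) {y : ℝ} (hy : 0 ≤ y) (l : ℂ) (hl : l.im ≠ Real.pi / 4) :
    EF (DX.op l f) y ↔ EF f y := by
  rcases lt_or_ge y (1 / 2) with h1 | h1
  · exact ef_iff h.d h.u h.r hy h1 l hl
  · exact ⟨fun _ => ef_of_fr h.r h1, fun _ => ef_of_fr (h.op l).r h1⟩

/-- `P(D) f` -/
noncomputable def PD (P : Polynomial ℂ) (f : ℂ → ℂ) (z : ℂ) : ℂ := P.sum fun k a => a * iteratedDeriv k f z

lemma PD_add (P Q : Polynomial ℂ) (f : ℂ → ℂ) (z : ℂ) : PD (P + Q) f z = PD P f z + PD Q f z := by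
  unfold PD
  exact Polynomial.sum_add_index P Q _ (fun i => zero_mul _) (fun a b c => by ring)

lemma PD_monomial (n : ℕ) (a : ℂ) (f : ℂ → ℂ) (z : ℂ) :
    PD (Polynomial.monomial n a) f z = a * iteratedDeriv n f z := by
  unfold PD
  exact Polynomial.sum_monomial_index a (fun k a => a * iteratedDeriv k f z) (zero_mul _)

lemma PD_C_mul (c : ℂ) (P : Polynomial ℂ) (f : ℂ → ℂ) (z : ℂ) : PD (Polynomial.C c * P) f z = c * PD P f z := by
  induction P using Polynomial.induction_on' with
  | add p q hp hq => rw [mul_add, PD_add, PD_add, hp, hq]; ring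
  | monomial n a => rw [Polynomial.C_mul_monomial, PD_monomial, PD_monomial]; ring

lemma iter_diff {f : ℂ → ℂ} (hf : Differentiable ℂ f) (n : ℕ) : Differentiable ℂ (iteratedDeriv n f) := by
  induction n with
  | zero => simpa using hf
  | succ n ih =>
    rw [iteratedDeriv_succ]
    have := op_diff ih 0
    have e : op 0 (iteratedDeriv n f) = deriv (iteratedDeriv n f) := by
      funext z; simp [op]
    rwa [e] at this

lemma PD_diff {f : ℂ → ℂ} (hf : Differentiable ℂ f) (P : Polynomial ℂ) : Differentiable ℂ (PD P f) := by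
  induction P using Polynomial.induction_on' with
  | add p q hp hq =>
    have : PD (p + q) f = fun z => PD p f z + PD q f z := funext (PD_add p q f)
    rw [this]; exact hp.add hq
  | monomial n a =>
    have : PD (Polynomial.monomial n a) f = fun z => a * iteratedDeriv n f z := funext (PD_monomial n a f)
    rw [this]; exact (iter_diff hf n).const_mul a

lemma PD_X_mul {f : ℂ → ℂ} (hf : Differentiable ℂ f) (P : Polynomial ℂ) (z : ℂ) :
    PD (Polynomial.X * P) f z = deriv (PD P f) z := by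
  induction P using Polynomial.induction_on' with
  | add p q hp hq =>
    have : PD (p + q) f = fun z => PD p f z + PD q f z := funext (PD_add p q f)
    rw [mul_add, PD_add, hp, hq, this]
    exact (deriv_add (PD_diff hf p).differentiableAt (PD_diff hf q).differentiableAt).symm
  | monomial n a =>
    have : PD (Polynomial.monomial n a) f = fun z => a * iteratedDeriv n f z := funext (PD_monomial n a f)
    rw [Polynomial.X_mul_monomial, PD_monomial, this, deriv_const_mul_field, iteratedDeriv_succ]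

lemma PD_lin_mul {f : ℂ → ℂ} (hf : Differentiable ℂ f) (l : ℂ) (P : Polynomial ℂ) :
    PD ((Polynomial.X - Polynomial.C l) * P) f = op l (PD P f) := by
  funext z
  have e : (Polynomial.X - Polynomial.C l) * P = Polynomial.X * P + Polynomial.C (-l) * P := by
    rw [Polynomial.C_neg]; ring
  rw [e, PD_add, PD_X_mul hf, PD_C_mul, op]
  ring

lemma PD_one (f : ℂ → ℂ) : PD 1 f = f := by
  funext z
  have := PD_monomial 0 1 f z
  rw [Polynomial.monomial_zero_left, Polynomial.C_1] at this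
  rw [this]; simp

lemma roots_case {f : ℂ → ℂ} (h : Cls f) {y : ℝ} (hy : 0 ≤ y) (S : Multiset ℂ)
    (hS : ∀ l ∈ S, l.im ≠ Real.pi / 4) :
    Cls (PD (S.map fun a => Polynomial.X - Polynomial.C a).prod f) ∧
      (EF (PD (S.map fun a => Polynomial.X - Polynomial.C a).prod f) y ↔ EF f y) := by
  induction S using Multiset.induction_on with
  | empty =>
    rw [Multiset.map_zero, Multiset.prod_zero, PD_one]
    exact ⟨h, Iff.rfl⟩
  | cons a S ih =>
    obtain ⟨i1, i2⟩ := ih fun l hl => hS l (Multiset.mem_cons_of_mem hl)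
    rw [Multiset.map_cons, Multiset.prod_cons, PD_lin_mul h.d]
    exact ⟨i1.op a, (i1.ef hy a (hS a (Multiset.mem_cons_self a S))).trans i2⟩

lemma EF_const {f g : ℂ → ℂ} {y : ℝ} (h : ∀ z, f z = 0 ↔ g z = 0) : EF f y ↔ EF g y := by
  unfold EF
  simp only [ne_eq, h]

theorem PD_ef {f : ℂ → ℂ} (h : Cls f) {y : ℝ} (hy : 0 ≤ y) (P : Polynomial ℂ) (hP : P ≠ 0)
    (hr : ∀ l, P.IsRoot l → l.im ≠ Real.pi / 4) : EF (PD P f) y ↔ EF f y := by
  have hs : P = Polynomial.C P.leadingCoeff * (P.roots.map fun a => Polynomial.X - Polynomial.C a).prod :=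
    (IsAlgClosed.splits P).eq_prod_roots
  have hc : P.leadingCoeff ≠ 0 := Polynomial.leadingCoeff_ne_zero.2 hP
  have h1 := (roots_case h hy P.roots fun l hl => hr l ((Polynomial.mem_roots hP).1 hl)).2
  refine Iff.trans (EF_const fun z => ?_) h1
  conv_lhs => rw [hs]
  rw [PD_C_mul, mul_eq_zero]
  exact ⟨fun h => h.resolve_left hc, Or.inr⟩

end Pool.Agent.Y746.DX
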