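import Pool.Agent.Y746.DX.E

/-!
# Final form for the derivatives of the Riemann xi function
-/

set_option autoImplicit false

namespace Pool.Agent.Y746.DX

open Complex Filter Topology MeasureTheory Set
open Pool.Agent.H24R2.JP (XX HH Om)
open Pool.Agent.H986R2.K4

/-- the Riemann xi function -/
noncomputable def xi (s : ℂ) : ℂ := s * (s - 1) / 2 * completedRiemannZeta₀ s + 1 / 2

/-- finitely many zeros in each strip `θ + ε ≤ Re s ≤ 2` -/
def FinRight (F : ℂ → ℂ) (θ : ℝ) : Prop :=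
  ∀ ε : ℝ, 0 < ε → {s : ℂ | F s = 0 ∧ θ + ε ≤ s.re ∧ s.re ≤ 2}.Finite

lemma finite_zeros {f : ℂ → ℂ} (hf : Differentiable ℂ f) {w : ℂ} (hw : f w ≠ 0) (a b T : ℝ) :
    {s : ℂ | f s = 0 ∧ a ≤ s.re ∧ s.re ≤ b ∧ |s.im| ≤ T}.Finite := by
  by_contra hinf
  have hinf : {s : ℂ | f s = 0 ∧ a ≤ s.re ∧ s.re ≤ b ∧ |s.im| ≤ T}.Infinite := hinf
  have hK : IsCompact (Metric.closedBall (0 : ℂ) (|a| + |b| + |T|)) := isCompact_closedBall _ _
  obtain ⟨z0, _, hz0⟩ := hinf.exists_accPt_of_subset_isCompact hK (by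
    rintro s ⟨_, h1, h2, h3⟩
    rw [Metric.mem_closedBall, dist_zero_right]
    have h4 : |s.re| ≤ |a| + |b| := by
      have := neg_abs_le a
      have := le_abs_self b
      have := abs_nonneg a
      have := abs_nonneg b
      rw [abs_le]; constructor <;> linarith
    have h5 := le_abs_self T
    have := Complex.norm_le_abs_re_add_abs_im s
    linarith)
  have hfr : ∃ᶠ s in 𝓝[≠] z0, f s = 0 := by
    rw [accPt_iff_frequently_nhdsNE] at hz0
    exact hz0.mono fun s hs => hs.1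
  have han : AnalyticOnNhd ℂ f univ := fun z _ => hf.analyticAt z
  have := han.eqOn_zero_of_preconnected_of_frequently_eq_zero isPreconnected_univ (mem_univ z0) hfr (mem_univ w)
  exact hw this

lemma fin_iff {f g : ℂ → ℂ} (hf : Differentiable ℂ f) {w : ℂ} (hw : f w ≠ 0) {θ : ℝ} (hθ : 1 / 2 ≤ θ)
    (hg : ∀ s : ℂ, 1 / 2 ≤ s.re → s.re ≤ 2 → g s = 0 → f (s - 1 / 2) = 0)
    (hg' : ∀ s : ℂ, s.im ≠ 0 → f (s - 1 / 2) = 0 → g s = 0)
    (h1 : EF f (θ - 1 / 2)) (h2 : EF (fun z => f ((starRingEnd ℂ) z)) (θ - 1 / 2)) : FinRight g θ := by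
  intro ε hε
  obtain ⟨T1, hT1⟩ := h1 ε hε
  obtain ⟨T2, hT2⟩ := h2 ε hε
  have hfin := finite_zeros hf hw (θ - 1 / 2 + ε) (3 / 2) (max |T1| |T2|)
  refine Set.Finite.subset (hfin.image (fun z => z + 1 / 2)) ?_
  rintro s ⟨h3, h4, h5⟩
  refine ⟨s - 1 / 2, ⟨hg s (by linarith) h5 h3, ?_, ?_, ?_⟩, by ring⟩
  · have : (s - 1 / 2).re = s.re - 1 / 2 := by simp
    rw [this]; linarith
  · have : (s - 1 / 2).re = s.re - 1 / 2 := by simp
    rw [this]; linarith
  · have him : (s - 1 / 2).im = s.im := by simp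
    have hre : (s - 1 / 2).re = s.re - 1 / 2 := by simp
    rw [him]
    by_contra hc
    push Not at hc
    have hc1 := (max_lt_iff.1 hc).1
    have hc2 := (max_lt_iff.1 hc).2
    rcases le_total 0 s.im with h6 | h6
    · rw [abs_of_nonneg h6] at hc1
      refine hT1 (s - 1 / 2) (by rw [hre]; linarith) (by rw [hre]; linarith) ?_ (hg s (by linarith) h5 h3)
      rw [him]; linarith [le_abs_self T1]
    · rw [abs_of_nonpos h6] at hc2
      refine hT2 ((starRingEnd ℂ) (s - 1 / 2)) (by rw [Complex.conj_re, hre]; linarith)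
        (by rw [Complex.conj_re, hre]; linarith) ?_ ?_
      · rw [Complex.conj_im, him]; linarith [le_abs_self T2]
      · simp only [Complex.conj_conj]
        exact hg s (by linarith) h5 h3

lemma ef_of_fin {f g : ℂ → ℂ} {θ : ℝ} (hg' : ∀ s : ℂ, s.im ≠ 0 → f (s - 1 / 2) = 0 → g s = 0)
    (h : FinRight g θ) : EF f (θ - 1 / 2) ∧ EF (fun z => f ((starRingEnd ℂ) z)) (θ - 1 / 2) := by
  constructor
  · intro ε hε
    obtain ⟨T, hT⟩ := ((h ε hε).image Complex.im).bddAbove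
    refine ⟨max T 0 + 1, fun z h1 h2 h3 h4 => ?_⟩
    have hT0 := le_max_left T 0
    have hT1 := le_max_right T 0
    have e : (z + 1 / 2) - 1 / 2 = z := by ring
    have him : (z + 1 / 2).im = z.im := by simp
    have hre : (z + 1 / 2).re = z.re + 1 / 2 := by simp
    have := hT ⟨z + 1 / 2, ⟨hg' _ (by rw [him]; linarith) (by rw [e]; exact h4), by rw [hre]; linarith,
      by rw [hre]; linarith⟩, rfl⟩
    rw [him] at this
    linarith
  · intro ε hε
    obtain ⟨T, hT⟩ := ((h ε hε).image Complex.im).bddBelow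
    refine ⟨max (-T) 0 + 1, fun z h1 h2 h3 h4 => ?_⟩
    have hT0 := le_max_left (-T) 0
    have hT1 := le_max_right (-T) 0
    set w : ℂ := (starRingEnd ℂ) z with hw
    have e : (w + 1 / 2) - 1 / 2 = w := by ring
    have him : (w + 1 / 2).im = -z.im := by rw [hw]; simp
    have hre : (w + 1 / 2).re = z.re + 1 / 2 := by rw [hw]; simp
    have := hT ⟨w + 1 / 2, ⟨hg' _ (by rw [him]; linarith) (by rw [e]; exact h4), by rw [hre]; linarith,
      by rw [hre]; linarith⟩, rfl⟩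
    rw [him] at this
    linarith

lemma XX_of_zeta {s : ℂ} (hs : 1 / 2 ≤ s.re) (h : riemannZeta s = 0) : XX (s - 1 / 2) = 0 := by
  have h1 := Pool.Agent.H24R2.JP.B1h.XX_zeta (s - 1 / 2) (by simp; linarith)
  have e : (1 / 2 + (s - 1 / 2) : ℂ) = s := by ring
  rw [e, h, mul_zero, zero_add] at h1
  have h0 : s ≠ 0 := by
    intro h0
    rw [h0, Complex.zero_re] at hs
    linarith
  have h10 : (1 - s : ℂ) ≠ 0 := by
    intro h0
    have : s = 1 := by linear_combination -h0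
    rw [this] at h
    exact riemannZeta_one_ne_zero h
  rw [h1]
  field_simp
  ring

lemma zeta_of_XX {s : ℂ} (hs : s.im ≠ 0) (h : XX (s - 1 / 2) = 0) : riemannZeta s = 0 := by
  have key : ∀ w : ℂ, 0 < w.im → XX (w - 1 / 2) = 0 → riemannZeta w = 0 := by
    intro w hw h0
    have him : 0 < (w - 1 / 2).im := by simpa using hw
    have h1 := Pool.Agent.H24R2.JP.ZetaTask.part1 (w - 1 / 2) him
    have e : (1 / 2 + (w - 1 / 2) : ℂ) = w := by ring
    rw [e, h0] at h1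
    exact (mul_eq_zero.1 h1.symm).resolve_left (Pool.Agent.H24R2.JP.StirAux.HH_ne him)
  rcases lt_or_gt_of_ne hs with h1 | h1
  · have e : (starRingEnd ℂ) s - 1 / 2 = (starRingEnd ℂ) (s - 1 / 2) := by
      rw [map_sub, map_div₀, map_one, map_ofNat]
    have h2 := key ((starRingEnd ℂ) s) (by rw [Complex.conj_im]; linarith) (by
      rw [e, Pool.Agent.H24R2.JP.B1h.XX_conj, h, map_zero])
    rw [riemannZeta_conj] at h2
    exact (map_eq_zero _).1 h2
  · exact key s h1 h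

lemma XX_ne : XX (1 / 2) ≠ 0 := by
  unfold XX
  norm_num

lemma xi_eq (s : ℂ) : xi s = (1 / 8) * XX (s - 1 / 2) := by
  unfold xi XX
  have h : (1 / 2 : ℂ) + (s - 1 / 2) = s := by ring
  rw [h]
  ring

lemma iter_xi (n : ℕ) (s : ℂ) : iteratedDeriv n xi s = (1 / 8) * iteratedDeriv n XX (s - 1 / 2) := by
  have h : xi = fun s => (1 / 8) * XX (s - 1 / 2) := funext xi_eq
  rw [h, iteratedDeriv_const_mul_field, iteratedDeriv_comp_sub_const]

lemma PD_xi (P : Polynomial ℂ) (s : ℂ) : PD P xi s = (1 / 8) * PD P XX (s - 1 / 2) := by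
  induction P using Polynomial.induction_on' with
  | add p q hp hq => rw [PD_add, PD_add, hp, hq]; ring
  | monomial n a => rw [PD_monomial, PD_monomial, iter_xi]; ring

lemma PD_conj (P : Polynomial ℂ) (z : ℂ) :
    PD (P.map (starRingEnd ℂ)) XX z = (starRingEnd ℂ) (PD P XX ((starRingEnd ℂ) z)) := by
  induction P using Polynomial.induction_on' with
  | add p q hp hq => rw [Polynomial.map_add, PD_add, PD_add, hp, hq, map_add]
  | monomial n a =>
    rw [Polynomial.map_monomial, PD_monomial, PD_monomial, map_mul,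
      Pool.Agent.H24R2.JP.B1h.iter_conj XX Pool.Agent.H24R2.JP.B1h.XX_conj n z, Complex.conj_conj]

lemma ef_conj {f : ℂ → ℂ} {y : ℝ} (hf : ∀ z, f ((starRingEnd ℂ) z) = (starRingEnd ℂ) (f z)) :
    EF (fun z => f ((starRingEnd ℂ) z)) y ↔ EF f y := by
  refine EF_const fun z => ?_
  rw [hf]
  exact map_eq_zero _

lemma zeta_iff {θ : ℝ} (hθ : 1 / 2 ≤ θ) : FinRight riemannZeta θ ↔ EF XX (θ - 1 / 2) := by
  constructor
  · intro h
    exact (ef_of_fin (f := XX) (g := riemannZeta) (fun s h1 h2 => zeta_of_XX h1 h2) h).1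
  · intro h
    exact fin_iff (f := XX) RGAux.XX_diff XX_ne hθ (fun s h1 _ h3 => XX_of_zeta h1 h3)
      (fun s h1 h2 => zeta_of_XX h1 h2) h ((ef_conj Pool.Agent.H24R2.JP.B1h.XX_conj).2 h)

theorem P_iff (P : Polynomial ℂ) (hP : P ≠ 0) (hr : ∀ l : ℂ, P.IsRoot l → |l.im| ≠ Real.pi / 4) {θ : ℝ}
    (hθ : 1 / 2 ≤ θ) : FinRight (PD P xi) θ ↔ FinRight riemannZeta θ := by
  have hy : 0 ≤ θ - 1 / 2 := by linarith
  have hr1 : ∀ l : ℂ, P.IsRoot l → l.im ≠ Real.pi / 4 := by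
    intro l hl h
    exact hr l hl (by rw [h, abs_of_pos (by positivity)])
  have hr2 : ∀ l : ℂ, (P.map (starRingEnd ℂ)).IsRoot l → l.im ≠ Real.pi / 4 := by
    intro l hl h
    have h1 : P.IsRoot ((starRingEnd ℂ) l) := by
      rw [Polynomial.IsRoot.def] at hl ⊢
      have h2 := Polynomial.eval_map_apply (starRingEnd ℂ) ((starRingEnd ℂ) l) (p := P)
      rw [Complex.conj_conj, hl] at h2
      exact (map_eq_zero _).1 h2.symm
    refine hr _ h1 ?_
    rw [Complex.conj_im, h, abs_neg, abs_of_pos (by positivity)]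
  have hP2 : P.map (starRingEnd ℂ) ≠ 0 := (Polynomial.map_ne_zero_iff (starRingEnd ℂ).injective).2 hP
  have a1 := PD_ef cls_XX hy P hP hr1
  have a2 := PD_ef cls_XX hy (P.map (starRingEnd ℂ)) hP2 hr2
  have a3 : EF (PD (P.map (starRingEnd ℂ)) XX) (θ - 1 / 2) ↔
      EF (fun z => PD P XX ((starRingEnd ℂ) z)) (θ - 1 / 2) := by
    refine EF_const fun z => ?_
    rw [PD_conj]
    exact map_eq_zero _
  have hz : ∀ s : ℂ, PD P xi s = 0 ↔ PD P XX (s - 1 / 2) = 0 := by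
    intro s
    rw [PD_xi]
    constructor
    · intro h
      rcases mul_eq_zero.1 h with h | h
      · norm_num at h
      · exact h
    · intro h; rw [h, mul_zero]
  -- not identically zero
  have hs : P = Polynomial.C P.leadingCoeff * (P.roots.map fun a => Polynomial.X - Polynomial.C a).prod :=
    (IsAlgClosed.splits P).eq_prod_roots
  have hc : P.leadingCoeff ≠ 0 := Polynomial.leadingCoeff_ne_zero.2 hP
  have hcls := (roots_case cls_XX hy P.roots fun l hl => hr1 l ((Polynomial.mem_roots hP).1 hl)).1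
  obtain ⟨T0, hT0, h0⟩ := hcls.r 1 1 1 (by norm_num) le_rfl one_pos
  have hw := (h0 T0 1 le_rfl (by simp) (by simp)).1
  have hw2 : PD P XX (I * T0 + 1) ≠ 0 := by
    rw [hs, PD_C_mul]
    exact mul_ne_zero hc hw
  rw [zeta_iff hθ]
  constructor
  · intro h
    exact a1.1 (ef_of_fin (f := PD P XX) (g := PD P xi) (fun s _ h2 => (hz s).2 h2) h).1
  · intro h
    refine fin_iff (f := PD P XX) (g := PD P xi) (PD_diff RGAux.XX_diff P) hw2 hθ (fun s _ _ h3 => (hz s).1 h3)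
      (fun s _ h2 => (hz s).2 h2) (a1.2 h) (a3.1 (a2.2 h))

lemma PD_X_pow (n : ℕ) (f : ℂ → ℂ) : PD (Polynomial.X ^ n) f = iteratedDeriv n f := by
  funext z
  rw [← Polynomial.monomial_one_right_eq_X_pow, PD_monomial, one_mul]

theorem iter_iff (n : ℕ) {θ : ℝ} (hθ : 1 / 2 ≤ θ) : FinRight (iteratedDeriv n xi) θ ↔ FinRight riemannZeta θ := by
  rw [← PD_X_pow]
  refine P_iff _ (pow_ne_zero _ Polynomial.X_ne_zero) (fun l hl => ?_) hθ
  have : l = 0 := by
    rw [Polynomial.IsRoot.def, Polynomial.eval_pow, Polynomial.eval_X] at hl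
    rcases n with _ | n
    · simp at hl
    · exact (pow_eq_zero_iff (Nat.succ_ne_zero n)).1 hl
  rw [this, Complex.zero_im, abs_zero]
  positivity

theorem q1_iff : (∃ θ : ℝ, θ < 1 ∧ ∀ s : ℂ, θ < s.re → riemannZeta s ≠ 0) ↔
    ∃ θ : ℝ, θ < 1 ∧ FinRight riemannZeta θ := by
  constructor
  · rintro ⟨θ, h1, h2⟩
    refine ⟨θ, h1, fun ε hε => ?_⟩
    have : {s : ℂ | riemannZeta s = 0 ∧ θ + ε ≤ s.re ∧ s.re ≤ 2} = ∅ := by
      rw [Set.eq_empty_iff_forall_notMem]
      rintro s ⟨a, b, _⟩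
      exact h2 s (by linarith) a
    rw [this]
    exact Set.finite_empty
  · rintro ⟨θ, h1, h2⟩
    have hfin := h2 ((1 - θ) / 2) (by linarith)
    set S : Set ℂ := {s : ℂ | riemannZeta s = 0 ∧ θ + (1 - θ) / 2 ≤ s.re ∧ s.re ≤ 2} with hS
    have hlt : ∀ s ∈ S, s.re < 1 := by
      rintro s ⟨a, _, _⟩
      by_contra hc
      push Not at hc
      exact riemannZeta_ne_zero_of_one_le_re hc a
    obtain ⟨M, hM1, hM2⟩ : ∃ M : ℝ, M < 1 ∧ ∀ s ∈ S, s.re ≤ M := by
      rcases S.eq_empty_or_nonempty with he | hne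
      · exact ⟨0, one_pos, fun s hs => by rw [he] at hs; exact absurd hs (Set.notMem_empty s)⟩
      · obtain ⟨s0, hs0, hmax⟩ := hfin.exists_maximalFor Complex.re S hne
        refine ⟨s0.re, hlt s0 hs0, fun s hs => ?_⟩
        rcases le_total s.re s0.re with h | h
        · exact h
        · exact hmax hs h
    refine ⟨max M ((1 + θ) / 2), max_lt hM1 (by linarith), fun s hs h0 => ?_⟩
    have h3 := lt_of_le_of_lt (le_max_left _ _) hs
    have h4 := lt_of_le_of_lt (le_max_right _ _) hs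
    have h5 : s.re ≤ 2 := by
      by_contra hc
      push Not at hc
      exact riemannZeta_ne_zero_of_one_le_re (by linarith) h0
    have := hM2 s ⟨h0, by linarith, h5⟩
    linarith

lemma fin_mono {F : ℂ → ℂ} {θ θ' : ℝ} (h : θ ≤ θ') (hF : FinRight F θ) : FinRight F θ' := by
  intro ε hε
  refine (hF ε hε).subset ?_
  rintro s ⟨a, b, c⟩
  exact ⟨a, by linarith, c⟩

lemma ex_iff {F : ℂ → ℂ} (h : ∀ θ : ℝ, 1 / 2 ≤ θ → (FinRight F θ ↔ FinRight riemannZeta θ)) :
    (∃ θ : ℝ, θ < 1 ∧ ∀ s : ℂ, θ < s.re → riemannZeta s ≠ 0) ↔ ∃ θ : ℝ, θ < 1 ∧ FinRight F θ := by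
  rw [q1_iff]
  constructor
  · rintro ⟨θ, h1, h2⟩
    exact ⟨max θ (1 / 2), max_lt h1 (by norm_num), (h _ (le_max_right _ _)).2 (fin_mono (le_max_left _ _) h2)⟩
  · rintro ⟨θ, h1, h2⟩
    exact ⟨max θ (1 / 2), max_lt h1 (by norm_num), (h _ (le_max_right _ _)).1 (fin_mono (le_max_left _ _) h2)⟩

theorem main (P : Polynomial ℂ) (hP : P ≠ 0) (hr : ∀ l : ℂ, P.IsRoot l → |l.im| ≠ Real.pi / 4) :
    (∀ θ : ℝ, 1 / 2 ≤ θ → (FinRight (PD P xi) θ ↔ FinRight riemannZeta θ)) ∧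
    ((∃ θ : ℝ, θ < 1 ∧ ∀ s : ℂ, θ < s.re → riemannZeta s ≠ 0) ↔
      ∃ θ : ℝ, θ < 1 ∧ FinRight (PD P xi) θ) :=
  ⟨fun _ hθ => P_iff P hP hr hθ, ex_iff fun _ hθ => P_iff P hP hr hθ⟩

end Pool.Agent.Y746.DX
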