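import Pool.Agent.Y746.DX.F
import Pool.Agent.H986R2.K4.PL
import Pool.Agent.H986R2.K4.VdC

/-!
# Growth in the critical strip: convexity and subconvexity
-/

set_option autoImplicit false

namespace Pool.Agent.Y746.DX

open Complex Filter Topology MeasureTheory Set
open Pool.Agent.H24R2.JP (XX HH Om)
open Pool.Agent.H986R2.K4

/-- convexity growth -/
def UG (f : ℂ → ℂ) : Prop := ∀ ε R : ℝ, 0 < ε → 1 ≤ R → ∃ T0 : ℝ, 2 ≤ T0 ∧
  ∀ (t : ℝ) (u : ℂ), T0 ≤ t → ‖u‖ ≤ R →
    ‖f (I * t + u)‖ ≤ Real.exp ((max (1 / 4) (|u.re| / 2) + ε) * Real.log t) * ‖HH (I * t)‖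

/-- subconvexity -/
def SC (f : ℂ → ℂ) (x1 κ : ℝ) : Prop := ∀ R : ℝ, 1 ≤ R → ∃ C T0 : ℝ, 0 < C ∧ 2 ≤ T0 ∧
  ∀ (t : ℝ) (u : ℂ), T0 ≤ t → |u.re| ≤ x1 → |u.im| ≤ R →
    ‖f (I * t + u)‖ ≤ C * Real.exp ((1 / 4 - κ) * Real.log t) * ‖HH (I * t)‖

lemma ev_log (C : ℝ) {ε : ℝ} (hε : 0 < ε) : ∃ T0 : ℝ, 2 ≤ T0 ∧ ∀ t : ℝ, T0 ≤ t → C ≤ Real.exp (ε * Real.log t) := by
  have h1 : Tendsto (fun t : ℝ => Real.exp (ε * Real.log t)) atTop atTop :=
    Real.tendsto_exp_atTop.comp (Real.tendsto_log_atTop.const_mul_atTop hε)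
  obtain ⟨T, hT⟩ := eventually_atTop.1 (h1.eventually_ge_atTop C)
  exact ⟨max T 2, le_max_right _ _, fun t ht => hT t (le_trans (le_max_left _ _) ht)⟩

lemma expm {a b L c : ℝ} (hab : a ≤ b) (hL : 0 ≤ L) (hc : 0 ≤ c) :
    Real.exp (a * L) * c ≤ Real.exp (b * L) * c :=
  mul_le_mul_of_nonneg_right (Real.exp_le_exp.2 (mul_le_mul_of_nonneg_right hab hL)) hc

lemma sc_XX {e e0 : ℝ} (he : 0 < e) (hee : e ≤ e0) (he0 : e0 ≤ 1 / 4)
    (h : ∀ e : ℝ, 0 < e → e ≤ e0 → ∃ C : ℝ, 0 < C ∧ ∀ t : ℝ, 2 ≤ t →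
      ‖riemannZeta (1 - e + t * I)‖ ≤ C * t ^ ((1 / 4 : ℝ) * e)) : SC XX (1 / 2 - e) (e / 4) := by
  intro R hR
  obtain ⟨C, hC, hz⟩ := h e he hee
  obtain ⟨C', T0, hC', hT0, hb⟩ := pl hh (1 / 2 - e) (e / 4) C 2 R (by linarith) (by linarith) (by positivity)
    (by linarith) hC (by norm_num) hR (fun t ht => by
      have h1 := hz t ht
      have e1 : (1 / 2 + ((1 / 2 - e : ℝ) : ℂ) + t * I : ℂ) = 1 - e + t * I := by push_cast; ring
      rw [e1]
      refine h1.trans (le_of_eq ?_)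
      congr 2; ring)
  refine ⟨C', T0, hC', hT0, fun t u ht hu1 hu2 => (hb t u ht hu1 hu2).trans (le_of_eq ?_)⟩
  have ht0 : 0 < t := by linarith
  have e2 : t ^ (e / 4) * Real.exp ((1 / 2 - e) * Om t) = Real.exp ((1 / 4 - e / 4) * Real.log t) := by
    rw [Real.rpow_def_of_pos ht0, ← Real.exp_add]
    unfold Om
    congr 1; ring
  rw [← e2]; ring

lemma ug_XX : UG XX := by
  intro ε R hε hR
  set e' : ℝ := min (ε / 4) (1 / 4) with he'
  have he0 : 0 < e' := lt_min (by positivity) (by norm_num)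
  have he1 : e' ≤ ε / 4 := min_le_left _ _
  have he2 : e' ≤ 1 / 4 := min_le_right _ _
  obtain ⟨t1, ht1, hz⟩ := a1 e' he0
  obtain ⟨C', T0, hC', hT0, hb⟩ := pl hh (1 / 2 + e') e' 1 t1 R (by linarith) (by linarith) he0.le
    (by linarith) one_pos (by linarith) hR (fun t ht => by
      obtain ⟨_, _, _, h3⟩ := hz (1 / 2 + ((1 / 2 + e' : ℝ) : ℂ) + t * I) (by simp; linarith) (by simpa using ht)
      rw [one_mul]
      simpa using h3)
  obtain ⟨T1, hT1, hF⟩ := fr_XX (1 / 2 + e') R (ε / 4) (by linarith) hR (by positivity)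
  obtain ⟨K, hK, hHH⟩ := hh
  obtain ⟨TH, hTH, hHH⟩ := hHH R hR
  obtain ⟨T2, hT2, h2⟩ := ev_log C' (ε := ε / 4) (by positivity)
  obtain ⟨T3, hT3, h3⟩ := ev_log (Real.exp (K * R)) (ε := ε / 4) (by positivity)
  refine ⟨max (max T0 T1) (max TH (max T2 T3)), le_trans hT0 (le_trans (le_max_left _ _) (le_max_left _ _)), ?_⟩
  intro t u ht hu
  have ht0 : T0 ≤ t := le_trans (le_trans (le_max_left _ _) (le_max_left _ _)) ht
  have ht1' : T1 ≤ t := le_trans (le_trans (le_max_right _ _) (le_max_left _ _)) ht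
  have htH : TH ≤ t := le_trans (le_trans (le_max_left _ _) (le_max_right _ _)) ht
  have ht2 : T2 ≤ t := le_trans (le_trans (le_trans (le_max_left _ _) (le_max_right _ _)) (le_max_right _ _)) ht
  have ht3 : T3 ≤ t := le_trans (le_trans (le_trans (le_max_right _ _) (le_max_right _ _)) (le_max_right _ _)) ht
  have htp : 0 < t := by linarith
  have hl : 0 ≤ Real.log t := Real.log_nonneg (by linarith)
  have big : ∀ v : ℂ, ‖v‖ ≤ R → 1 / 2 + e' ≤ v.re →
      ‖XX (I * t + v)‖ ≤ Real.exp ((max (1 / 4) (|v.re| / 2) + ε) * Real.log t) * ‖HH (I * t)‖ := by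
    intro v hv hv2
    obtain ⟨_, _, _, f3⟩ := hF t v ht1' hv2 hv
    obtain ⟨_, _, _, _, a5⟩ := hHH t v htH hv
    have hm : v.re / 2 ≤ max (1 / 4) (|v.re| / 2) := by
      rw [abs_of_nonneg (by linarith)]; exact le_max_right _ _
    calc ‖XX (I * t + v)‖ ≤ Real.exp (ε / 4 * Real.log t) * ‖HH (I * t + v)‖ := f3
      _ ≤ Real.exp (ε / 4 * Real.log t) * (Real.exp (Om t * v.re + K * R) * ‖HH (I * t)‖) := by gcongr
      _ = Real.exp (ε / 4 * Real.log t) * Real.exp (v.re / 2 * Real.log t) * Real.exp (K * R) * ‖HH (I * t)‖ := by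
          unfold Om
          rw [Real.exp_add]
          have : Real.log t / 2 * v.re = v.re / 2 * Real.log t := by ring
          rw [this]; ring
      _ ≤ Real.exp (ε / 4 * Real.log t) * Real.exp (v.re / 2 * Real.log t) * Real.exp (ε / 4 * Real.log t) *
          ‖HH (I * t)‖ :=
          mul_le_mul_of_nonneg_right (mul_le_mul_of_nonneg_left (h3 t ht3) (by positivity)) (norm_nonneg _)
      _ = Real.exp ((v.re / 2 + ε / 2) * Real.log t) * ‖HH (I * t)‖ := by
          rw [← Real.exp_add, ← Real.exp_add]; congr 2; ring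
      _ ≤ _ := expm (by linarith) hl (norm_nonneg _)
  rcases le_or_gt |u.re| (1 / 2 + e') with hc | hc
  · have h4 := hb t u ht0 hc ((Complex.abs_im_le_norm u).trans hu)
    have hm : (1 / 4 : ℝ) ≤ max (1 / 4) (|u.re| / 2) := le_max_left _ _
    calc ‖XX (I * t + u)‖ ≤ C' * t ^ e' * (Real.exp ((1 / 2 + e') * Om t) * ‖HH (I * t)‖) := h4
      _ ≤ Real.exp (ε / 4 * Real.log t) * t ^ e' * (Real.exp ((1 / 2 + e') * Om t) * ‖HH (I * t)‖) := by
          gcongr
          exact h2 t ht2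
      _ = Real.exp ((1 / 4 + ε / 4 + 3 / 2 * e') * Real.log t) * ‖HH (I * t)‖ := by
          rw [Real.rpow_def_of_pos htp, ← mul_assoc, ← Real.exp_add, ← Real.exp_add]
          unfold Om
          congr 2; ring
      _ ≤ _ := expm (by linarith) hl (norm_nonneg _)
  · rcases lt_abs.1 hc with h4 | h4
    · exact big u hu h4.le
    · have h5 := big (-(starRingEnd ℂ) u) (by rw [norm_neg, Complex.norm_conj]; exact hu)
        (by rw [Complex.neg_re, Complex.conj_re]; exact h4.le)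
      have e1 : I * (t : ℂ) + -(starRingEnd ℂ) u = -((starRingEnd ℂ) (I * t + u)) := by
        rw [map_add, map_mul, Complex.conj_I, Complex.conj_ofReal]; ring
      rw [e1, Pool.Agent.H24R2.DZ.XBAux.xsymm, Complex.norm_conj, Complex.neg_re, Complex.conj_re, abs_neg] at h5
      exact h5

lemma ug_deriv {f : ℂ → ℂ} (hf : Differentiable ℂ f) (h : UG f) : UG (deriv f) := by
  intro ε R hε hR
  set r : ℝ := min ε 1 with hr
  have hr0 : 0 < r := lt_min hε one_pos
  have hr1 : r ≤ ε := min_le_left _ _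
  have hr2 : r ≤ 1 := min_le_right _ _
  obtain ⟨T0, hT0, hb⟩ := h (ε / 4) (R + 1) (by positivity) (by linarith)
  obtain ⟨T1, hT1, h1⟩ := ev_log (1 / r) (ε := ε / 8) (by positivity)
  refine ⟨max T0 T1, le_trans hT0 (le_max_left _ _), fun t u ht hu => ?_⟩
  have ht0 : T0 ≤ t := le_trans (le_max_left _ _) ht
  have ht1 : T1 ≤ t := le_trans (le_max_right _ _) ht
  have hl : 0 ≤ Real.log t := Real.log_nonneg (by linarith)
  set m : ℝ := max (1 / 4) (|u.re| / 2) with hm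
  have key : ‖deriv f (I * t + u)‖ ≤ (Real.exp ((m + r / 2 + ε / 4) * Real.log t) * ‖HH (I * t)‖) / r := by
    refine Complex.norm_deriv_le_of_forall_mem_sphere_norm_le hr0 hf.diffContOnCl ?_
    intro z hz
    have hz1 : ‖z - (I * t + u)‖ = r := by rw [← dist_eq_norm]; exact hz
    have h2 := hb t (u + (z - (I * t + u))) ht0 (by
      refine (norm_add_le _ _).trans ?_
      rw [hz1]; linarith)
    have h3 : I * t + (u + (z - (I * t + u))) = z := by ring
    rw [h3] at h2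
    refine h2.trans (expm ?_ hl (norm_nonneg _))
    rw [Complex.add_re]
    have h4 : |u.re + (z - (I * t + u)).re| ≤ |u.re| + r := by
      refine (abs_add_le _ _).trans ?_
      have := Complex.abs_re_le_norm (z - (I * t + u))
      linarith
    have h5 : max (1 / 4) (|u.re + (z - (I * t + u)).re| / 2) ≤ m + r / 2 := by
      refine max_le ?_ ?_
      · have : (1 / 4 : ℝ) ≤ m := le_max_left _ _
        linarith
      · have : |u.re| / 2 ≤ m := le_max_right _ _
        linarith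
    linarith
  refine key.trans ?_
  calc (Real.exp ((m + r / 2 + ε / 4) * Real.log t) * ‖HH (I * t)‖) / r
      = (1 / r) * (Real.exp ((m + r / 2 + ε / 4) * Real.log t) * ‖HH (I * t)‖) := by ring
    _ ≤ Real.exp (ε / 8 * Real.log t) * (Real.exp ((m + r / 2 + ε / 4) * Real.log t) * ‖HH (I * t)‖) := by
        gcongr
        exact h1 t ht1
    _ = Real.exp ((m + r / 2 + ε / 4 + ε / 8) * Real.log t) * ‖HH (I * t)‖ := by
        rw [← mul_assoc, ← Real.exp_add]; congr 2; ring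
    _ ≤ _ := expm (by linarith) hl (norm_nonneg _)

lemma sc_deriv {f : ℂ → ℂ} (hf : Differentiable ℂ f) {x1 κ r : ℝ} (h : SC f x1 κ) (hr0 : 0 < r) :
    SC (deriv f) (x1 - r) κ := by
  intro R hR
  obtain ⟨C, T0, hC, hT0, hb⟩ := h (R + r) (by linarith)
  refine ⟨C / r, T0, by positivity, hT0, fun t u ht hu1 hu2 => ?_⟩
  have key : ‖deriv f (I * t + u)‖ ≤ (C * Real.exp ((1 / 4 - κ) * Real.log t) * ‖HH (I * t)‖) / r := by
    refine Complex.norm_deriv_le_of_forall_mem_sphere_norm_le hr0 hf.diffContOnCl ?_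
    intro z hz
    have hz1 : ‖z - (I * t + u)‖ = r := by rw [← dist_eq_norm]; exact hz
    have h3 : I * t + (u + (z - (I * t + u))) = z := by ring
    have h2 := hb t (u + (z - (I * t + u))) ht (by
      rw [Complex.add_re]
      refine (abs_add_le _ _).trans ?_
      have := Complex.abs_re_le_norm (z - (I * t + u))
      linarith) (by
      rw [Complex.add_im]
      refine (abs_add_le _ _).trans ?_
      have := Complex.abs_im_le_norm (z - (I * t + u))
      linarith)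
    rwa [h3] at h2
  refine key.trans (le_of_eq ?_)
  ring

lemma ug_const {f : ℂ → ℂ} (h : UG f) (c : ℂ) : UG (fun z => c * f z) := by
  intro ε R hε hR
  obtain ⟨T0, hT0, hb⟩ := h (ε / 2) R (by positivity) hR
  obtain ⟨T1, hT1, h1⟩ := ev_log ‖c‖ (ε := ε / 2) (by positivity)
  refine ⟨max T0 T1, le_trans hT0 (le_max_left _ _), fun t u ht hu => ?_⟩
  have ht0 : T0 ≤ t := le_trans (le_max_left _ _) ht
  have ht1 : T1 ≤ t := le_trans (le_max_right _ _) ht
  rw [norm_mul]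
  calc ‖c‖ * ‖f (I * t + u)‖ ≤ Real.exp (ε / 2 * Real.log t) *
        (Real.exp ((max (1 / 4) (|u.re| / 2) + ε / 2) * Real.log t) * ‖HH (I * t)‖) :=
        mul_le_mul (h1 t ht1) (hb t u ht0 hu) (norm_nonneg _) (Real.exp_pos _).le
    _ = _ := by rw [← mul_assoc, ← Real.exp_add]; congr 2; ring

lemma ug_add {f g : ℂ → ℂ} (h : UG f) (h' : UG g) : UG (fun z => f z + g z) := by
  intro ε R hε hR
  obtain ⟨T0, hT0, hb⟩ := h (ε / 2) R (by positivity) hR
  obtain ⟨T2, hT2, hb'⟩ := h' (ε / 2) R (by positivity) hR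
  obtain ⟨T1, hT1, h1⟩ := ev_log 2 (ε := ε / 2) (by positivity)
  refine ⟨max (max T0 T2) T1, le_trans hT1 (le_max_right _ _), fun t u ht hu => ?_⟩
  have ht0 : T0 ≤ t := le_trans (le_trans (le_max_left _ _) (le_max_left _ _)) ht
  have ht2 : T2 ≤ t := le_trans (le_trans (le_max_right _ _) (le_max_left _ _)) ht
  have ht1 : T1 ≤ t := le_trans (le_max_right _ _) ht
  have e1 := hb t u ht0 hu
  have e2 := hb' t u ht2 hu
  have e3 := h1 t ht1
  calc ‖f (I * t + u) + g (I * t + u)‖ ≤ 2 * (Real.exp ((max (1 / 4) (|u.re| / 2) + ε / 2) * Real.log t) * ‖HH (I * t)‖) := by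
        refine (norm_add_le _ _).trans ?_
        linarith
    _ ≤ Real.exp (ε / 2 * Real.log t) * (Real.exp ((max (1 / 4) (|u.re| / 2) + ε / 2) * Real.log t) * ‖HH (I * t)‖) := by
        gcongr
    _ = _ := by rw [← mul_assoc, ← Real.exp_add]; congr 2; ring

lemma sc_const {f : ℂ → ℂ} {x1 κ : ℝ} (h : SC f x1 κ) (c : ℂ) : SC (fun z => c * f z) x1 κ := by
  intro R hR
  obtain ⟨C, T0, hC, hT0, hb⟩ := h R hR
  refine ⟨(‖c‖ + 1) * C, T0, by positivity, hT0, fun t u ht hu1 hu2 => ?_⟩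
  rw [norm_mul]
  calc ‖c‖ * ‖f (I * t + u)‖ ≤ (‖c‖ + 1) * (C * Real.exp ((1 / 4 - κ) * Real.log t) * ‖HH (I * t)‖) := by
        refine mul_le_mul (by linarith) (hb t u ht hu1 hu2) (norm_nonneg _) (by positivity)
    _ = _ := by ring

lemma sc_add {f g : ℂ → ℂ} {x1 κ : ℝ} (h : SC f x1 κ) (h' : SC g x1 κ) : SC (fun z => f z + g z) x1 κ := by
  intro R hR
  obtain ⟨C, T0, hC, hT0, hb⟩ := h R hR
  obtain ⟨C', T1, hC', hT1, hb'⟩ := h' R hR
  refine ⟨C + C', max T0 T1, by positivity, le_trans hT0 (le_max_left _ _), fun t u ht hu1 hu2 => ?_⟩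
  have e1 := hb t u (le_trans (le_max_left _ _) ht) hu1 hu2
  have e2 := hb' t u (le_trans (le_max_right _ _) ht) hu1 hu2
  calc ‖f (I * t + u) + g (I * t + u)‖ ≤ C * Real.exp ((1 / 4 - κ) * Real.log t) * ‖HH (I * t)‖ +
        C' * Real.exp ((1 / 4 - κ) * Real.log t) * ‖HH (I * t)‖ := (norm_add_le _ _).trans (add_le_add e1 e2)
    _ = _ := by ring

lemma sc_mono {f : ℂ → ℂ} {x1 x2 κ : ℝ} (h : SC f x1 κ) (hx : x2 ≤ x1) : SC f x2 κ := by
  intro R hR
  obtain ⟨C, T0, hC, hT0, hb⟩ := h R hR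
  exact ⟨C, T0, hC, hT0, fun t u ht hu1 hu2 => hb t u ht (hu1.trans hx) hu2⟩

lemma ug_iter {f : ℂ → ℂ} (hf : Differentiable ℂ f) (h : UG f) (n : ℕ) : UG (iteratedDeriv n f) := by
  induction n with
  | zero => simpa using h
  | succ n ih =>
    rw [iteratedDeriv_succ]
    exact ug_deriv (iter_diff hf n) ih

lemma sc_iter {f : ℂ → ℂ} (hf : Differentiable ℂ f) {x1 κ : ℝ} (h : SC f x1 κ) (n : ℕ) :
    ∀ r : ℝ, 0 < r → SC (iteratedDeriv n f) (x1 - r) κ := by
  induction n with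
  | zero =>
    intro r hr
    rw [iteratedDeriv_zero]
    exact sc_mono h (by linarith)
  | succ n ih =>
    intro r hr
    rw [iteratedDeriv_succ]
    have h1 := sc_deriv (iter_diff hf n) (ih (r / 2) (by positivity)) (show 0 < r / 2 by positivity)
    exact sc_mono h1 (by linarith)

lemma ug_PD {f : ℂ → ℂ} (hf : Differentiable ℂ f) (h : UG f) (P : Polynomial ℂ) : UG (PD P f) := by
  induction P using Polynomial.induction_on' with
  | add p q hp hq =>
    have : PD (p + q) f = fun z => PD p f z + PD q f z := funext (PD_add p q f)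
    rw [this]; exact ug_add hp hq
  | monomial n a =>
    have : PD (Polynomial.monomial n a) f = fun z => a * iteratedDeriv n f z := funext (PD_monomial n a f)
    rw [this]; exact ug_const (ug_iter hf h n) a

lemma sc_PD {f : ℂ → ℂ} (hf : Differentiable ℂ f) {x1 κ : ℝ} (h : SC f x1 κ) (P : Polynomial ℂ) {r : ℝ}
    (hr : 0 < r) : SC (PD P f) (x1 - r) κ := by
  induction P using Polynomial.induction_on' with
  | add p q hp hq =>
    have : PD (p + q) f = fun z => PD p f z + PD q f z := funext (PD_add p q f)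
    rw [this]; exact sc_add hp hq
  | monomial n a =>
    have : PD (Polynomial.monomial n a) f = fun z => a * iteratedDeriv n f z := funext (PD_monomial n a f)
    rw [this]; exact sc_const (sc_iter hf h n r hr) a

/-- functions that are small compared with `HH` near and to the right of the line `Re z = 1/2` -/
structure Lo (h : ℂ → ℂ) : Prop where
  d : Differentiable ℂ h
  u : UB h
  r : ∀ a R : ℝ, 1 / 2 < a → 1 ≤ R → ∃ κ T0 : ℝ, 0 < κ ∧ 2 ≤ T0 ∧ ∀ (t : ℝ) (u : ℂ), T0 ≤ t → a ≤ u.re →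
    ‖u‖ ≤ R → ‖h (I * t + u)‖ ≤ Real.exp ((u.re / 2 - κ) * Real.log t) * ‖HH (I * t)‖
  s : ∃ η κ τ T0 : ℝ, 0 < η ∧ 0 < κ ∧ 0 < τ ∧ ∀ (t x : ℝ), T0 ≤ t → 1 / 2 - η ≤ x → x ≤ 1 / 2 + τ →
    ‖h (I * t + x)‖ ≤ Real.exp ((1 / 4 - κ) * Real.log t) * ‖HH (I * t)‖

lemma ub_of_ug {f : ℂ → ℂ} (h : UG f) : UB f := by
  intro R hR
  obtain ⟨T0, hT0, hb⟩ := h 1 R one_pos hR
  refine ⟨R + 2, T0, by linarith, hT0, fun t u ht hu => (hb t u ht hu).trans ?_⟩
  have hl : 0 ≤ Real.log t := Real.log_nonneg (by linarith)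
  have h1 := (Complex.abs_re_le_norm u).trans hu
  have : max (1 / 4) (|u.re| / 2) ≤ R + 1 := max_le (by linarith) (by linarith)
  exact expm (by linarith) hl (norm_nonneg _)

lemma ub_shift {f : ℂ → ℂ} (h : UB f) (d : ℂ) : UB (fun z => f (z - d)) := by
  intro R hR
  obtain ⟨K, T0, hK, hT0, hb⟩ := h (R + ‖d‖) (by linarith [norm_nonneg d])
  refine ⟨K, T0, hK, hT0, fun t u ht hu => ?_⟩
  have e : I * (t : ℂ) + u - d = I * t + (u - d) := by ring
  show ‖f (I * t + u - d)‖ ≤ _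
  rw [e]
  exact hb t (u - d) ht ((norm_sub_le _ _).trans (by linarith))

/-- a translate to the right of a function with convexity and subconvexity bounds -/
lemma lo_shift {f : ℂ → ℂ} (hf : Differentiable ℂ f) (hug : UG f) {d : ℂ} (hd0 : 0 < d.re) (hd1 : d.re < 1)
    {e κ : ℝ} (he1 : 4 * e ≤ d.re) (he2 : 4 * e ≤ 1 - d.re) (hκ : 0 < κ) (hsc : SC f (1 / 2 - 2 * e) κ) :
    Lo (fun z => f (z - d)) := by
  have hcomb : ∀ (t : ℝ) (u : ℂ), I * (t : ℂ) + u - d = I * t + (u - d) := fun t u => by ring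
  refine ⟨hf.comp (differentiable_id.sub_const d), ub_shift (ub_of_ug hug) d, ?_, ?_⟩
  · intro a R ha hR
    set κ1 : ℝ := min (d.re / 8) ((a - 1 / 2) / 8) with hκ1
    have hk0 : 0 < κ1 := lt_min (by positivity) (by linarith)
    have hk1 : κ1 ≤ d.re / 8 := min_le_left _ _
    have hk2 : κ1 ≤ (a - 1 / 2) / 8 := min_le_right _ _
    obtain ⟨T0, hT0, hb⟩ := hug κ1 (R + ‖d‖) hk0 (by linarith [norm_nonneg d])
    refine ⟨κ1, T0, hk0, hT0, fun t u ht hua hu => ?_⟩
    have hl : 0 ≤ Real.log t := Real.log_nonneg (by linarith)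
    have h1 := hb t (u - d) ht ((norm_sub_le _ _).trans (by linarith))
    show ‖f (I * t + u - d)‖ ≤ _
    rw [hcomb]
    refine h1.trans (expm ?_ hl (norm_nonneg _))
    rw [Complex.sub_re]
    have h2 : max (1 / 4) (|u.re - d.re| / 2) ≤ u.re / 2 - 2 * κ1 := by
      refine max_le (by linarith) ?_
      rw [div_le_iff₀ (by norm_num), abs_le]
      constructor <;> linarith
    linarith
  · obtain ⟨C, T0, hC, hT0, hb⟩ := hsc (1 + ‖d‖) (by linarith [norm_nonneg d])
    obtain ⟨T1, hT1, h1⟩ := ev_log C (ε := κ / 2) (by positivity)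
    refine ⟨(1 - d.re) / 2, κ / 2, d.re / 2, max T0 T1, by linarith, by positivity, by positivity,
      fun t x ht hx1 hx2 => ?_⟩
    have ht0 : T0 ≤ t := le_trans (le_max_left _ _) ht
    have ht1 : T1 ≤ t := le_trans (le_max_right _ _) ht
    have h2 := hb t ((x : ℂ) - d) ht0 (by
      rw [Complex.sub_re, Complex.ofReal_re, abs_le]
      constructor <;> linarith) (by
      rw [Complex.sub_im, Complex.ofReal_im, zero_sub, abs_neg]
      have := Complex.abs_im_le_norm d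
      linarith)
    show ‖f (I * t + x - d)‖ ≤ _
    rw [hcomb]
    calc _ ≤ C * Real.exp ((1 / 4 - κ) * Real.log t) * ‖HH (I * t)‖ := h2
      _ ≤ Real.exp (κ / 2 * Real.log t) * Real.exp ((1 / 4 - κ) * Real.log t) * ‖HH (I * t)‖ := by
          gcongr
          exact h1 t ht1
      _ = _ := by rw [← Real.exp_add]; congr 2; ring

lemma lo_PD {d : ℂ} (hd0 : 0 < d.re) (hd1 : d.re < 1) (P : Polynomial ℂ) : Lo (fun z => PD P XX (z - d)) := by
  obtain ⟨e0, he0, he04, hv⟩ := vdcQ (1 / 4) (by norm_num)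
  set e : ℝ := min e0 (min (d.re / 4) ((1 - d.re) / 4)) with he
  have hep : 0 < e := lt_min he0 (lt_min (by positivity) (by linarith))
  have h1 : e ≤ e0 := min_le_left _ _
  have h2 : e ≤ d.re / 4 := (min_le_right _ _).trans (min_le_left _ _)
  have h3 : e ≤ (1 - d.re) / 4 := (min_le_right _ _).trans (min_le_right _ _)
  have hs := sc_PD RGAux.XX_diff (sc_XX hep h1 he04 hv) P hep
  refine lo_shift (PD_diff RGAux.XX_diff P) (ug_PD RGAux.XX_diff ug_XX P) hd0 hd1 (e := e) (κ := e / 4)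
    (by linarith) (by linarith) (by positivity) (sc_mono hs (by linarith))

lemma lo_zero : Lo (fun _ => 0) := by
  refine ⟨differentiable_const _, fun R _ => ⟨1, 2, le_rfl, le_rfl, fun t u _ _ => by simp; positivity⟩,
    fun a R _ _ => ⟨1, 2, one_pos, le_rfl, fun t u _ _ _ => by simp; positivity⟩,
    ⟨1, 1, 1, 2, one_pos, one_pos, one_pos, fun t x _ _ _ => by simp; positivity⟩⟩

lemma two_exp {t κ : ℝ} (ht : 2 ≤ Real.exp (κ * Real.log t)) {a b c : ℝ} (hc : 0 ≤ c)
    {p q : ℂ} (hp : ‖p‖ ≤ Real.exp ((a - 2 * κ) * Real.log t) * c) (hq : ‖q‖ ≤ Real.exp ((b - 2 * κ) * Real.log t) * c)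
    (hab : a = b) : ‖p + q‖ ≤ Real.exp ((a - κ) * Real.log t) * c := by
  subst hab
  calc ‖p + q‖ ≤ 2 * (Real.exp ((a - 2 * κ) * Real.log t) * c) := (norm_add_le _ _).trans (by linarith)
    _ ≤ Real.exp (κ * Real.log t) * (Real.exp ((a - 2 * κ) * Real.log t) * c) := by gcongr
    _ = _ := by rw [← mul_assoc, ← Real.exp_add]; congr 2; ring

lemma ub_add {f g : ℂ → ℂ} (h : UB f) (h' : UB g) : UB (fun z => f z + g z) := by
  intro R hR
  obtain ⟨K, T0, hK, hT0, hb⟩ := h R hR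
  obtain ⟨K', T1, hK', hT1, hb'⟩ := h' R hR
  refine ⟨max K K' + 1, max T0 T1, by linarith [le_max_left K K'], le_trans hT0 (le_max_left _ _), fun t u ht hu => ?_⟩
  have ht0 : T0 ≤ t := le_trans (le_max_left _ _) ht
  have ht1 : T1 ≤ t := le_trans (le_max_right _ _) ht
  have htp : 0 < t := by linarith
  have hl : 0 ≤ Real.log t := Real.log_nonneg (by linarith)
  have e1 : ‖f (I * t + u)‖ ≤ Real.exp (max K K' * Real.log t) * ‖HH (I * t)‖ := by
    refine (hb t u ht0 hu).trans ?_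
    gcongr
    exact le_max_left _ _
  have e2 : ‖g (I * t + u)‖ ≤ Real.exp (max K K' * Real.log t) * ‖HH (I * t)‖ := by
    refine (hb' t u ht1 hu).trans ?_
    gcongr
    exact le_max_right _ _
  calc ‖f (I * t + u) + g (I * t + u)‖ ≤ 2 * (Real.exp (max K K' * Real.log t) * ‖HH (I * t)‖) :=
        (norm_add_le _ _).trans (by linarith)
    _ ≤ t * (Real.exp (max K K' * Real.log t) * ‖HH (I * t)‖) := by
        gcongr
        linarith
    _ = Real.exp (Real.log t) * (Real.exp (max K K' * Real.log t) * ‖HH (I * t)‖) := by rw [Real.exp_log htp]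
    _ = _ := by rw [← mul_assoc, ← Real.exp_add]; congr 2; ring

lemma lo_add {f g : ℂ → ℂ} (hf : Lo f) (hg : Lo g) : Lo (fun z => f z + g z) := by
  refine ⟨hf.d.add hg.d, ub_add hf.u hg.u, ?_, ?_⟩
  · intro a R ha hR
    obtain ⟨κ1, T1, hκ1, hT1, h1⟩ := hf.r a R ha hR
    obtain ⟨κ2, T2, hκ2, hT2, h2⟩ := hg.r a R ha hR
    set κ : ℝ := min κ1 κ2 / 2 with hκ
    have hm : 0 < min κ1 κ2 := lt_min hκ1 hκ2
    have hk1 : 2 * κ ≤ κ1 := by rw [hκ]; linarith [min_le_left κ1 κ2]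
    have hk2 : 2 * κ ≤ κ2 := by rw [hκ]; linarith [min_le_right κ1 κ2]
    obtain ⟨T3, hT3, h3⟩ := ev_log 2 (ε := κ) (by positivity)
    refine ⟨κ, max (max T1 T2) T3, by positivity, le_trans hT3 (le_max_right _ _), fun t u ht hua hu => ?_⟩
    have ht1 : T1 ≤ t := le_trans (le_trans (le_max_left _ _) (le_max_left _ _)) ht
    have ht2 : T2 ≤ t := le_trans (le_trans (le_max_right _ _) (le_max_left _ _)) ht
    have ht3 : T3 ≤ t := le_trans (le_max_right _ _) ht
    have hl : 0 ≤ Real.log t := Real.log_nonneg (by linarith)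
    refine two_exp (h3 t ht3) (norm_nonneg _) ?_ ?_ rfl
    · refine (h1 t u ht1 hua hu).trans ?_
      gcongr
    · refine (h2 t u ht2 hua hu).trans ?_
      gcongr
  · obtain ⟨η1, κ1, τ1, T1, hη1, hκ1, hτ1, h1⟩ := hf.s
    obtain ⟨η2, κ2, τ2, T2, hη2, hκ2, hτ2, h2⟩ := hg.s
    set κ : ℝ := min κ1 κ2 / 2 with hκ
    have hm : 0 < min κ1 κ2 := lt_min hκ1 hκ2
    have hk1 : 2 * κ ≤ κ1 := by rw [hκ]; linarith [min_le_left κ1 κ2]
    have hk2 : 2 * κ ≤ κ2 := by rw [hκ]; linarith [min_le_right κ1 κ2]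
    obtain ⟨T3, hT3, h3⟩ := ev_log 2 (ε := κ) (by positivity)
    refine ⟨min η1 η2, κ, min τ1 τ2, max (max T1 T2) T3, lt_min hη1 hη2, by positivity, lt_min hτ1 hτ2,
      fun t x ht hx1 hx2 => ?_⟩
    have ht1 : T1 ≤ t := le_trans (le_trans (le_max_left _ _) (le_max_left _ _)) ht
    have ht2 : T2 ≤ t := le_trans (le_trans (le_max_right _ _) (le_max_left _ _)) ht
    have ht3 : T3 ≤ t := le_trans (le_max_right _ _) ht
    have hl : 0 ≤ Real.log t := Real.log_nonneg (by linarith)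
    refine two_exp (h3 t ht3) (norm_nonneg _) ?_ ?_ rfl
    · refine (h1 t x ht1 (by linarith [min_le_left η1 η2]) (by linarith [min_le_left τ1 τ2])).trans ?_
      gcongr
    · refine (h2 t x ht2 (by linarith [min_le_right η1 η2]) (by linarith [min_le_right τ1 τ2])).trans ?_
      gcongr

lemma lo_sum {ι : Type} (S : Finset ι) (f : ι → ℂ → ℂ) (h : ∀ i ∈ S, Lo (f i)) :
    Lo (fun z => ∑ i ∈ S, f i z) := by
  classical
  induction S using Finset.induction_on with
  | empty => simpa using lo_zero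
  | insert a S ha ih =>
    have := lo_add (h a (Finset.mem_insert_self a S)) (ih fun i hi => h i (Finset.mem_insert_of_mem hi))
    simpa [Finset.sum_insert ha] using this

end Pool.Agent.Y746.DX
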