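import Pool.Agent.Y746.DX.N1

/-!
# Adding a small function does not change the zeros near the edge
-/

set_option autoImplicit false

namespace Pool.Agent.Y746.DX

open Complex Filter Topology MeasureTheory Set
open Pool.Agent.H24R2.JP (XX HH Om)
open Pool.Agent.H986R2.K4

theorem fr_add_lo {f h : ℂ → ℂ} (hf : Cls f) (hl : Lo h) : FR (fun z => f z + h z) := by
  intro a R ε ha hR hε
  set r : ℝ := min ((a - 1 / 2) / 2) 1 with hr
  have hr0 : 0 < r := lt_min (by linarith) one_pos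
  have hr1 : r ≤ 1 := min_le_right _ _
  have hr2 : r ≤ (a - 1 / 2) / 2 := min_le_left _ _
  obtain ⟨κ, T1, hκ, hT1, h1⟩ := hl.r (a - r) (R + 1) (by linarith) (by linarith)
  set e' : ℝ := min (ε / 4) (κ / 4) with he'
  have he0 : 0 < e' := lt_min (by positivity) (by positivity)
  have he1 : e' ≤ ε / 4 := min_le_left _ _
  have he2 : e' ≤ κ / 4 := min_le_right _ _
  obtain ⟨T2, hT2, h2⟩ := hf.r (a - r) (R + 1) e' (by linarith) (by linarith) he0
  obtain ⟨K, hK, hHH⟩ := hh
  obtain ⟨TH, hTH, hHH⟩ := hHH (R + 1) (by linarith)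
  obtain ⟨T3, hT3, h3⟩ := ev_log (2 * Real.exp (K * (R + 1)) * (1 / r + 1)) (ε := κ / 4) (by positivity)
  obtain ⟨T4, hT4, h4⟩ := ev_log 2 (ε := ε / 2) (by positivity)
  have ev : ∀ᶠ t : ℝ in atTop, 4 / ε ≤ Om t := Om_tendsto.eventually_ge_atTop _
  obtain ⟨T5, hT5⟩ := eventually_atTop.1 ev
  refine ⟨max (max T1 T2) (max TH (max T3 (max T4 T5))), le_trans hT1 (le_trans (le_max_left _ _) (le_max_left _ _)), ?_⟩
  intro t u ht hua hu
  have ht1 : T1 ≤ t := le_trans (le_trans (le_max_left _ _) (le_max_left _ _)) ht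
  have ht2 : T2 ≤ t := le_trans (le_trans (le_max_right _ _) (le_max_left _ _)) ht
  have htH : TH ≤ t := le_trans (le_trans (le_max_left _ _) (le_max_right _ _)) ht
  have ht3 : T3 ≤ t := le_trans (le_trans (le_trans (le_max_left _ _) (le_max_right _ _)) (le_max_right _ _)) ht
  have ht4 : T4 ≤ t := le_trans (le_trans (le_trans (le_trans (le_max_left _ _) (le_max_right _ _)) (le_max_right _ _))
    (le_max_right _ _)) ht
  have ht5 : T5 ≤ t := le_trans (le_trans (le_trans (le_trans (le_max_right _ _) (le_max_right _ _)) (le_max_right _ _))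
    (le_max_right _ _)) ht
  have htp : 0 < t := by linarith
  have hlog : 0 ≤ Real.log t := Real.log_nonneg (by linarith)
  have hOmε := hT5 t ht5
  rw [div_le_iff₀ hε] at hOmε
  have hOm0 : 0 ≤ Om t := by unfold Om; linarith
  -- the quotient
  have hq : ∀ z : ℂ, ‖z - (I * t + u)‖ ≤ r → f z ≠ 0 ∧ ‖h z / f z‖ ≤ (1 / 2) * (r / (1 + r)) * Real.exp (-(κ / 4 * Real.log t)) := by
    intro z hz
    have e2 : z = I * t + (u + (z - (I * t + u))) := by ring
    set v : ℂ := u + (z - (I * t + u)) with hv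
    have hvre : a - r ≤ v.re := by
      have := Complex.abs_re_le_norm (z - (I * t + u))
      rw [hv, Complex.add_re]
      have h4 := (abs_le.1 (this.trans hz)).1
      linarith
    have hvn : ‖v‖ ≤ R + 1 := (norm_add_le _ _).trans (by linarith)
    obtain ⟨f0, _, f2, _⟩ := h2 t v ht2 hvre hvn
    have g1 := h1 t v ht1 hvre hvn
    obtain ⟨_, b2, _, b4, _⟩ := hHH t v htH hvn
    rw [e2]
    refine ⟨f0, ?_⟩
    rw [norm_div, div_le_iff₀ (norm_pos_iff.2 f0)]
    have c1 : Real.exp (v.re / 2 * Real.log t) * ‖HH (I * t)‖ ≤ Real.exp (K * (R + 1)) * ‖HH (I * t + v)‖ := by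
      calc Real.exp (v.re / 2 * Real.log t) * ‖HH (I * t)‖
          = Real.exp (K * (R + 1)) * (Real.exp (Om t * v.re - K * (R + 1)) * ‖HH (I * t)‖) := by
            rw [← mul_assoc, ← Real.exp_add]; unfold Om; congr 2; ring
        _ ≤ _ := by gcongr
    have c2 : ‖HH (I * t + v)‖ ≤ Real.exp (e' * Real.log t) * ‖f (I * t + v)‖ := by
      calc ‖HH (I * t + v)‖ = Real.exp (e' * Real.log t) * (Real.exp (-(e' * Real.log t)) * ‖HH (I * t + v)‖) := by
            rw [← mul_assoc, ← Real.exp_add, add_neg_cancel, Real.exp_zero, one_mul]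
        _ ≤ _ := by gcongr
    have c3 : 2 * Real.exp (K * (R + 1)) * (1 / r + 1) ≤ Real.exp (κ / 4 * Real.log t) := h3 t ht3
    have c4 : Real.exp (K * (R + 1)) ≤ (1 / 2) * (r / (1 + r)) * Real.exp (κ / 4 * Real.log t) := by
      have : Real.exp (K * (R + 1)) = (1 / 2) * (r / (1 + r)) * (2 * Real.exp (K * (R + 1)) * (1 / r + 1)) := by
        field_simp
      rw [this]
      refine mul_le_mul_of_nonneg_left c3 (by positivity)
    calc ‖h (I * t + v)‖ ≤ Real.exp ((v.re / 2 - κ) * Real.log t) * ‖HH (I * t)‖ := g1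
      _ = Real.exp (-(κ * Real.log t)) * (Real.exp (v.re / 2 * Real.log t) * ‖HH (I * t)‖) := by
          rw [← mul_assoc, ← Real.exp_add]; congr 2; ring
      _ ≤ Real.exp (-(κ * Real.log t)) * (Real.exp (K * (R + 1)) * (Real.exp (e' * Real.log t) * ‖f (I * t + v)‖)) := by
          refine mul_le_mul_of_nonneg_left (c1.trans ?_) (Real.exp_pos _).le
          gcongr
      _ ≤ Real.exp (-(κ * Real.log t)) * (((1 / 2) * (r / (1 + r)) * Real.exp (κ / 4 * Real.log t)) *
          (Real.exp (κ / 4 * Real.log t) * ‖f (I * t + v)‖)) := by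
          refine mul_le_mul_of_nonneg_left ?_ (Real.exp_pos _).le
          refine mul_le_mul c4 ?_ (by positivity) (by positivity)
          gcongr
      _ = (1 / 2) * (r / (1 + r)) * Real.exp (-(κ * Real.log t) + κ / 4 * Real.log t + κ / 4 * Real.log t) *
          ‖f (I * t + v)‖ := by rw [Real.exp_add, Real.exp_add]; ring
      _ ≤ (1 / 2) * (r / (1 + r)) * Real.exp (-(κ / 4 * Real.log t)) * ‖f (I * t + v)‖ := by
          refine mul_le_mul_of_nonneg_right (mul_le_mul_of_nonneg_left (Real.exp_le_exp.2 ?_) (by positivity)) (norm_nonneg _)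
          nlinarith
  have hexp1 : Real.exp (-(κ / 4 * Real.log t)) ≤ 1 := by
    rw [Real.exp_le_one_iff]
    have : 0 ≤ κ / 4 * Real.log t := by positivity
    linarith
  have hr3 : r / (1 + r) ≤ 1 := by rw [div_le_one (by linarith)]; linarith
  have hr4 : r / (1 + r) ≤ r := by rw [div_le_iff₀ (by linarith)]; nlinarith
  set z0 : ℂ := I * t + u with hz0
  obtain ⟨q0, q1⟩ := hq z0 (by rw [sub_self, norm_zero]; exact hr0.le)
  have hqle : ‖h z0 / f z0‖ ≤ 1 / 2 := by
    refine q1.trans ?_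
    have h1r : 0 < r / (1 + r) := by positivity
    have hE := Real.exp_pos (-(κ / 4 * Real.log t))
    nlinarith [mul_le_mul hr3 hexp1 hE.le (by norm_num)]
  obtain ⟨f0, f1, f2, f3⟩ := h2 t u ht2 (by linarith) (by linarith)
  have hfd : ∀ z, DifferentiableAt ℂ f z := fun z => hf.d.differentiableAt
  have hhd : ∀ z, DifferentiableAt ℂ h z := fun z => hl.d.differentiableAt
  have hprod : ∀ z, f z ≠ 0 → f z + h z = f z * (1 + h z / f z) := fun z hz => by field_simp
  have hdq : DifferentiableAt ℂ (fun z => h z / f z) z0 := (hhd z0).div (hfd z0) q0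
  have hcau : ‖deriv (fun z => h z / f z) z0‖ ≤ 1 / 2 := by
    have h5 : ‖deriv (fun z => h z / f z) z0‖ ≤ ((1 / 2) * r) / r := by
      refine Complex.norm_deriv_le_of_forall_mem_sphere_norm_le hr0 ?_ ?_
      · constructor
        · intro z hz
          rw [Metric.mem_ball, dist_eq_norm] at hz
          exact ((hhd z).div (hfd z) (hq z hz.le).1).differentiableWithinAt
        · rw [closure_ball _ hr0.ne']
          intro z hz
          rw [Metric.mem_closedBall, dist_eq_norm] at hz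
          exact ((hhd z).div (hfd z) (hq z hz).1).continuousAt.continuousWithinAt
      · intro z hz
        rw [mem_sphere_iff_norm] at hz
        refine (hq z hz.le).2.trans ?_
        have hE := Real.exp_pos (-(κ / 4 * Real.log t))
        calc (1 / 2) * (r / (1 + r)) * Real.exp (-(κ / 4 * Real.log t)) ≤ (1 / 2) * r * 1 := by gcongr
          _ = (1 / 2) * r := by ring
    rwa [mul_div_assoc, div_self hr0.ne', mul_one] at h5
  have h1q : (1 : ℝ) / 2 ≤ ‖1 + h z0 / f z0‖ := by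
    have := norm_sub_norm_le (1 : ℂ) (-(h z0 / f z0))
    rw [sub_neg_eq_add, norm_neg, norm_one] at this
    linarith
  have h1q' : ‖1 + h z0 / f z0‖ ≤ 2 := by
    have := norm_add_le (1 : ℂ) (h z0 / f z0)
    rw [norm_one] at this
    linarith
  have hne1 : 1 + h z0 / f z0 ≠ 0 := by
    intro h0
    rw [h0, norm_zero] at h1q
    linarith
  have hsum0 : f z0 + h z0 ≠ 0 := by
    rw [hprod z0 q0]
    exact mul_ne_zero q0 hne1
  refine ⟨hsum0, ?_, ?_, ?_⟩
  · have hev : (fun z => f z + h z) =ᶠ[𝓝 z0] fun z => f z * (1 + h z / f z) := by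
      filter_upwards [hf.d.continuous.continuousAt.eventually_ne q0] with z hz
      exact hprod z hz
    have e1 : logDeriv (fun z => f z + h z) z0 = logDeriv f z0 + deriv (fun z => h z / f z) z0 / (1 + h z0 / f z0) := by
      have e3 : logDeriv (fun z => f z + h z) z0 = logDeriv (fun z => f z * (1 + h z / f z)) z0 := by
        rw [logDeriv_apply, logDeriv_apply, hev.deriv_eq, hev.eq_of_nhds]
      rw [e3, logDeriv_mul z0 q0 hne1 (hfd z0) (hdq.const_add 1)]
      congr 1
      rw [logDeriv_apply, deriv_const_add]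
    rw [e1]
    have e4 : logDeriv f z0 + deriv (fun z => h z / f z) z0 / (1 + h z0 / f z0) - (Om t : ℂ) =
      (logDeriv f z0 - Om t) + deriv (fun z => h z / f z) z0 / (1 + h z0 / f z0) := by ring
    rw [e4]
    have h6 : ‖deriv (fun z => h z / f z) z0 / (1 + h z0 / f z0)‖ ≤ 1 := by
      rw [norm_div, div_le_one (by linarith)]
      linarith
    calc _ ≤ ‖logDeriv f z0 - (Om t : ℂ)‖ + ‖deriv (fun z => h z / f z) z0 / (1 + h z0 / f z0)‖ := norm_add_le _ _
      _ ≤ e' * Om t + 1 := add_le_add f1 h6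
      _ ≤ ε * Om t := by nlinarith
  · show _ ≤ ‖f z0 + h z0‖
    rw [hprod z0 q0, norm_mul]
    have c5 : 2 * Real.exp (-(ε * Real.log t)) ≤ Real.exp (-(e' * Real.log t)) := by
      calc 2 * Real.exp (-(ε * Real.log t)) ≤ Real.exp (ε / 2 * Real.log t) * Real.exp (-(ε * Real.log t)) := by
            gcongr
            exact h4 t ht4
        _ = Real.exp (-(ε / 2 * Real.log t)) := by rw [← Real.exp_add]; congr 1; ring
        _ ≤ _ := Real.exp_le_exp.2 (by nlinarith)
    calc Real.exp (-(ε * Real.log t)) * ‖HH z0‖ = (2 * Real.exp (-(ε * Real.log t))) * ‖HH z0‖ * (1 / 2) := by ring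
      _ ≤ Real.exp (-(e' * Real.log t)) * ‖HH z0‖ * (1 / 2) := by gcongr
      _ ≤ ‖f z0‖ * ‖1 + h z0 / f z0‖ := by gcongr
  · show ‖f z0 + h z0‖ ≤ _
    rw [hprod z0 q0, norm_mul]
    have hε2 : 0 ≤ ε / 2 * Real.log t := by positivity
    calc ‖f z0‖ * ‖1 + h z0 / f z0‖ ≤ (Real.exp (e' * Real.log t) * ‖HH z0‖) * Real.exp (ε / 2 * Real.log t) := by
          refine mul_le_mul f3 (h1q'.trans (h4 t ht4)) (norm_nonneg _) (by positivity)
      _ = Real.exp ((e' + ε / 2) * Real.log t) * ‖HH z0‖ := by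
          rw [add_mul, Real.exp_add]; ring
      _ ≤ Real.exp (ε * Real.log t) * ‖HH z0‖ := expm (by linarith) hlog (norm_nonneg _)

theorem cls_add_lo {f h : ℂ → ℂ} (hf : Cls f) (hl : Lo h) : Cls (fun z => f z + h z) :=
  ⟨hf.d.add hl.d, ub_add hf.u hl.u, fr_add_lo hf hl⟩

/-- one direction of the comparison -/
lemma ef_trans {F G h : ℂ → ℂ} (hF : Cls F) (hG : FR G) {η κ τ T : ℝ} (hκ : 0 < κ) (hτ : 0 < τ)
    (hs : ∀ (t x : ℝ), T ≤ t → 1 / 2 - η ≤ x → x ≤ 1 / 2 + τ →
      ‖h (I * t + x)‖ ≤ Real.exp ((1 / 4 - κ) * Real.log t) * ‖HH (I * t)‖)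
    (hd : ∀ z, G z = 0 → ‖F z‖ = ‖h z‖) {y : ℝ} (hy0 : 0 ≤ y) (hy1 : y < 1 / 2) (hyη : 1 / 2 - η ≤ y)
    (hyκ : 1 / 2 - κ ≤ y) (hE : EF F y) : EF G y := by
  have hrr := rr_of_ef hF.d hF.u hF.r hy0 hy1 hE
  intro ε hε
  obtain ⟨T1, hT1, h1⟩ := hrr ε (κ / 8) hε (by positivity)
  obtain ⟨T2, hT2, h2⟩ := hG (1 / 2 + τ) 2 1 (by linarith) (by norm_num) one_pos
  obtain ⟨K, hK, hHH⟩ := hh
  obtain ⟨TH, hTH, hHH⟩ := hHH 2 (by norm_num)
  have ev : ∀ᶠ t : ℝ in atTop, 8 * K / κ < Real.log t := Real.tendsto_log_atTop.eventually_gt_atTop _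
  obtain ⟨T3, hT3⟩ := eventually_atTop.1 ev
  refine ⟨max (max T1 T2) (max (max TH T3) T), fun z hz1 hz2 hz3 hz0 => ?_⟩
  set t : ℝ := z.im with ht
  set x : ℝ := z.re with hx
  have ht1 : T1 ≤ t := le_trans (le_trans (le_max_left _ _) (le_max_left _ _)) hz3
  have ht2 : T2 ≤ t := le_trans (le_trans (le_max_right _ _) (le_max_left _ _)) hz3
  have htH : TH ≤ t := le_trans (le_trans (le_trans (le_max_left _ _) (le_max_left _ _)) (le_max_right _ _)) hz3
  have ht3 : T3 ≤ t := le_trans (le_trans (le_trans (le_max_right _ _) (le_max_left _ _)) (le_max_right _ _)) hz3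
  have htT : T ≤ t := le_trans (le_trans (le_max_right _ _) (le_max_right _ _)) hz3
  have hlogK := hT3 t ht3
  rw [div_lt_iff₀ hκ] at hlogK
  have hlog : 0 ≤ Real.log t := Real.log_nonneg (by linarith)
  have hze : z = I * t + x := by
    rw [ht, hx, mul_comm, add_comm]; exact (Complex.re_add_im z).symm
  have hxn : ‖(x : ℂ)‖ ≤ 2 := by
    rw [Complex.norm_real, Real.norm_eq_abs, abs_le]; constructor <;> linarith
  rcases le_or_gt x (1 / 2 + τ) with hc | hc
  · have a1 := hs t x htT (by linarith) hc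
    obtain ⟨_, _, a2, _⟩ := h1 t x ht1 (by rw [Complex.ofReal_re]; linarith) (by rw [Complex.ofReal_re]; linarith)
      (by simp)
    obtain ⟨_, _, _, a4, _⟩ := hHH t x htH hxn
    obtain ⟨_, b2, _, _, _⟩ := hHH t 0 htH (by simp)
    rw [Complex.ofReal_re] at a4
    rw [add_zero] at b2
    rw [← hze] at a1 a2 a4
    rw [hd z hz0] at a2
    have hpos : 0 < ‖HH (I * t)‖ := norm_pos_iff.2 b2
    have a5 : Real.exp (-(κ / 8 * Real.log t)) * (Real.exp (Om t * x - K * 2) * ‖HH (I * t)‖) ≤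
        Real.exp ((1 / 4 - κ) * Real.log t) * ‖HH (I * t)‖ :=
      le_trans (mul_le_mul_of_nonneg_left a4 (Real.exp_pos _).le) (a2.trans a1)
    rw [← mul_assoc, ← Real.exp_add] at a5
    have a6 := le_of_mul_le_mul_right a5 hpos
    rw [Real.exp_le_exp] at a6
    unfold Om at a6
    have hxκ : 1 / 2 - κ ≤ x := by linarith
    nlinarith
  · have := (h2 t x ht2 (by rw [Complex.ofReal_re]; linarith) hxn).1
    rw [← hze] at this
    exact this hz0

theorem ef_add_lo {f h : ℂ → ℂ} (hf : Cls f) (hl : Lo h) : ∃ y0 : ℝ, 0 ≤ y0 ∧ y0 < 1 / 2 ∧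
    ∀ y : ℝ, y0 ≤ y → (EF (fun z => f z + h z) y ↔ EF f y) := by
  obtain ⟨η, κ, τ, T, hη, hκ, hτ, hs⟩ := hl.s
  refine ⟨max 0 (1 / 2 - min η κ), le_max_left _ _, max_lt (by norm_num) (by
    have := lt_min hη hκ
    linarith), fun y hy => ?_⟩
  have hy0 : 0 ≤ y := le_trans (le_max_left _ _) hy
  have hy2 : 1 / 2 - min η κ ≤ y := le_trans (le_max_right _ _) hy
  have hy3 : 1 / 2 - η ≤ y := by linarith [min_le_left η κ]
  have hy4 : 1 / 2 - κ ≤ y := by linarith [min_le_right η κ]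
  have hc := cls_add_lo hf hl
  rcases lt_or_ge y (1 / 2) with h1 | h1
  · constructor
    · intro hE
      refine ef_trans hc hf.r hκ hτ hs (fun z hz => ?_) hy0 h1 hy3 hy4 hE
      rw [hz, zero_add]
    · intro hE
      refine ef_trans hf hc.r hκ hτ hs (fun z hz => ?_) hy0 h1 hy3 hy4 hE
      rw [eq_neg_of_add_eq_zero_left hz, norm_neg]
  · exact ⟨fun _ => ef_of_fr hf.r h1, fun _ => ef_of_fr hc.r h1⟩

end Pool.Agent.Y746.DX
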